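import Pool.Agent.SOC.ThmA

/-! Project SOC, module Orders: crossing of chords in a list and the four term sums. -/

set_option autoImplicit false

namespace Pool.Agent.SOC

variable {V : Type*} [DecidableEq V]

theorem idx_ne {s : List V} (hs : IsEnum s) {a b : V} (h : a ≠ b) : s.idxOf a ≠ s.idxOf b := by
  intro e
  exact h ((List.idxOf_inj (hs.2 a)).1 e)

theorem ordFn_skew {s : List V} (hs : IsEnum s) : Skew 1 (ordFn s) := by
  intro x y h
  have h1 := idx_ne hs h
  unfold ordFn
  rcases lt_or_gt_of_ne h1 with h2 | h2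
  · rw [if_pos h2, if_neg (by omega), add_zero]
  · rw [if_neg (by omega), if_pos h2, zero_add]

theorem btw_iff {s : List V} (hs : IsEnum s) {a b c : V} (ac : a ≠ c) (bc : b ≠ c) :
    Btw s a b c ↔ ordFn s a c + ordFn s b c = 1 := by
  have h1 := idx_ne hs ac
  have h2 := idx_ne hs bc
  have e1 : (1 : ZMod 2) + 1 ≠ 1 := by decide
  have e2 : (0 : ZMod 2) + 0 ≠ 1 := by decide
  unfold Btw ordFn
  rcases lt_or_gt_of_ne h1 with h3 | h3 <;> rcases lt_or_gt_of_ne h2 with h4 | h4
  · rw [if_pos h3, if_pos h4]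
    exact ⟨fun h => by omega, fun h => absurd h e1⟩
  · rw [if_pos h3, if_neg (by omega)]
    exact ⟨fun _ => by decide, fun _ => Or.inl ⟨h3, h4⟩⟩
  · rw [if_neg (by omega), if_pos h4]
    exact ⟨fun _ => by decide, fun _ => Or.inr ⟨h4, h3⟩⟩
  · rw [if_neg (by omega), if_neg (by omega)]
    exact ⟨fun h => by omega, fun h => absurd h e2⟩

theorem cross_iff_sep {s : List V} (hs : IsEnum s) {a b c d : V} (ac : a ≠ c) (ad : a ≠ d)
    (bc : b ≠ c) (bd : b ≠ d) : Cross s a b c d ↔ sep (ordFn s) a b c d = 1 := by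
  unfold Cross
  rw [btw_iff hs ac bc, btw_iff hs ad bd]
  have e : sep (ordFn s) a b c d =
      (ordFn s a c + ordFn s b c) + (ordFn s a d + ordFn s b d) := by unfold sep; ring
  rw [e]
  generalize ordFn s a c + ordFn s b c = x
  generalize ordFn s a d + ordFn s b d = y
  revert x y
  decide

theorem not_cross_iff {s : List V} (hs : IsEnum s) {a b c d : V} (ac : a ≠ c) (ad : a ≠ d)
    (bc : b ≠ c) (bd : b ≠ d) : ¬ Cross s a b c d ↔ sep (ordFn s) a b c d = 0 := by
  rw [cross_iff_sep hs ac ad bc bd]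
  rcases zmod2_cases (sep (ordFn s) a b c d) with h | h
  · simp [h]
  · simp [h]

theorem isWO_iff {G : SimpleGraph V} {s : List V} (hs : IsEnum s) :
    IsWO G s ↔ IsSol G (ordFn s) := by
  constructor
  · intro h a b c d hr
    exact (not_cross_iff hs hr.ac hr.ad hr.bc hr.bd).1 (h a b c d hr)
  · intro h a b c d hr
    exact (not_cross_iff hs hr.ac hr.ad hr.bc hr.bd).2 (h a b c d hr)

theorem cross_comm {s : List V} (hs : IsEnum s) {a b c d : V} (ac : a ≠ c) (ad : a ≠ d)
    (bc : b ≠ c) (bd : b ≠ d) : Cross s a b c d ↔ Cross s c d a b := by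
  rw [cross_iff_sep hs ac ad bc bd, cross_iff_sep hs ac.symm bc.symm ad.symm bd.symm,
    sep_comm (ordFn_skew hs) ac ad bc bd]

/-- a convex set of the tail which contains `a, b` and not `c, d` : the chords do not cross -/
theorem not_cross_of_convex {v : V} {l : List V} (hs : IsEnum (v :: l)) {X : Set V}
    (hX : Convex l X) (hv : v ∉ X) {a b c d : V} (ha : a ∈ X) (hb : b ∈ X) (hc : c ∉ X)
    (hd : d ∉ X) : ¬ Cross (v :: l) a b c d := by
  have hne : ∀ x, x ∈ X → v ≠ x := fun x hx e => hv (e ▸ hx)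
  have key : ∀ y, y ∉ X → ¬ Btw (v :: l) a b y := by
    intro y hy hb'
    have ea : (v :: l).idxOf a = l.idxOf a + 1 := List.idxOf_cons_ne _ (hne a ha)
    have eb : (v :: l).idxOf b = l.idxOf b + 1 := List.idxOf_cons_ne _ (hne b hb)
    by_cases hyv : v = y
    · subst hyv
      have e0 : (v :: l).idxOf v = 0 := List.idxOf_cons_self
      unfold Btw at hb'
      omega
    · have ey : (v :: l).idxOf y = l.idxOf y + 1 := List.idxOf_cons_ne _ hyv
      have hyl : y ∈ l := by
        have := hs.2 y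
        rcases List.mem_cons.1 this with h | h
        · exact absurd h.symm hyv
        · exact h
      unfold Btw at hb'
      rw [ea, eb, ey] at hb'
      rcases hb' with ⟨h1, h2⟩ | ⟨h1, h2⟩
      · exact hy (hX a ha b hb y hyl (by omega) (by omega))
      · exact hy (hX b hb a ha y hyl (by omega) (by omega))
  unfold Cross
  simp [key c hc, key d hd]

end Pool.Agent.SOC
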