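import Pool.Agent.SOC.Gauss
import Pool.Agent.PolyTime.More

/-! Project SOC, module GaussPoly: Gaussian elimination over F_2 is computed in polynomial time. -/

set_option autoImplicit false

namespace Pool.Agent.SOC

open FP

theorem GaussPoly_size_map {β : Type} [Code β] (r : β → β) (hr : ∀ b, size (r b) ≤ size b)
    (l : List β) : size (l.map r) ≤ size l := by
  induction l with
  | nil => exact le_refl _
  | cons b l ih =>
    rw [List.map_cons, size_cons, size_cons]
    have := hr b
    omega

theorem GaussPoly_size_zipWith (e p : List Bool) : size (List.zipWith xor e p) ≤ size e := by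
  induction e generalizing p with
  | nil => simp [size_nil]
  | cons a e ih =>
    cases p with
    | nil => rw [List.zipWith_nil_right, size_nil]; exact Nat.zero_le _
    | cons b p =>
      rw [List.zipWith_cons_cons, size_cons, size_cons, size_bool, size_bool]
      have := ih p
      omega

theorem GaussPoly_size_erase {β : Type} [Code β] [BEq β] [LawfulBEq β] (l : List β) (b : β)
    (h : b ∈ l) : size (l.erase b) + (2 * size b + 1) = size l := by
  induction l with
  | nil => simp at h
  | cons a l ih =>
    by_cases hab : a = b
    · subst hab
      rw [List.erase_cons_head, size_cons]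
      omega
    · rw [List.erase_cons_tail (by simpa using hab), size_cons, size_cons]
      have := ih (by
        rcases List.mem_cons.1 h with h | h
        · exact absurd h.symm hab
        · exact h)
      omega

/-- the reduction step of the elimination -/
def GaussPoly_red (i : ℕ) (p e : List Bool) : List Bool :=
  if e.getD i false then List.zipWith xor e p else e

theorem GaussPoly_size_red (i : ℕ) (p e : List Bool) : size (GaussPoly_red i p e) ≤ size e := by
  unfold GaussPoly_red
  split
  · exact GaussPoly_size_zipWith e p
  · exact le_refl _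

theorem GaussPoly_step (i : ℕ) (st : List (List Bool) × List (ℕ × List Bool)) :
    gaussStep i st = match st.1.find? (fun e => e.getD i false) with
      | none => st
      | some p => ((st.1.erase p).map (GaussPoly_red i p),
          (i, p) :: st.2.map (fun q => (q.1, GaussPoly_red i p q.2))) := by
  unfold gaussStep
  cases st.1.find? (fun e => e.getD i false) <;> rfl

theorem GaussPoly_size_step (i : ℕ) (st : List (List Bool) × List (ℕ × List Bool)) :
    size (gaussStep i st) ≤ size st + (4 * size i + 1) := by
  rw [GaussPoly_step]
  cases hf : st.1.find? (fun e => e.getD i false) with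
  | none => exact Nat.le_add_right _ _
  | some p =>
    have h1 := GaussPoly_size_erase st.1 p (List.mem_of_find?_eq_some hf)
    have h2 := GaussPoly_size_map (GaussPoly_red i p) (GaussPoly_size_red i p) (st.1.erase p)
    have h3 := GaussPoly_size_map (fun q : ℕ × List Bool => (q.1, GaussPoly_red i p q.2))
      (by
        intro q
        rw [size_pair, size_prod q]
        have := GaussPoly_size_red i p q.2
        omega) st.2
    show size ((st.1.erase p).map (GaussPoly_red i p),
      (i, p) :: st.2.map (fun q : ℕ × List Bool => (q.1, GaussPoly_red i p q.2))) ≤ _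
    rw [size_pair, size_cons, size_pair, size_prod st]
    omega

section
variable {α : Type} [Code α]

theorem GaussPoly_erase0 {β : Type} [Code β] [DecidableEq β] {f : α → List β} {g : α → β}
    (hf : Poly f) (hg : Poly g) : Poly (fun a => (f a).erase (g a)) := by
  have h1 : Poly (fun a => (f a).take ((f a).idxOf (g a)) ++
      (f a).drop ((f a).idxOf (g a) + 1)) := by
    have h2 : Poly (fun a => (f a).idxOf (g a)) := Poly.idxOf hg hf
    exact Poly.append (Poly.take h2 hf) (Poly.drop (Poly.add h2 (FP.Poly.const 1)) hf)
  refine h1.congr (fun a => ?_)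
  rw [← List.eraseIdx_eq_take_drop_succ, List.eraseIdx_idxOf_eq_erase]

theorem GaussPoly_erase_eq {β : Type} (i1 i2 : BEq β) (h1 : @LawfulBEq β i1)
    (h2 : @LawfulBEq β i2) (l : List β) (b : β) :
    @List.erase β i1 l b = @List.erase β i2 l b := by
  have h : i1 = i2 := lawful_beq_subsingleton _ _
  subst h
  rfl

theorem GaussPoly_erase {β : Type} [Code β] [hβ : BEq β] [hL : LawfulBEq β] {f : α → List β}
    {g : α → β} (hf : Poly f) (hg : Poly g) : Poly (fun a => (f a).erase (g a)) := by
  classical
  refine (GaussPoly_erase0 hf hg).congr (fun a => ?_)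
  exact GaussPoly_erase_eq _ _ inferInstance hL _ _

theorem GaussPoly_poly_red {i : α → ℕ} {p e : α → List Bool} (hi : Poly i) (hp : Poly p)
    (he : Poly e) : Poly (fun a => GaussPoly_red (i a) (p a) (e a)) := by
  unfold GaussPoly_red
  refine Poly.ite (Poly.pred (Poly.getD he hi (FP.Poly.const false))) ?_ he
  exact Poly.zipWith (h := fun _ x y => xor x y) he hp (by fun_prop)

theorem poly_gaussStep {i : α → ℕ} {st : α → List (List Bool) × List (ℕ × List Bool)}
    (hi : Poly i) (hs : Poly st) : Poly (fun a => gaussStep (i a) (st a)) := by
  have hfind : Poly (fun a => (st a).1.find? (fun e => e.getD (i a) false)) := by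
    refine Poly.find? (f := fun a => (st a).1) (g := fun a e => e.getD (i a) false) hs.fst ?_
    exact Poly.getD Poly.snd' (hi.comp Poly.fst') (FP.Poly.const false)
  have h1 : Poly (fun p : α × List Bool => (((st p.1).1.erase p.2).map (GaussPoly_red (i p.1) p.2),
      (i p.1, p.2) :: (st p.1).2.map (fun q => (q.1, GaussPoly_red (i p.1) p.2 q.2)))) := by
    refine Poly.pair ?_ (Poly.cons ?_ ?_)
    · refine FP.Poly.map (f := fun p : α × List Bool => (st p.1).1.erase p.2)
        (g := fun p e => GaussPoly_red (i p.1) p.2 e)
        (GaussPoly_erase (hs.fst.comp Poly.fst') Poly.snd') ?_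
      exact GaussPoly_poly_red (hi.comp (f := fun q : (α × List Bool) × List Bool => q.1.1)
        (by fun_prop)) (by fun_prop) (by fun_prop)
    · exact Poly.pair (hi.comp Poly.fst') Poly.snd'
    · refine FP.Poly.map (f := fun p : α × List Bool => (st p.1).2)
        (g := fun p q => (q.1, GaussPoly_red (i p.1) p.2 q.2)) (hs.snd.comp Poly.fst') ?_
      refine Poly.pair (by fun_prop) ?_
      exact GaussPoly_poly_red (hi.comp (f := fun q : (α × List Bool) × (ℕ × List Bool) => q.1.1)
        (by fun_prop)) (by fun_prop) (by fun_prop)
  refine (Poly.optionCases (f := fun a => (st a).1.find? (fun e => e.getD (i a) false)) (g := st)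
    (h := fun a p => (((st a).1.erase p).map (GaussPoly_red (i a) p),
      (i a, p) :: (st a).2.map (fun q => (q.1, GaussPoly_red (i a) p q.2)))) hfind hs h1).congr ?_
  intro a
  rw [GaussPoly_step]
  cases (st a).1.find? (fun e => e.getD (i a) false) <;> rfl

/-- **Gaussian elimination is computed in polynomial time** -/
theorem poly_gauss {m : α → ℕ} {E : α → List (List Bool)} (hm : Poly m) (hb : PolyBdd m)
    (hE : Poly E) : Poly (fun a => gauss (m a) (E a)) := by
  obtain ⟨P, hP⟩ := hb
  have hfold : Poly (fun a => (List.range (m a)).foldl (fun st i => gaussStep i st) (E a, [])) := by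
    refine Poly.foldl_add (f := fun a => List.range (m a)) (g := fun a => (E a, []))
      (h := fun _ st i => gaussStep i st) (Poly.range hm ⟨P, hP⟩) (Poly.pair hE (FP.Poly.const [])) ?_
      (4 * P + 1) ?_
    · exact poly_gaussStep (i := fun p : α × (List (List Bool) × List (ℕ × List Bool)) × ℕ => p.2.2)
        (st := fun p => p.2.1) (by fun_prop) (by fun_prop)
    · intro a s b hbm
      have h1 : b < m a := List.mem_range.1 hbm
      have h2 := hP a
      have h3 := size_nat_le b
      have h4 : (4 * P + 1 : Polynomial ℕ).eval (size a) = 4 * P.eval (size a) + 1 := by simp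
      rw [h4]
      have h5 := GaussPoly_size_step b s
      omega
  unfold gauss
  refine Poly.ite (Poly.pred ?_) (FP.Poly.const none) (Poly.some' ?_)
  · refine Poly.any (f := fun a => ((List.range (m a)).foldl (fun st i => gaussStep i st)
      (E a, [])).1) (g := fun a e => e.getD (m a) false) hfold.fst ?_
    exact Poly.getD Poly.snd' (hm.comp Poly.fst') (FP.Poly.const false)
  · refine FP.Poly.map (f := fun a => List.range (m a)) (g := fun a i =>
      ((List.range (m a)).foldl (fun st i => gaussStep i st) (E a, [])).2.any
        (fun q => decide (q.1 = i) && q.2.getD (m a) false)) (Poly.range hm ⟨P, hP⟩) ?_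
    refine Poly.any (f := fun p : α × ℕ => ((List.range (m p.1)).foldl
      (fun st i => gaussStep i st) (E p.1, [])).2)
      (g := fun p q => decide (q.1 = p.2) && q.2.getD (m p.1) false)
      (hfold.snd.comp Poly.fst') ?_
    refine Poly.and (by fun_prop) ?_
    exact Poly.getD (by fun_prop) (hm.comp (f := fun q : (α × ℕ) × (ℕ × List Bool) => q.1.1)
      (by fun_prop)) (FP.Poly.const false)

end

end Pool.Agent.SOC
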