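import Pool.Agent.SOC.ModOrder
import Pool.Agent.PolyTime.More

/-! Project SOC, module ModPoly: the order of a tournament is computed in polynomial time. -/

set_option autoImplicit false

namespace Pool.Agent.SOC

open FP

section
variable {β : Type} [Code β]

theorem ModPoly_size_sublist {l l' : List β} (h : l.Sublist l') : size l ≤ size l' := by
  induction h with
  | slnil => exact le_refl _
  | cons a _ ih => rw [size_cons]; omega
  | cons_cons a _ ih => rw [size_cons, size_cons]; omega

theorem ModPoly_size_perm {l l' : List β} (h : l.Perm l') : size l = size l' := by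
  induction h with
  | nil => rfl
  | cons a _ ih => rw [size_cons, size_cons, ih]
  | swap a b l => rw [size_cons, size_cons, size_cons, size_cons]; omega
  | trans _ _ ih1 ih2 => rw [ih1, ih2]

theorem ModPoly_size_subperm {l l' : List β} (h : l.Subperm l') : size l ≤ size l' := by
  obtain ⟨m, hm, hs⟩ := h
  rw [← ModPoly_size_perm hm]
  exact ModPoly_size_sublist hs

theorem ModPoly_size_flatten (bs : List (List β)) : size bs = 2 * size bs.flatten + bs.length := by
  induction bs with
  | nil => rfl
  | cons b bs ih =>
    rw [size_cons, List.flatten_cons, size_append, List.length_cons, ih]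
    omega

end

section
variable {α : Type} [Code α]

theorem poly_closB {f : α → ℕ → List ℕ → Bool} {L S : α → List ℕ}
    (hf : Poly (fun p : α × ℕ × List ℕ => f p.1 p.2.1 p.2.2)) (hL : Poly L) (hS : Poly S) :
    Poly (fun a => closB (f a) (L a) (S a)) := by
  obtain ⟨P, hP⟩ := hL.size_le
  obtain ⟨Q, hQ⟩ := hS.size_le
  unfold closB
  refine Poly.iterate (f := fun a => (L a).length) (g := S)
    (h := fun a S => (L a).filter (fun z => decide (z ∈ S) || f a z S)) hL.length
    (PolyBdd.length hL) hS ?_ (P + Q) ?_
  · refine Poly.filter (f := fun p : α × List ℕ => L p.1)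
      (g := fun (p : α × List ℕ) (z : ℕ) => decide (z ∈ p.2) || f p.1 z p.2) (by fun_prop) ?_
    have h1 := hf.comp (f := fun q : (α × List ℕ) × ℕ => (q.1.1, q.2, q.1.2)) (by fun_prop)
    exact Poly.or (by fun_prop) h1
  · intro a k _
    rw [Polynomial.eval_add]
    cases k with
    | zero =>
      have := hQ a
      simp only [Function.iterate_zero, id_eq]
      omega
    | succ k =>
      rw [Function.iterate_succ_apply']
      have h1 := ModPoly_size_sublist (List.filter_sublist (p := fun z => decide (z ∈
        (fun S => (L a).filter (fun z => decide (z ∈ S) || f a z S))^[k] (S a)) ||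
        f a z ((fun S => (L a).filter (fun z => decide (z ∈ S) || f a z S))^[k] (S a))) (l := L a))
      have h2 := hP a
      omega

theorem poly_anc {T : α → ℕ → ℕ → Bool} {L : α → List ℕ} {v : α → ℕ}
    (hT : Poly (fun p : α × (ℕ × ℕ) => T p.1 p.2.1 p.2.2)) (hL : Poly L) (hv : Poly v) :
    Poly (fun a => anc (T a) (L a) (v a)) := by
  unfold anc
  refine poly_closB (f := fun a z S => S.any (fun u => T a z u)) ?_ hL (by fun_prop)
  refine Poly.any (f := fun p : α × ℕ × List ℕ => p.2.2)
    (g := fun (p : α × ℕ × List ℕ) (u : ℕ) => T p.1 p.2.1 u) (by fun_prop) ?_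
  exact hT.comp (f := fun q : (α × ℕ × List ℕ) × ℕ => (q.1.1, q.1.2.1, q.2)) (by fun_prop)

theorem poly_modc {T : α → ℕ → ℕ → Bool} {L : α → List ℕ} {x y : α → ℕ}
    (hT : Poly (fun p : α × (ℕ × ℕ) => T p.1 p.2.1 p.2.2)) (hL : Poly L) (hx : Poly x)
    (hy : Poly y) : Poly (fun a => modc (T a) (L a) (x a) (y a)) := by
  unfold modc
  refine poly_closB (f := fun a z S => S.any (fun u => S.any (fun v => T a z u != T a z v))) ?_ hL
    (by fun_prop)
  refine Poly.any (f := fun p : α × ℕ × List ℕ => p.2.2)
    (g := fun (p : α × ℕ × List ℕ) (u : ℕ) => p.2.2.any (fun v => T p.1 p.2.1 u != T p.1 p.2.1 v))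
    (by fun_prop) ?_
  refine Poly.any (f := fun q : (α × ℕ × List ℕ) × ℕ => q.1.2.2)
    (g := fun (q : (α × ℕ × List ℕ) × ℕ) (v : ℕ) => T q.1.1 q.1.2.1 q.2 != T q.1.1 q.1.2.1 v)
    (by fun_prop) ?_
  have h1 := hT.comp (f := fun r : ((α × ℕ × List ℕ) × ℕ) × ℕ => (r.1.1.1, r.1.1.2.1, r.1.2))
    (by fun_prop)
  have h2 := hT.comp (f := fun r : ((α × ℕ × List ℕ) × ℕ) × ℕ => (r.1.1.1, r.1.1.2.1, r.2))
    (by fun_prop)
  exact (Poly.xor h1 h2).congr (fun r => by simp only [Bool.bne_eq_xor])

theorem ModPoly_shortest_mem (Ls : List (List ℕ)) : ∀ m : List ℕ,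
    Ls.foldl (fun m l => if l.length < m.length then l else m) m = m ∨
      Ls.foldl (fun m l => if l.length < m.length then l else m) m ∈ Ls := by
  induction Ls with
  | nil => intro m; exact Or.inl rfl
  | cons l Ls ih =>
    intro m
    rw [List.foldl_cons]
    rcases ih (if l.length < m.length then l else m) with h | h
    · rw [h]
      split
      · exact Or.inr List.mem_cons_self
      · exact Or.inl rfl
    · exact Or.inr (List.mem_cons_of_mem _ h)

theorem poly_shortest {Ls : α → List (List ℕ)} (h : Poly Ls) : Poly (fun a => shortest (Ls a)) := by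
  obtain ⟨P, hP⟩ := h.size_le
  unfold shortest
  refine Poly.foldl (f := Ls) (g := fun a => (Ls a).headD [])
    (h := fun _ m l => if l.length < m.length then l else m) h (by fun_prop) (by fun_prop) P ?_
  intro a k _
  refine le_trans ?_ (hP a)
  have h0 : size ((Ls a).headD []) ≤ size (Ls a) := by
    cases hL : Ls a with
    | nil => simp [size_nil]
    | cons l Ls =>
      rw [List.headD_cons, size_cons]
      omega
  rcases ModPoly_shortest_mem ((Ls a).take k) ((Ls a).headD []) with h1 | h1
  · rw [h1]; exact h0
  · have h2 := size_le_of_mem (List.mem_of_mem_take h1)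
    omega

theorem ModPoly_dedup {β : Type} [DecidableEq β] (l : List β) :
    l.dedup = l.foldr (fun x acc => if x ∈ acc then acc else x :: acc) [] := by
  induction l with
  | nil => rfl
  | cons a l ih =>
    rw [List.foldr_cons, ← ih]
    by_cases h : a ∈ l
    · rw [List.dedup_cons_of_mem h, if_pos (List.mem_dedup.mpr h)]
    · rw [List.dedup_cons_of_notMem h, if_neg (fun h' => h (List.mem_dedup.mp h'))]

theorem poly_dedup {β : Type} [Code β] [DecidableEq β] {f : α → List β} (hf : Poly f) :
    Poly (fun a => (f a).dedup) := by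
  simp only [ModPoly_dedup]
  obtain ⟨P, hP⟩ := hf.size_le
  refine Poly.foldr_add (f := f) (g := fun _ => ([] : List β))
    (h := fun _ x acc => if x ∈ acc then acc else x :: acc) hf (by fun_prop) (by fun_prop)
    (2 * P + 1) ?_
  intro a s b hb
  have h1 := size_le_of_mem hb
  have h2 := hP a
  have h3 : (2 * P + 1 : Polynomial ℕ).eval (size a) = 2 * P.eval (size a) + 1 := by simp
  rw [h3]
  split
  · omega
  · rw [size_cons]; omega

theorem poly_classes {r : α → ℕ → ℕ → Bool} {L : α → List ℕ}
    (hr : Poly (fun p : α × (ℕ × ℕ) => r p.1 p.2.1 p.2.2)) (hL : Poly L) :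
    Poly (fun a => classes (r a) (L a)) := by
  unfold classes
  refine poly_dedup ?_
  refine FP.Poly.map (f := L)
    (g := fun a x => (L a).filter (fun y => r a x y || decide (x = y))) hL ?_
  refine Poly.filter (f := fun p : α × ℕ => L p.1)
    (g := fun (p : α × ℕ) (y : ℕ) => r p.1 p.2 y || decide (p.2 = y)) (by fun_prop) ?_
  have h1 := hr.comp (f := fun q : (α × ℕ) × ℕ => (q.1.1, q.1.2, q.2)) (by fun_prop)
  exact Poly.or h1 (by fun_prop)

theorem poly_refine {T : α → ℕ → ℕ → Bool} {L : α → List ℕ}
    (hT : Poly (fun p : α × (ℕ × ℕ) => T p.1 p.2.1 p.2.2)) (hL : Poly L) :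
    Poly (fun a => refine (T a) (L a)) := by
  have hC : Poly (fun a => shortest ((L a).map (anc (T a) (L a)))) := by
    refine poly_shortest (FP.Poly.map (f := L) (g := fun a v => anc (T a) (L a) v) hL ?_)
    refine poly_anc (T := fun p : α × ℕ => T p.1) (L := fun p => L p.1) (v := fun p => p.2) ?_
      (by fun_prop) (by fun_prop)
    exact hT.comp (f := fun q : (α × ℕ) × (ℕ × ℕ) => (q.1.1, q.2)) (by fun_prop)
  have hc : Poly (fun a => classes
      (fun x y => decide ((modc (T a) (L a) x y).length < (L a).length)) (L a)) := by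
    refine poly_classes
      (r := fun a x y => decide ((modc (T a) (L a) x y).length < (L a).length)) ?_ hL
    have h1 : Poly (fun p : α × (ℕ × ℕ) => modc (T p.1) (L p.1) p.2.1 p.2.2) := by
      refine poly_modc (T := fun p : α × (ℕ × ℕ) => T p.1) (L := fun p => L p.1)
        (x := fun p => p.2.1) (y := fun p => p.2.2) ?_ (by fun_prop) (by fun_prop) (by fun_prop)
      exact hT.comp (f := fun q : (α × (ℕ × ℕ)) × (ℕ × ℕ) => (q.1.1, q.2)) (by fun_prop)
    fun_prop
  unfold refine
  refine Poly.ite (by fun_prop) (by fun_prop) (Poly.ite ?_ ?_ hc)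
  · exact PolyPred.lt hC.length hL.length
  · refine Poly.cons hC (Poly.cons ?_ (FP.Poly.const []))
    refine Poly.filter (f := L)
      (g := fun a z => decide (z ∉ shortest ((L a).map (anc (T a) (L a))))) hL ?_
    have h1 : Poly (fun p : α × ℕ => decide (p.2 ∈ shortest ((L p.1).map (anc (T p.1) (L p.1))))) :=
      Poly.decideMem (by fun_prop) (hC.comp Poly.fst')
    exact (Poly.not h1).congr (fun p => by simp)

end

/-! ### the sizes of the intermediate states -/

theorem ModPoly_closB_form (f : ℕ → List ℕ → Bool) {L : List ℕ} (hL : L ≠ []) (S : List ℕ) :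
    ∃ p : ℕ → Bool, closB f L S = L.filter p := by
  unfold closB
  cases h : L.length with
  | zero => exact absurd (List.length_eq_zero_iff.mp h) hL
  | succ k =>
    rw [Function.iterate_succ_apply']
    exact ⟨_, rfl⟩

theorem ModPoly_closB_mem (f : ℕ → List ℕ → Bool) {L : List ℕ} {S : List ℕ} {v : ℕ} (hv : v ∈ S)
    (hvL : v ∈ L) : v ∈ closB f L S := by
  unfold closB
  generalize L.length = k
  induction k with
  | zero => exact hv
  | succ k ih =>
    rw [Function.iterate_succ_apply']
    exact List.mem_filter.mpr ⟨hvL, by simp [ih]⟩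

theorem ModPoly_shortest_form (T : ℕ → ℕ → Bool) {L : List ℕ} (hL : L ≠ []) :
    ∃ v ∈ L, shortest (L.map (anc T L)) = anc T L v := by
  unfold shortest
  cases L with
  | nil => exact absurd rfl hL
  | cons a L =>
    rcases ModPoly_shortest_mem ((a :: L).map (anc T (a :: L))) (((a :: L).map (anc T (a :: L))).headD []) with h | h
    · refine ⟨a, List.mem_cons_self, ?_⟩
      rw [h]
      rfl
    · obtain ⟨v, hv, h1⟩ := List.mem_map.mp h
      exact ⟨v, hv, h1.symm⟩

theorem ModPoly_filter_perm (L : List ℕ) (p : ℕ → Bool) :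
    (L.filter p ++ L.filter (fun z => decide (z ∉ L.filter p))).Perm L := by
  have h1 : L.filter (fun z => decide (z ∉ L.filter p)) = L.filter (fun z => !p z) := by
    refine List.filter_congr (fun z hz => ?_)
    have : z ∈ L.filter p ↔ p z = true := by
      rw [List.mem_filter]
      exact ⟨fun h => h.2, fun h => ⟨hz, h⟩⟩
    simp only [this]
    cases p z <;> simp
  rw [h1]
  exact List.filter_append_perm p L

theorem ModPoly_refine_sub (T : ℕ → ℕ → Bool) (S : List ℕ) : S.Subperm (refine T S).flatten := by
  unfold refine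
  split
  · rw [List.flatten_cons, List.flatten_nil, List.append_nil]
  next hlen =>
    have hS : S ≠ [] := by
      rintro rfl
      exact hlen (by simp)
    simp only
    split
    · obtain ⟨v, hv, h1⟩ := ModPoly_shortest_form T hS
      rw [h1]
      obtain ⟨p, hp⟩ := ModPoly_closB_form (fun z S => S.any (fun u => T z u)) hS [v]
      have h2 : anc T S v = S.filter p := hp
      rw [h2]
      have h3 := ModPoly_filter_perm S p
      simpa using h3.symm.subperm
    · rw [List.subperm_ext_iff]
      intro x hx
      unfold classes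
      set r : ℕ → ℕ → Bool := fun x y => decide ((modc T S x y).length < S.length)
      have h4 : S.filter (fun y => r x y || decide (x = y)) ∈
          (S.map (fun x => S.filter (fun y => r x y || decide (x = y)))).dedup :=
        List.mem_dedup.mpr (List.mem_map.mpr ⟨x, hx, rfl⟩)
      have h5 := (List.sublist_flatten_of_mem h4).count_le x
      refine le_trans (le_of_eq ?_) h5
      rw [List.count_filter (by simp)]

theorem ModPoly_refine_ne (T : ℕ → ℕ → Bool) {S : List ℕ} (hS : S ≠ []) :
    ∀ b ∈ refine T S, b ≠ [] := by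
  intro b hb
  unfold refine at hb
  split at hb
  · rw [List.mem_singleton] at hb
    rw [hb]; exact hS
  next hlen =>
    simp only at hb
    split at hb
    next hC =>
      obtain ⟨v, hv, h1⟩ := ModPoly_shortest_form T hS
      rw [h1] at hb hC
      have hvC : v ∈ anc T S v :=
        ModPoly_closB_mem (fun z S => S.any (fun u => T z u)) List.mem_cons_self hv
      rcases List.mem_cons.mp hb with h2 | h2
      · rw [h2]
        exact List.ne_nil_of_mem hvC
      · rw [List.mem_singleton] at h2
        obtain ⟨p, hp⟩ := ModPoly_closB_form (fun z S => S.any (fun u => T z u)) hS [v]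
        have h3 : anc T S v = S.filter p := hp
        have h4 := (ModPoly_filter_perm S p).length_eq
        rw [List.length_append, ← h3] at h4
        rw [h2]
        intro h5
        rw [h5] at h4
        simp at h4
        omega
    · unfold classes at hb
      obtain ⟨x, hx, h1⟩ := List.mem_map.mp (List.mem_dedup.mp hb)
      rw [← h1]
      exact List.ne_nil_of_mem (List.mem_filter.mpr ⟨hx, by simp⟩)

theorem ModPoly_flatMap_sub (T : ℕ → ℕ → Bool) (bs : List (List ℕ)) :
    bs.flatten.Subperm (bs.flatMap (refine T)).flatten := by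
  induction bs with
  | nil => simp
  | cons b bs ih =>
    rw [List.flatMap_cons, List.flatten_append, List.flatten_cons]
    exact (ModPoly_refine_sub T b).append ih

theorem ModPoly_iter_mono (T : ℕ → ℕ → Bool) (L : List ℕ) {k l : ℕ} (h : k ≤ l) :
    ((fun bs : List (List ℕ) => bs.flatMap (refine T))^[k] [L]).flatten.Subperm
      ((fun bs : List (List ℕ) => bs.flatMap (refine T))^[l] [L]).flatten := by
  induction l, h using Nat.le_induction with
  | base => exact List.Subperm.refl _
  | succ l _ ih =>
    rw [Function.iterate_succ_apply']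
    exact ih.trans (ModPoly_flatMap_sub T _)

theorem ModPoly_iter_ne (T : ℕ → ℕ → Bool) {L : List ℕ} (hL : L ≠ []) (k : ℕ) :
    ∀ b ∈ (fun bs : List (List ℕ) => bs.flatMap (refine T))^[k] [L], b ≠ [] := by
  induction k with
  | zero =>
    intro b hb
    rw [Function.iterate_zero, id_eq, List.mem_singleton] at hb
    rw [hb]; exact hL
  | succ k ih =>
    intro b hb
    rw [Function.iterate_succ_apply'] at hb
    obtain ⟨c, hc, hbc⟩ := List.mem_flatMap.mp hb
    exact ModPoly_refine_ne T (ih c hc) b hbc

theorem ModPoly_length_le {bs : List (List ℕ)} (h : ∀ b ∈ bs, b ≠ []) :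
    bs.length ≤ bs.flatten.length := by
  induction bs with
  | nil => simp
  | cons b bs ih =>
    rw [List.length_cons, List.flatten_cons, List.length_append]
    have h1 := List.length_pos_of_ne_nil (h b List.mem_cons_self)
    have h2 := ih (fun c hc => h c (List.mem_cons_of_mem _ hc))
    omega

theorem poly_modOrder {α : Type} [Code α] {T : α → ℕ → ℕ → Bool} {L : α → List ℕ}
    (hT : Poly (fun p : α × (ℕ × ℕ) => T p.1 p.2.1 p.2.2)) (hL : Poly L)
    (hn : ∀ a, (L a).Nodup) (ht : ∀ a, ∀ x ∈ L a, ∀ y ∈ L a, x ≠ y → T a x y = !T a y x) :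
    Poly (fun a => modOrder (T a) (L a)) := by
  obtain ⟨P, hP⟩ := hL.size_le
  unfold modOrder
  refine Poly.flatten ?_
  refine Poly.iterate (f := fun a => (L a).length) (g := fun a => [L a])
    (h := fun a bs => bs.flatMap (refine (T a))) hL.length (PolyBdd.length hL) (by fun_prop) ?_
    (3 * P + 1) ?_
  · refine Poly.flatMap (f := fun p : α × List (List ℕ) => p.2)
      (g := fun p B => refine (T p.1) B) (by fun_prop) ?_
    refine poly_refine (T := fun q : (α × List (List ℕ)) × List ℕ => T q.1.1) (L := fun q => q.2) ?_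
      (by fun_prop)
    exact hT.comp (f := fun r : ((α × List (List ℕ)) × List ℕ) × (ℕ × ℕ) => (r.1.1.1, r.2))
      (by fun_prop)
  · intro a k hk
    have h1 := ModPoly_iter_mono (T a) (L a) hk
    have h2 : ((fun bs : List (List ℕ) => bs.flatMap (refine (T a)))^[(L a).length] [L a]).flatten.Perm
        (L a) := modOrder_perm (T a) (hn a) (ht a)
    have h3 := h1.trans h2.subperm
    have h4 := ModPoly_size_subperm h3
    have h5 := ModPoly_size_flatten ((fun bs : List (List ℕ) => bs.flatMap (refine (T a)))^[k] [L a])
    have h6 : ((fun bs : List (List ℕ) => bs.flatMap (refine (T a)))^[k] [L a]).length ≤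
        (L a).length + 1 := by
      by_cases hLa : L a = []
      · rw [hLa] at hk ⊢
        have hk0 : k = 0 := by simpa using hk
        subst hk0
        simp
      · have h7 := ModPoly_length_le (ModPoly_iter_ne (T a) hLa k)
        have h8 := h3.length_le
        omega
    have h9 := length_le_size (L a)
    have h10 := hP a
    have h11 : (3 * P + 1 : Polynomial ℕ).eval (size a) = 3 * P.eval (size a) + 1 := by simp
    rw [h11, h5]
    omega

end Pool.Agent.SOC
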