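import Pool.Agent.SOC.Algo
import Pool.Agent.SOC.GaussPoly
import Pool.Agent.SOC.ModPoly

/-! Project SOC, module AlgoPoly: the algorithm runs in polynomial time. -/

set_option autoImplicit false

namespace Pool.Agent.SOC

open FP

section
variable {α : Type} [Code α]

theorem AlgoPoly_adjB {M : α → List (List Bool)} {i j : α → ℕ} (hM : Poly M) (hi : Poly i) (hj : Poly j) :
    Poly (fun a => adjB (M a) (i a) (j a)) := by
  unfold adjB
  fun_prop

theorem AlgoPoly_rigidB {M : α → List (List Bool)} {a b c d : α → ℕ} (hM : Poly M) (ha : Poly a) (hb : Poly b)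
    (hc : Poly c) (hd : Poly d) : Poly (fun p => rigidB (M p) (a p) (b p) (c p) (d p)) := by
  unfold rigidB
  have h1 := AlgoPoly_adjB hM ha hb
  have h2 := AlgoPoly_adjB hM hc hd
  have h3 := AlgoPoly_adjB hM ha hc
  have h4 := AlgoPoly_adjB hM hb hd
  have h5 := AlgoPoly_adjB hM ha hd
  have h6 := AlgoPoly_adjB hM hb hc
  fun_prop

theorem AlgoPoly_pidx {n x y : α → ℕ} (hn : Poly n) (hx : Poly x) (hy : Poly y) :
    Poly (fun p => pidx (n p) (x p) (y p)) := by
  unfold pidx
  fun_prop

theorem AlgoPoly_eqOf {n a b c d : α → ℕ} (hn : Poly n) (hnb : PolyBdd n) (ha : Poly a) (hb : Poly b)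
    (hc : Poly c) (hd : Poly d) : Poly (fun p => eqOf (n p) (a p) (b p) (c p) (d p)) := by
  unfold eqOf
  refine FP.Poly.append (FP.Poly.map (Poly.range (hn.mul hn) (hnb.mul hnb)) ?_) ?_
  · have h1 : Poly (fun p : α × ℕ => pidx (n p.1) (a p.1) (c p.1)) :=
      AlgoPoly_pidx (by fun_prop) (by fun_prop) (by fun_prop)
    have h2 : Poly (fun p : α × ℕ => pidx (n p.1) (a p.1) (d p.1)) :=
      AlgoPoly_pidx (by fun_prop) (by fun_prop) (by fun_prop)
    have h3 : Poly (fun p : α × ℕ => pidx (n p.1) (b p.1) (c p.1)) :=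
      AlgoPoly_pidx (by fun_prop) (by fun_prop) (by fun_prop)
    have h4 : Poly (fun p : α × ℕ => pidx (n p.1) (b p.1) (d p.1)) :=
      AlgoPoly_pidx (by fun_prop) (by fun_prop) (by fun_prop)
    fun_prop
  · fun_prop

theorem AlgoPoly_system : Poly system := by
  unfold system
  have hr : ∀ {β : Type} [Code β] {M : β → List (List Bool)}, Poly M → Poly (fun p => List.range (M p).length) :=
    fun h => Poly.range (Poly.length h) (PolyBdd.length h)
  refine Poly.flatMap (hr (by fun_prop)) ?_
  refine Poly.flatMap (hr (by fun_prop)) ?_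
  refine Poly.flatMap (hr (by fun_prop)) ?_
  refine Poly.flatMap (hr (by fun_prop)) ?_
  have h1 : Poly (fun p : (((List (List Bool) × ℕ) × ℕ) × ℕ) × ℕ =>
      rigidB p.1.1.1.1 p.1.1.1.2 p.1.1.2 p.1.2 p.2) :=
    AlgoPoly_rigidB (by fun_prop) (by fun_prop) (by fun_prop) (by fun_prop) (by fun_prop)
  have h2 : Poly (fun p : (((List (List Bool) × ℕ) × ℕ) × ℕ) × ℕ =>
      eqOf p.1.1.1.1.length p.1.1.1.2 p.1.1.2 p.1.2 p.2) :=
    AlgoPoly_eqOf (by fun_prop) (PolyBdd.length (by fun_prop)) (by fun_prop) (by fun_prop) (by fun_prop)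
      (by fun_prop)
  fun_prop

theorem AlgoPoly_wB {n i j : α → ℕ} {x : α → List Bool} (hn : Poly n) (hx : Poly x) (hi : Poly i) (hj : Poly j) :
    Poly (fun p => wB (n p) (x p) (i p) (j p)) := by
  unfold wB
  fun_prop

theorem AlgoPoly_tourB {n i j : α → ℕ} {x : α → List Bool} (hn : Poly n) (hx : Poly x) (hi : Poly i)
    (hj : Poly j) : Poly (fun p => tourB (n p) (x p) (i p) (j p)) := by
  unfold tourB
  have h1 := AlgoPoly_wB hn hx hi hj
  have h2 := AlgoPoly_wB (i := fun _ => 0) hn hx (by fun_prop) hi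
  have h3 := AlgoPoly_wB (i := fun _ => 0) hn hx (by fun_prop) hj
  fun_prop

end

theorem AlgoPoly_wB_not (n : ℕ) (x : List Bool) {i j : ℕ} (h : i ≠ j) : wB n x i j = !(wB n x j i) := by
  unfold wB
  rcases lt_or_gt_of_ne h with h1 | h1
  · rw [if_pos h1, if_neg (by omega), Bool.not_not]
  · rw [if_neg (by omega), if_pos h1]

theorem AlgoPoly_tourB_not (n : ℕ) (x : List Bool) {i j : ℕ} (h : i ≠ j) : tourB n x i j = !(tourB n x j i) := by
  unfold tourB
  rw [AlgoPoly_wB_not n x h]
  cases wB n x j i <;> cases wB n x 0 i <;> cases wB n x 0 j <;> rfl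

theorem AlgoPoly_orderOf : Poly (fun p : List (List Bool) × List Bool => orderOf p.1.length p.2) := by
  unfold orderOf
  have h1 : Poly (fun p : List (List Bool) × List Bool => modOrder (tourB p.1.length p.2)
      ((List.range p.1.length).tail)) := by
    refine poly_modOrder (T := fun p : List (List Bool) × List Bool => tourB p.1.length p.2)
      (L := fun p => (List.range p.1.length).tail) ?_ ?_ ?_ ?_
    · exact AlgoPoly_tourB (by fun_prop) (by fun_prop) (by fun_prop) (by fun_prop)
    · exact Poly.listTail (Poly.range (by fun_prop) (PolyBdd.length (by fun_prop)))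
    · intro a
      exact List.Nodup.sublist (List.tail_sublist _) List.nodup_range
    · intro a x _ y _ hxy
      exact AlgoPoly_tourB_not _ _ hxy
  fun_prop

theorem poly_outerOrder : Poly outerOrder := by
  unfold outerOrder
  have h1 : Poly (fun M : List (List Bool) => gauss (M.length * M.length) (system M)) :=
    poly_gauss (by fun_prop) ((PolyBdd.length (by fun_prop)).mul (PolyBdd.length (by fun_prop))) AlgoPoly_system
  exact Poly.optionMap h1 AlgoPoly_orderOf

end Pool.Agent.SOC
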