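import Pool.Agent.SOC.Defs

/-! Project SOC, module Gauss: Gaussian elimination over F_2 with lists of booleans.

An equation is a list of booleans of length m + 1: the coefficients of the variables 0, ..., m - 1 and then the right
hand side. A solution is a list of booleans `x`; `evalEq x e` is the sum over i of e_i x_i plus the right hand side.
ALGORITHM. State (todo, done): for i = 0, ..., m-1: find the first equation p of `todo` with coefficient i true; if there is
one, remove it from `todo`, add it to every equation of `todo` and of `done` with coefficient i true, put (i, p) into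
`done`. At the end: if some equation of `todo` has right hand side true: no solution; otherwise x_i = right hand side of the
equation p with (i, p) in `done`, x_i = false for the other i. The definition may be changed by whoever proves this
module (only `gauss`, `gauss_none`, `gauss_some`, `poly_gauss` are used by others). -/

set_option autoImplicit false

namespace Pool.Agent.SOC

/-- value of the equation `e` (coefficients of variables `0..m-1`, then the constant) at `x` : `false` = satisfied -/
def evalEq (m : ℕ) (x e : List Bool) : Bool :=
  (List.range m).foldl (fun acc i => xor acc ((e.getD i false) && (x.getD i false))) (e.getD m false)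

/-- one elimination step for the variable `i` -/
def gaussStep (i : ℕ) (st : List (List Bool) × List (ℕ × List Bool)) :
    List (List Bool) × List (ℕ × List Bool) :=
  match st.1.find? (fun e => e.getD i false) with
  | none => st
  | some p =>
    let red : List Bool → List Bool := fun e =>
      if e.getD i false then List.zipWith xor e p else e
    ((st.1.erase p).map red, (i, p) :: st.2.map (fun q => (q.1, red q.2)))

/-- Gaussian elimination: a solution of the system `E` in `m` unknowns, or `none` -/
def gauss (m : ℕ) (E : List (List Bool)) : Option (List Bool) :=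
  let st := (List.range m).foldl (fun st i => gaussStep i st) (E, [])
  if st.1.any (fun e => e.getD m false) then none
  else some ((List.range m).map (fun i => st.2.any (fun q => decide (q.1 = i) && q.2.getD m false)))

theorem Gauss_fold (f g : ℕ → Bool) (l : List ℕ) : ∀ a b : Bool,
    l.foldl (fun acc i => xor acc (xor (f i) (g i))) (xor a b) =
      xor (l.foldl (fun acc i => xor acc (f i)) a) (l.foldl (fun acc i => xor acc (g i)) b) := by
  induction l with
  | nil => intro a b; rfl
  | cons i l ih =>
    intro a b
    simp only [List.foldl_cons]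
    rw [← ih]
    congr 1
    cases a <;> cases b <;> cases f i <;> cases g i <;> rfl

theorem Gauss_fold_zero (f : ℕ → Bool) (l : List ℕ) : ∀ a : Bool, (∀ i ∈ l, f i = false) →
    l.foldl (fun acc i => xor acc (f i)) a = a := by
  induction l with
  | nil => intro a _; rfl
  | cons i l ih =>
    intro a h
    simp only [List.foldl_cons]
    rw [h i List.mem_cons_self, Bool.xor_false]
    exact ih a (fun j hj => h j (List.mem_cons_of_mem _ hj))

theorem Gauss_fold_one (f : ℕ → Bool) (k : ℕ) (l : List ℕ) : ∀ a : Bool, l.Nodup → k ∈ l →
    (∀ i ∈ l, i ≠ k → f i = false) → l.foldl (fun acc i => xor acc (f i)) a = xor a (f k) := by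
  induction l with
  | nil => intro a _ h; simp at h
  | cons i l ih =>
    intro a hn hk h
    simp only [List.foldl_cons]
    by_cases hik : i = k
    · subst hik
      refine Gauss_fold_zero f l _ ?_
      intro j hj
      refine h j (List.mem_cons_of_mem _ hj) ?_
      rintro rfl
      exact (List.nodup_cons.mp hn).1 hj
    · rw [h i List.mem_cons_self hik, Bool.xor_false]
      refine ih a (List.nodup_cons.mp hn).2 ?_ (fun j hj => h j (List.mem_cons_of_mem _ hj))
      rcases List.mem_cons.mp hk with h1 | h1
      · exact absurd h1.symm hik
      · exact h1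

theorem Gauss_getD {e p : List Bool} (h : e.length = p.length) (i : ℕ) :
    (List.zipWith xor e p).getD i false = xor (e.getD i false) (p.getD i false) := by
  by_cases hi : i < e.length
  · have hi' : i < p.length := h ▸ hi
    have hz : i < (List.zipWith xor e p).length := by
      rw [List.length_zipWith]; omega
    rw [List.getD_eq_getElem _ _ hz, List.getD_eq_getElem _ _ hi, List.getD_eq_getElem _ _ hi',
      List.getElem_zipWith]
  · have hi' : ¬ i < p.length := h ▸ hi
    have hz : ¬ i < (List.zipWith xor e p).length := by
      rw [List.length_zipWith]; omega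
    rw [List.getD_eq_default _ _ (not_lt.mp hz), List.getD_eq_default _ _ (not_lt.mp hi),
      List.getD_eq_default _ _ (not_lt.mp hi')]
    rfl

theorem Gauss_eval_zip {m : ℕ} {e p : List Bool} (h : e.length = p.length) (x : List Bool) :
    evalEq m x (List.zipWith xor e p) = xor (evalEq m x e) (evalEq m x p) := by
  unfold evalEq
  rw [← Gauss_fold (fun i => (e.getD i false) && (x.getD i false)) (fun i => (p.getD i false) && (x.getD i false)),
    Gauss_getD h m]
  congr 1
  funext acc i
  rw [Gauss_getD h i]
  cases e.getD i false <;> cases p.getD i false <;> cases x.getD i false <;> rfl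

/-- reduction of `e` by the pivot equation `p` -/
def Gauss_red (i : ℕ) (p e : List Bool) : List Bool := if e.getD i false then List.zipWith xor e p else e

theorem Gauss_red_length {m i : ℕ} {p e : List Bool} (hp : p.length = m + 1) (he : e.length = m + 1) :
    (Gauss_red i p e).length = m + 1 := by
  unfold Gauss_red
  split
  · rw [List.length_zipWith]; omega
  · exact he

theorem Gauss_red_eval {m i : ℕ} {p e : List Bool} (h : e.length = p.length) {x : List Bool}
    (hp : evalEq m x p = false) : evalEq m x (Gauss_red i p e) = evalEq m x e := by
  unfold Gauss_red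
  split
  · rw [Gauss_eval_zip h, hp, Bool.xor_false]
  · rfl

theorem Gauss_red_pivot {i : ℕ} {p e : List Bool} (h : e.length = p.length) (hp : p.getD i false = true) :
    (Gauss_red i p e).getD i false = false := by
  unfold Gauss_red
  split
  next h1 => rw [Gauss_getD h, h1, hp]; rfl
  next h1 => simpa using h1

theorem Gauss_red_other {i j : ℕ} {p e : List Bool} (h : e.length = p.length) (hp : p.getD j false = false) :
    (Gauss_red i p e).getD j false = e.getD j false := by
  unfold Gauss_red
  split
  · rw [Gauss_getD h, hp, Bool.xor_false]
  · rfl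

theorem Gauss_step_none {i : ℕ} {st : List (List Bool) × List (ℕ × List Bool)}
    (h : st.1.find? (fun e => e.getD i false) = none) : gaussStep i st = st := by
  unfold gaussStep
  rw [h]

theorem Gauss_step_some {i : ℕ} {st : List (List Bool) × List (ℕ × List Bool)} {p : List Bool}
    (h : st.1.find? (fun e => e.getD i false) = some p) : gaussStep i st =
      ((st.1.erase p).map (Gauss_red i p), (i, p) :: st.2.map (fun q => (q.1, Gauss_red i p q.2))) := by
  unfold gaussStep
  rw [h]
  rfl

/-- the invariant of the elimination after the steps `0..k-1` -/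
structure Gauss_inv (m : ℕ) (E : List (List Bool)) (k : ℕ) (st : List (List Bool) × List (ℕ × List Bool)) : Prop where
  lenT : ∀ e ∈ st.1, e.length = m + 1
  lenD : ∀ q ∈ st.2, q.2.length = m + 1
  zero : ∀ e ∈ st.1, ∀ i < k, e.getD i false = false
  piv : ∀ q ∈ st.2, q.1 < k ∧ q.2.getD q.1 false = true
  off : ∀ q ∈ st.2, ∀ q' ∈ st.2, q.1 ≠ q'.1 → q.2.getD q'.1 false = false
  uniq : ∀ q ∈ st.2, ∀ q' ∈ st.2, q.1 = q'.1 → q.2 = q'.2
  sol : ∀ x, (∀ e ∈ E, evalEq m x e = false) ↔
    (∀ e ∈ st.1, evalEq m x e = false) ∧ ∀ q ∈ st.2, evalEq m x q.2 = false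

theorem Gauss_inv_step {m : ℕ} {E : List (List Bool)} {k : ℕ} {st : List (List Bool) × List (ℕ × List Bool)}
    (h : Gauss_inv m E k st) : Gauss_inv m E (k + 1) (gaussStep k st) := by
  cases hf : st.1.find? (fun e => e.getD k false) with
  | none =>
    rw [Gauss_step_none hf]
    have h1 := List.find?_eq_none.mp hf
    refine ⟨h.lenT, h.lenD, ?_, fun q hq => ⟨Nat.lt_succ_of_lt (h.piv q hq).1, (h.piv q hq).2⟩, h.off, h.uniq, h.sol⟩
    intro e he i hi
    rcases Nat.lt_succ_iff_lt_or_eq.mp hi with h2 | h2
    · exact h.zero e he i h2
    · subst h2
      simpa using h1 e he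
  | some p =>
    rw [Gauss_step_some hf]
    have hpT : p ∈ st.1 := List.mem_of_find?_eq_some hf
    have hpk : p.getD k false = true := by simpa using List.find?_some hf
    have hpl := h.lenT p hpT
    have hT : ∀ e ∈ (st.1.erase p).map (Gauss_red k p), ∃ e' ∈ st.1, e = Gauss_red k p e' := by
      intro e he
      obtain ⟨e', h1, h2⟩ := List.mem_map.mp he
      exact ⟨e', List.mem_of_mem_erase h1, h2.symm⟩
    have hD : ∀ q ∈ (k, p) :: st.2.map (fun q => (q.1, Gauss_red k p q.2)),
        q = (k, p) ∨ ∃ q' ∈ st.2, q = (q'.1, Gauss_red k p q'.2) := by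
      intro q hq
      rcases List.mem_cons.mp hq with h1 | h1
      · exact Or.inl h1
      · obtain ⟨q', h2, h3⟩ := List.mem_map.mp h1
        exact Or.inr ⟨q', h2, h3.symm⟩
    refine ⟨?_, ?_, ?_, ?_, ?_, ?_, ?_⟩
    · intro e he
      obtain ⟨e', h1, rfl⟩ := hT e he
      exact Gauss_red_length hpl (h.lenT e' h1)
    · intro q hq
      rcases hD q hq with rfl | ⟨q', h1, rfl⟩
      · exact hpl
      · exact Gauss_red_length hpl (h.lenD q' h1)
    · intro e he i hi
      obtain ⟨e', h1, rfl⟩ := hT e he
      have hl : e'.length = p.length := (h.lenT e' h1).trans hpl.symm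
      rcases Nat.lt_succ_iff_lt_or_eq.mp hi with h2 | h2
      · rw [Gauss_red_other hl (h.zero p hpT i h2)]
        exact h.zero e' h1 i h2
      · subst h2
        exact Gauss_red_pivot hl hpk
    · intro q hq
      rcases hD q hq with rfl | ⟨q', h1, rfl⟩
      · exact ⟨Nat.lt_succ_self k, hpk⟩
      · have hl : q'.2.length = p.length := (h.lenD q' h1).trans hpl.symm
        refine ⟨Nat.lt_succ_of_lt (h.piv q' h1).1, ?_⟩
        show (Gauss_red k p q'.2).getD q'.1 false = true
        rw [Gauss_red_other hl (h.zero p hpT _ (h.piv q' h1).1)]
        exact (h.piv q' h1).2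
    · intro q hq r hr hqr
      rcases hD q hq with rfl | ⟨q', h1, rfl⟩
      · rcases hD r hr with rfl | ⟨r', h2, rfl⟩
        · exact absurd rfl hqr
        · exact h.zero p hpT _ (h.piv r' h2).1
      · have hl : q'.2.length = p.length := (h.lenD q' h1).trans hpl.symm
        rcases hD r hr with rfl | ⟨r', h2, rfl⟩
        · exact Gauss_red_pivot hl hpk
        · show (Gauss_red k p q'.2).getD r'.1 false = false
          rw [Gauss_red_other hl (h.zero p hpT _ (h.piv r' h2).1)]
          exact h.off q' h1 r' h2 hqr
    · intro q hq r hr hqr
      rcases hD q hq with rfl | ⟨q', h1, rfl⟩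
      · rcases hD r hr with rfl | ⟨r', h2, rfl⟩
        · rfl
        · exact absurd hqr (ne_of_gt (h.piv r' h2).1)
      · rcases hD r hr with rfl | ⟨r', h2, rfl⟩
        · exact absurd hqr (ne_of_lt (h.piv q' h1).1)
        · show Gauss_red k p q'.2 = Gauss_red k p r'.2
          rw [h.uniq q' h1 r' h2 hqr]
    · intro x
      rw [h.sol x]
      constructor
      · rintro ⟨h1, h2⟩
        have hp0 := h1 p hpT
        refine ⟨?_, ?_⟩
        · intro e he
          obtain ⟨e', h3, rfl⟩ := hT e he
          rw [Gauss_red_eval ((h.lenT e' h3).trans hpl.symm) hp0]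
          exact h1 e' h3
        · intro q hq
          rcases hD q hq with rfl | ⟨q', h3, rfl⟩
          · exact hp0
          · show evalEq m x (Gauss_red k p q'.2) = false
            rw [Gauss_red_eval ((h.lenD q' h3).trans hpl.symm) hp0]
            exact h2 q' h3
      · rintro ⟨h1, h2⟩
        have hp0 : evalEq m x p = false := h2 (k, p) List.mem_cons_self
        refine ⟨?_, ?_⟩
        · intro e he
          by_cases hep : e = p
          · rw [hep]; exact hp0
          · have h3 := h1 (Gauss_red k p e) (List.mem_map.mpr ⟨e, (List.mem_erase_of_ne hep).mpr he, rfl⟩)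
            rwa [Gauss_red_eval ((h.lenT e he).trans hpl.symm) hp0] at h3
        · intro q hq
          have h3 := h2 (q.1, Gauss_red k p q.2) (List.mem_cons_of_mem _ (List.mem_map.mpr ⟨q, hq, rfl⟩))
          have h4 : evalEq m x (Gauss_red k p q.2) = false := h3
          rwa [Gauss_red_eval ((h.lenD q hq).trans hpl.symm) hp0] at h4

theorem Gauss_inv_all {m : ℕ} {E : List (List Bool)} (hE : ∀ e ∈ E, e.length = m + 1) (k : ℕ) :
    Gauss_inv m E k ((List.range k).foldl (fun st i => gaussStep i st) (E, [])) := by
  induction k with
  | zero =>
    refine ⟨hE, ?_, ?_, ?_, ?_, ?_, ?_⟩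
    · intro q hq; simp at hq
    · intro e _ i hi; omega
    · intro q hq; simp at hq
    · intro q hq; simp at hq
    · intro q hq; simp at hq
    · intro x
      constructor
      · intro h
        exact ⟨h, fun q hq => by simp at hq⟩
      · rintro ⟨h, _⟩
        exact h
  | succ k ih =>
    rw [List.range_succ, List.foldl_append]
    exact Gauss_inv_step ih

theorem Gauss_eval_zero {m : ℕ} {e : List Bool} (h : ∀ i < m, e.getD i false = false) (x : List Bool) :
    evalEq m x e = e.getD m false := by
  unfold evalEq
  refine Gauss_fold_zero _ _ _ ?_
  intro i hi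
  rw [h i (List.mem_range.mp hi)]
  rfl

theorem gauss_none {m : ℕ} {E : List (List Bool)} (hE : ∀ e ∈ E, e.length = m + 1)
    (h : gauss m E = none) : ∀ x : List Bool, ∃ e ∈ E, evalEq m x e = true := by
  intro x
  have hI := Gauss_inv_all hE m
  unfold gauss at h
  simp only at h
  split at h
  next h1 =>
    rw [List.any_eq_true] at h1
    obtain ⟨e, he, h2⟩ := h1
    by_contra hcon
    push Not at hcon
    have h3 : ∀ e ∈ E, evalEq m x e = false := fun e he => by
      have := hcon e he
      simpa using this
    have h4 := ((hI.sol x).mp h3).1 e he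
    rw [Gauss_eval_zero (hI.zero e he) x] at h4
    rw [h4] at h2
    exact absurd h2 (by simp)
  next h1 => exact absurd h (by simp)

theorem gauss_some {m : ℕ} {E : List (List Bool)} (hE : ∀ e ∈ E, e.length = m + 1)
    {x : List Bool} (h : gauss m E = some x) : ∀ e ∈ E, evalEq m x e = false := by
  have hI := Gauss_inv_all hE m
  unfold gauss at h
  simp only at h
  split at h
  next h1 => exact absurd h (by simp)
  next h1 =>
    set st := (List.range m).foldl (fun st i => gaussStep i st) (E, []) with hst
    have hx : x = (List.range m).map (fun i => st.2.any (fun q => decide (q.1 = i) && q.2.getD m false)) :=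
      (Option.some.inj h).symm
    have hxi : ∀ i < m, x.getD i false = st.2.any (fun q => decide (q.1 = i) && q.2.getD m false) := by
      intro i hi
      rw [hx, List.getD_eq_getElem _ _ (by simpa using hi)]
      simp
    refine (hI.sol x).mpr ⟨?_, ?_⟩
    · intro e he
      rw [Gauss_eval_zero (hI.zero e he) x]
      by_contra h2
      apply h1
      rw [List.any_eq_true]
      exact ⟨e, he, by simpa using h2⟩
    · intro q hq
      obtain ⟨hq1, hq2⟩ := hI.piv q hq
      unfold evalEq
      have hval : x.getD q.1 false = q.2.getD m false := by
        rw [hxi _ hq1]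
        cases hb : q.2.getD m false with
        | false =>
          rw [List.any_eq_false]
          intro r hr
          by_cases hrq : r.1 = q.1
          · rw [hI.uniq r hr q hq hrq, hb]; simp
          · simp [hrq]
        | true =>
          rw [List.any_eq_true]
          exact ⟨q, hq, by rw [hb]; simp⟩
      rw [Gauss_fold_one (fun i => (q.2.getD i false) && (x.getD i false)) q.1 _ _ List.nodup_range
        (List.mem_range.mpr hq1)]
      · rw [hq2, hval]
        cases q.2.getD m false <;> rfl
      · intro i hi hiq
        have hi' := List.mem_range.mp hi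
        show ((q.2.getD i false) && (x.getD i false)) = false
        by_cases hpv : ∃ r ∈ st.2, r.1 = i
        · obtain ⟨r, hr, hri⟩ := hpv
          have h5 := hI.off q hq r hr (by rw [hri]; exact fun h => hiq h.symm)
          rw [hri] at h5
          rw [h5]; rfl
        · have h6 : x.getD i false = false := by
            rw [hxi i hi', List.any_eq_false]
            intro r hr
            have : r.1 ≠ i := fun h7 => hpv ⟨r, hr, h7⟩
            simp [this]
          rw [h6, Bool.and_false]

end Pool.Agent.SOC
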