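import Pool.Agent.SOC.ModOrder
import Pool.Agent.SOC.Gauss

/-! Project SOC, module Algo: the algorithm. The input is a matrix of booleans (list of rows). -/

set_option autoImplicit false

namespace Pool.Agent.SOC

/-- adjacency of `i` and `j` read from the matrix -/
def adjB (M : List (List Bool)) (i j : ℕ) : Bool :=
  decide (i ≠ j) && ((M.getD i []).getD j false || (M.getD j []).getD i false)

/-- the graph on `0, ..., M.length - 1` given by the matrix `M` -/
def graphOf (M : List (List Bool)) : SimpleGraph (Fin M.length) where
  Adj i j := adjB M i j = true
  symm := ⟨by
    intro i j h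
    unfold adjB at h ⊢
    simp only [Bool.and_eq_true, decide_eq_true_eq, Bool.or_eq_true] at h ⊢
    exact ⟨fun e => h.1 e.symm, h.2.symm⟩⟩
  loopless := ⟨by
    intro i h
    unfold adjB at h
    simp at h⟩

/-- rigid pairs -/
def rigidB (M : List (List Bool)) (a b c d : ℕ) : Bool :=
  adjB M a b && adjB M c d && decide (a ≠ c) && decide (a ≠ d) && decide (b ≠ c) &&
    decide (b ≠ d) && !(adjB M a c && adjB M b d) && !(adjB M a d && adjB M b c)

/-- the index of the unknown of the pair `{x, y}` -/
def pidx (n x y : ℕ) : ℕ := if x < y then x * n + y else y * n + x

/-- the linear equation of the pair of edges `ab`, `cd` -/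
def eqOf (n a b c d : ℕ) : List Bool :=
  (List.range (n * n)).map (fun i => decide (i = pidx n a c) || decide (i = pidx n a d) ||
    decide (i = pidx n b c) || decide (i = pidx n b d)) ++
  [xor (xor (decide (c < a)) (decide (d < a))) (xor (decide (c < b)) (decide (d < b)))]

/-- the linear system of the graph -/
def system (M : List (List Bool)) : List (List Bool) :=
  (List.range M.length).flatMap fun a => (List.range M.length).flatMap fun b =>
    (List.range M.length).flatMap fun c => (List.range M.length).flatMap fun d =>
      if rigidB M a b c d then [eqOf M.length a b c d] else []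

/-- the order function given by a solution `x` -/
def wB (n : ℕ) (x : List Bool) (i j : ℕ) : Bool :=
  if i < j then x.getD (i * n + j) false else !(x.getD (j * n + i) false)

/-- the tournament normalised at `0` -/
def tourB (n : ℕ) (x : List Bool) (i j : ℕ) : Bool :=
  xor (wB n x i j) (xor (wB n x 0 i) (wB n x 0 j))

/-- the cyclic order given by a solution -/
def orderOf (n : ℕ) (x : List Bool) : List ℕ :=
  if n = 0 then [] else 0 :: modOrder (tourB n x) ((List.range n).tail)

/-- **the algorithm**: `none` if the linear system has no solution, otherwise a cyclic order -/
def outerOrder (M : List (List Bool)) : Option (List ℕ) :=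
  (gauss (M.length * M.length) (system M)).map (orderOf M.length)

end Pool.Agent.SOC
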