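import Pool.Agent.SOC.Strong
import Pool.Agent.SOC.Orders

/-! Project SOC, module Unique: without nontrivial P-cuts the order is unique up to rotation and reversal. -/

set_option autoImplicit false

namespace Pool.Agent.SOC

variable {V : Type*}

theorem const_or_pcut [Finite V] {G : SimpleGraph V} (hG : G.Preconnected)
    {w : V → V → ZMod 2} (hw : Skew 0 w) (hs : IsSol G w) (v : V) :
    (∃ c, ∀ x y, x ≠ v → y ≠ v → x ≠ y → nrm w v x y = c) ∨
    ∃ X : Set V, Nontriv X ∧ IsPCut G X := by
  by_cases hr : ∃ a b c d, Rigid G a b c d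
  · obtain ⟨a, b, c, d, h⟩ := hr
    obtain ⟨X, h1, h2, h3, h4, h5⟩ := thmA hG hs h
    have hex : ∃ X : Set V, Nontriv X ∧ IsSplit w X :=
      ⟨X, ⟨⟨a, h1, b, h2, h.ab.ne⟩, ⟨c, h3, d, h4, h.cd.ne⟩⟩, h5⟩
    rcases strong_or_const hw v hex with h' | ⟨Y, h6, _, h7⟩
    · exact Or.inl h'
    · exact Or.inr ⟨Y, h6, pcut_of_strong hG hs h7⟩
  · push Not at hr
    by_cases hn : ∃ X : Set V, Nontriv X
    · obtain ⟨X, hX⟩ := hn
      exact Or.inr ⟨X, hX, fun x _ x' _ y _ y' _ => hr x y x' y'⟩
    · left
      by_cases hxy : ∃ x y, x ≠ v ∧ y ≠ v ∧ x ≠ y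
      · obtain ⟨x, y, hx, hy, hne⟩ := hxy
        refine ⟨nrm w v x y, ?_⟩
        have hmem : ∀ z, z ≠ v → z = x ∨ z = y := by
          intro z hz
          by_contra hc
          push Not at hc
          refine hn ⟨{x, y}, ⟨x, by simp, y, by simp, hne⟩, v, ?_, z, ?_, hz.symm⟩
          · simp [hx.symm, hy.symm]
          · simp [hc.1, hc.2]
        intro p q hp hq hpq
        rcases hmem p hp with rfl | rfl <;> rcases hmem q hq with rfl | rfl
        · exact absurd rfl hpq
        · rfl
        · exact nrm_symm hw hpq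
        · exact absurd rfl hpq
      · push Not at hxy
        exact ⟨0, fun x y hx hy hne => absurd (hxy x y hx hy) hne⟩

section Lists

variable [DecidableEq V]

theorem isEnum_rot {p q : List V} (h : IsEnum (p ++ q)) : IsEnum (q ++ p) := by
  have hp : (p ++ q).Perm (q ++ p) := List.perm_append_comm
  exact ⟨hp.nodup_iff.1 h.1, fun v => hp.mem_iff.1 (h.2 v)⟩

theorem ordFn_rot {p q : List V} (h : IsEnum (p ++ q)) {x y : V} (hxy : x ≠ y) :
    ordFn (q ++ p) x y = ordFn (p ++ q) x y + ((if x ∈ p then 1 else 0) +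
      (if y ∈ p then 1 else 0)) := by
  have hd : ∀ z, z ∈ p → z ∉ q := fun z h1 h2 => (List.nodup_append.1 h.1).2.2 z h1 z h2 rfl
  have hq : ∀ z, z ∉ p → z ∈ q := fun z h1 => (List.mem_append.1 (h.2 z)).resolve_left h1
  have hlt : ∀ z, z ∈ p → p.idxOf z < p.length := fun z hz => List.idxOf_lt_length_iff.2 hz
  have hlt' : ∀ z, z ∈ q → q.idxOf z < q.length := fun z hz => List.idxOf_lt_length_iff.2 hz
  unfold ordFn
  by_cases hx : x ∈ p <;> by_cases hy : y ∈ p
  · rw [List.idxOf_append_of_mem hx, List.idxOf_append_of_mem hy,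
      List.idxOf_append_of_notMem (hd x hx), List.idxOf_append_of_notMem (hd y hy)]
    simp only [hx, hy, if_true, add_lt_add_iff_left]
    have : (1 : ZMod 2) + 1 = 0 := by decide
    rw [this, add_zero]
  · have hyq := hq y hy
    rw [List.idxOf_append_of_mem hx, List.idxOf_append_of_notMem hy,
      List.idxOf_append_of_notMem (hd x hx), List.idxOf_append_of_mem hyq]
    have h1 := hlt x hx
    have h2 := hlt' y hyq
    rw [if_neg (by omega), if_pos (by omega), if_pos hx, if_neg hy]
    decide
  · have hxq := hq x hx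
    rw [List.idxOf_append_of_notMem hx, List.idxOf_append_of_mem hy,
      List.idxOf_append_of_mem hxq, List.idxOf_append_of_notMem (hd y hy)]
    have h1 := hlt y hy
    have h2 := hlt' x hxq
    rw [if_pos (by omega), if_neg (by omega), if_neg hx, if_pos hy]
    decide
  · have hxq := hq x hx
    have hyq := hq y hy
    rw [List.idxOf_append_of_notMem hx, List.idxOf_append_of_notMem hy,
      List.idxOf_append_of_mem hxq, List.idxOf_append_of_mem hyq]
    simp only [hx, hy, if_false, add_lt_add_iff_left, add_zero]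

theorem isWO_rot {G : SimpleGraph V} {p q : List V} (h : IsEnum (p ++ q)) (hG : IsWO G (p ++ q)) :
    IsWO G (q ++ p) := by
  rw [isWO_iff (isEnum_rot h)]
  rw [isWO_iff h] at hG
  intro a b c d hr
  have := hG a b c d hr
  unfold sep at this ⊢
  rw [ordFn_rot h hr.ac, ordFn_rot h hr.ad, ordFn_rot h hr.bc, ordFn_rot h hr.bd]
  have t1 := zadd_self (if a ∈ p then (1 : ZMod 2) else 0)
  have t2 := zadd_self (if b ∈ p then (1 : ZMod 2) else 0)
  have t3 := zadd_self (if c ∈ p then (1 : ZMod 2) else 0)
  have t4 := zadd_self (if d ∈ p then (1 : ZMod 2) else 0)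
  linear_combination this + t1 + t2 + t3 + t4

theorem isEnum_reverse {s : List V} (h : IsEnum s) : IsEnum s.reverse :=
  ⟨List.nodup_reverse.2 h.1, fun v => List.mem_reverse.2 (h.2 v)⟩

theorem pairwise_idx {l : List V} (h : l.Nodup) :
    l.Pairwise (fun x y => l.idxOf x < l.idxOf y) := by
  rw [List.pairwise_iff_getElem]
  intro i j hi hj hij
  rw [h.idxOf_getElem, h.idxOf_getElem]
  exact hij

/-- two lists with the same elements and the same order are equal -/
theorem list_eq_of_idx {l l' : List V} (h : l.Nodup) (h' : l'.Nodup) (hm : ∀ x, x ∈ l ↔ x ∈ l')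
    (hi : ∀ x ∈ l, ∀ y ∈ l, x ≠ y → l'.idxOf x < l'.idxOf y → l.idxOf x < l.idxOf y) :
    l = l' := by
  refine List.Perm.eq_of_pairwise (le := fun x y => l.idxOf x < l.idxOf y)
    (fun a b _ _ h1 h2 => absurd h1 (by omega)) (pairwise_idx h) ?_
    ((List.perm_ext_iff_of_nodup h h').2 hm)
  refine (pairwise_idx h').imp_of_mem ?_
  intro x y hx hy hlt
  exact hi x ((hm x).2 hx) y ((hm y).2 hy) (fun e => by rw [e] at hlt; omega) hlt

theorem idx_reverse {l : List V} (h : l.Nodup) {x y : V} (hx : x ∈ l) (hy : y ∈ l)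
    (hlt : l.reverse.idxOf x < l.reverse.idxOf y) : l.idxOf y < l.idxOf x := by
  have hp := pairwise_idx h
  by_contra hc
  have hne : x ≠ y := fun e => by rw [e] at hlt; omega
  have hne' : l.idxOf x ≠ l.idxOf y := fun e => hne ((List.idxOf_inj hx).1 e)
  have h1 : l.idxOf x < l.idxOf y := by omega
  -- the reversed list is pairwise for the reversed relation
  have hp' : l.reverse.Pairwise (fun a b => l.idxOf b < l.idxOf a) := List.pairwise_reverse.2 hp
  rw [List.pairwise_iff_getElem] at hp'
  have hx' : x ∈ l.reverse := List.mem_reverse.2 hx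
  have hy' : y ∈ l.reverse := List.mem_reverse.2 hy
  have h2 := hp' (l.reverse.idxOf x) (l.reverse.idxOf y) (List.idxOf_lt_length_iff.2 hx')
    (List.idxOf_lt_length_iff.2 hy') hlt
  rw [List.getElem_idxOf, List.getElem_idxOf] at h2
  omega

/-- comparison of two enumerations with the same first element -/
theorem lists_of_const {v : V} {l l' : List V} (hs : IsEnum (v :: l)) (hs' : IsEnum (v :: l'))
    {c : ZMod 2} (h : ∀ x y, x ≠ v → y ≠ v → x ≠ y →
      nrm (fun x y => ordFn (v :: l) x y + ordFn (v :: l') x y) v x y = c) :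
    l' = l ∨ l' = l.reverse := by
  have hvl : v ∉ l := (List.nodup_cons.1 hs.1).1
  have hvl' : v ∉ l' := (List.nodup_cons.1 hs'.1).1
  have hn : l.Nodup := (List.nodup_cons.1 hs.1).2
  have hn' : l'.Nodup := (List.nodup_cons.1 hs'.1).2
  have hml : ∀ x, x ∈ l ↔ x ≠ v := fun x => ⟨fun hx e => hvl (e ▸ hx), fun hx => by
    rcases List.mem_cons.1 (hs.2 x) with h1 | h1
    · exact absurd h1 hx
    · exact h1⟩
  have hml' : ∀ x, x ∈ l' ↔ x ≠ v := fun x => ⟨fun hx e => hvl' (e ▸ hx), fun hx => by
    rcases List.mem_cons.1 (hs'.2 x) with h1 | h1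
    · exact absurd h1 hx
    · exact h1⟩
  -- the order functions
  have e1 : ∀ (m : List V), ∀ x, x ≠ v → ordFn (v :: m) v x = 1 := by
    intro m x hx
    unfold ordFn
    rw [List.idxOf_cons_self, List.idxOf_cons_ne _ hx.symm]
    simp
  have e2 : ∀ (m : List V), ∀ x y, x ≠ v → y ≠ v →
      ordFn (v :: m) x y = if m.idxOf x < m.idxOf y then 1 else 0 := by
    intro m x y hx hy
    unfold ordFn
    rw [List.idxOf_cons_ne _ hx.symm, List.idxOf_cons_ne _ hy.symm]
    simp
  have key : ∀ x y, x ≠ v → y ≠ v → x ≠ y →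
      (if l.idxOf x < l.idxOf y then (1 : ZMod 2) else 0) +
      (if l'.idxOf x < l'.idxOf y then 1 else 0) = c := by
    intro x y hx hy hxy
    have := h x y hx hy hxy
    unfold nrm at this
    beta_reduce at this
    rw [e1 l x hx, e1 l y hy, e1 l' x hx, e1 l' y hy, e2 l x y hx hy, e2 l' x y hx hy] at this
    have t : (1 : ZMod 2) + 1 = 0 := by decide
    rw [t, add_zero, add_zero] at this
    exact this
  rcases zmod2_cases c with hc | hc
  · left
    symm
    refine list_eq_of_idx hn hn' (fun x => by rw [hml, hml']) ?_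
    intro x hx y hy hxy hlt
    have := key x y ((hml x).1 hx) ((hml y).1 hy) hxy
    rw [if_pos hlt, hc] at this
    by_contra hcon
    rw [if_neg hcon] at this
    revert this; decide
  · right
    symm
    refine list_eq_of_idx (List.nodup_reverse.2 hn) hn'
      (fun x => by rw [List.mem_reverse, hml, hml']) ?_
    intro x hx y hy hxy hlt
    rw [List.mem_reverse] at hx hy
    have := key x y ((hml x).1 hx) ((hml y).1 hy) hxy
    rw [if_pos hlt, hc] at this
    by_contra hcon
    have hne : l.reverse.idxOf x ≠ l.reverse.idxOf y := fun e =>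
      hxy ((List.idxOf_inj (List.mem_reverse.2 hx)).1 e)
    have h3 := idx_reverse hn hy hx (by omega : l.reverse.idxOf y < l.reverse.idxOf x)
    rw [if_pos h3] at this
    revert this; decide

/-- **Uniqueness.** -/
theorem unique_order [Finite V] {G : SimpleGraph V} (hG : G.Preconnected)
    (hP : ∀ X : Set V, Nontriv X → ¬ IsPCut G X) {s s' : List V} (hs : IsEnum s)
    (hs' : IsEnum s') (h : IsWO G s) (h' : IsWO G s') : s' ~r s ∨ s' ~r s.reverse := by
  cases s with
  | nil =>
    left
    cases s' with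
    | nil => exact List.IsRotated.refl _
    | cons v l => exact absurd (hs.2 v) (by simp)
  | cons v l =>
    obtain ⟨p, q, rfl⟩ := List.append_of_mem (hs'.2 v)
    have hs2 : IsEnum ((v :: q) ++ p) := isEnum_rot hs'
    have h2 : IsWO G ((v :: q) ++ p) := isWO_rot hs' h'
    have hrot : (p ++ v :: q) ~r ((v :: q) ++ p) := ⟨p.length, List.rotate_append_length_eq _ _⟩
    rw [List.cons_append] at hs2 h2 hrot
    have hw : Skew 0 (fun x y => ordFn (v :: l) x y + ordFn (v :: (q ++ p)) x y) := by
      intro x y hxy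
      have e1 := ordFn_skew hs x y hxy
      have e2 := ordFn_skew hs2 x y hxy
      have t : (1 : ZMod 2) + 1 = 0 := by decide
      linear_combination e1 + e2 + t
    have hsol : IsSol G (fun x y => ordFn (v :: l) x y + ordFn (v :: (q ++ p)) x y) := by
      intro a b c d hr
      have e1 := (isWO_iff hs).1 h a b c d hr
      have e2 := (isWO_iff hs2).1 h2 a b c d hr
      unfold sep at e1 e2 ⊢
      linear_combination e1 + e2
    rcases const_or_pcut hG hw hsol v with ⟨c, hc⟩ | ⟨X, hX1, hX2⟩
    · rcases lists_of_const hs hs2 hc with e | e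
      · left
        rw [← e]
        exact hrot
      · right
        refine hrot.trans ?_
        rw [e, List.reverse_cons]
        exact ⟨1, by simp⟩
    · exact absurd hX2 (hP X hX1)

end Lists

end Pool.Agent.SOC
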