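import Pool.Agent.SOC.Algo
import Pool.Agent.SOC.Unique

/-! Project SOC, module AlgoCorrect: correctness of the algorithm. -/

set_option autoImplicit false

namespace Pool.Agent.SOC

/-- booleans as elements of `F_2` -/
def bz (b : Bool) : ZMod 2 := if b then 1 else 0

theorem bz_xor (a b : Bool) : bz (xor a b) = bz a + bz b := by
  revert a b; decide

theorem bz_not (a : Bool) : bz (!a) = bz a + 1 := by
  revert a; decide

theorem bz_eq_zero {a : Bool} : bz a = 0 ↔ a = false := by
  revert a; decide

theorem bz_eq_one {a : Bool} : bz a = 1 ↔ a = true := by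
  revert a; decide

theorem bz_inj {a b : Bool} : bz a = bz b ↔ a = b := by
  revert a b; decide

theorem bz_foldl (m : ℕ) (x e : List Bool) (acc : Bool) :
    bz ((List.range m).foldl (fun acc i => xor acc ((e.getD i false) && (x.getD i false))) acc) =
      bz acc + ∑ i ∈ Finset.range m, bz ((e.getD i false) && (x.getD i false)) := by
  induction m with
  | zero => simp
  | succ m ih =>
    rw [List.range_succ, List.foldl_append, Finset.sum_range_succ]
    simp only [List.foldl_cons, List.foldl_nil]
    rw [bz_xor, ih, add_assoc]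

theorem pidx_inj {n x y x' y' : ℕ} (hx : x < n) (hy : y < n) (hx' : x' < n) (hy' : y' < n)
    (h : pidx n x y = pidx n x' y') : (x = x' ∧ y = y') ∨ (x = y' ∧ y = x') := by
  have key : ∀ u v u' v' : ℕ, v < n → v' < n → u * n + v = u' * n + v' → u = u' ∧ v = v' := by
    intro u v u' v' hv hv' h
    have hn : 0 < n := by omega
    have h1 : (u * n + v) / n = u := by
      rw [mul_comm, Nat.mul_add_div hn, Nat.div_eq_of_lt hv, add_zero]
    have h2 : (u' * n + v') / n = u' := by
      rw [mul_comm, Nat.mul_add_div hn, Nat.div_eq_of_lt hv', add_zero]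
    have h3 : u = u' := by rw [← h1, ← h2, h]
    subst h3
    exact ⟨rfl, by omega⟩
  unfold pidx at h
  split_ifs at h
  · exact Or.inl (key _ _ _ _ hy hy' h)
  · obtain ⟨h1, h2⟩ := key _ _ _ _ hy hx' h
    exact Or.inr ⟨h1, h2⟩
  · obtain ⟨h1, h2⟩ := key _ _ _ _ hx hy' h
    exact Or.inr ⟨h2, h1⟩
  · obtain ⟨h1, h2⟩ := key _ _ _ _ hx hx' h
    exact Or.inl ⟨h2, h1⟩

theorem pidx_lt {n x y : ℕ} (hx : x < n) (hy : y < n) : pidx n x y < n * n := by
  have key : ∀ u v : ℕ, u < n → v < n → u * n + v < n * n := by
    intro u v hu hv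
    calc u * n + v < u * n + n := by omega
      _ = (u + 1) * n := by ring
      _ ≤ n * n := Nat.mul_le_mul_right n hu
  unfold pidx
  split_ifs
  · exact key _ _ hx hy
  · exact key _ _ hy hx

theorem bz_wB {n i j : ℕ} (x : List Bool) (h : i ≠ j) :
    bz (wB n x i j) = bz (x.getD (pidx n i j) false) + bz (decide (j < i)) := by
  unfold wB pidx
  by_cases hij : i < j
  · rw [if_pos hij, if_pos hij]
    have : decide (j < i) = false := by simp; omega
    rw [this]; simp [bz]
  · rw [if_neg hij, if_neg hij, bz_not]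
    have : decide (j < i) = true := by simp; omega
    rw [this]; simp [bz]

theorem eqOf_length (n a b c d : ℕ) : (eqOf n a b c d).length = n * n + 1 := by
  unfold eqOf; simp

theorem bz_evalEq {n a b c d : ℕ} (x : List Bool) (ha : a < n) (hb : b < n) (hc : c < n)
    (hd : d < n) (hab : a ≠ b) (hcd : c ≠ d) (ac : a ≠ c) (ad : a ≠ d) (bc : b ≠ c)
    (bd : b ≠ d) :
    bz (evalEq (n * n) x (eqOf n a b c d)) =
      bz (wB n x a c) + bz (wB n x a d) + bz (wB n x b c) + bz (wB n x b d) := by
  unfold evalEq
  rw [bz_foldl]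
  have h1 : (eqOf n a b c d).getD (n * n) false =
      xor (xor (decide (c < a)) (decide (d < a))) (xor (decide (c < b)) (decide (d < b))) := by
    unfold eqOf
    rw [List.getD_append_right _ _ _ _ (by simp)]
    simp
  rw [h1]
  have h2 : ∀ i ∈ Finset.range (n * n), bz ((eqOf n a b c d).getD i false && x.getD i false) =
      if i ∈ ({pidx n a c, pidx n a d, pidx n b c, pidx n b d} : Finset ℕ) then
        bz (x.getD i false) else 0 := by
    intro i hi
    rw [Finset.mem_range] at hi
    have : (eqOf n a b c d).getD i false = decide (i ∈ ({pidx n a c, pidx n a d, pidx n b c,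
        pidx n b d} : Finset ℕ)) := by
      unfold eqOf
      rw [List.getD_append _ _ _ _ (by simpa using hi)]
      rw [List.getD_eq_getElem _ _ (by simpa using hi)]
      simp [Bool.or_assoc]
    rw [this]
    by_cases hm : i ∈ ({pidx n a c, pidx n a d, pidx n b c, pidx n b d} : Finset ℕ)
    · rw [if_pos hm, decide_eq_true hm, Bool.true_and]
    · rw [if_neg hm, decide_eq_false hm, Bool.false_and]; rfl
  rw [Finset.sum_congr rfl h2, Finset.sum_ite_mem]
  have h3 : Finset.range (n * n) ∩ ({pidx n a c, pidx n a d, pidx n b c, pidx n b d} : Finset ℕ) =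
      {pidx n a c, pidx n a d, pidx n b c, pidx n b d} := by
    apply Finset.inter_eq_right.2
    intro i hi
    rw [Finset.mem_range]
    simp only [Finset.mem_insert, Finset.mem_singleton] at hi
    rcases hi with rfl | rfl | rfl | rfl
    · exact pidx_lt ha hc
    · exact pidx_lt ha hd
    · exact pidx_lt hb hc
    · exact pidx_lt hb hd
  rw [h3]
  have n1 : pidx n a c ≠ pidx n a d := fun e => by
    rcases pidx_inj ha hc ha hd e with ⟨_, h⟩ | ⟨h, _⟩
    · exact hcd h
    · exact ad h
  have n2 : pidx n a c ≠ pidx n b c := fun e => by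
    rcases pidx_inj ha hc hb hc e with ⟨h, _⟩ | ⟨h, _⟩
    · exact hab h
    · exact ac h
  have n3 : pidx n a c ≠ pidx n b d := fun e => by
    rcases pidx_inj ha hc hb hd e with ⟨h, _⟩ | ⟨h, _⟩
    · exact hab h
    · exact ad h
  have n4 : pidx n a d ≠ pidx n b c := fun e => by
    rcases pidx_inj ha hd hb hc e with ⟨h, _⟩ | ⟨h, _⟩
    · exact hab h
    · exact ac h
  have n5 : pidx n a d ≠ pidx n b d := fun e => by
    rcases pidx_inj ha hd hb hd e with ⟨h, _⟩ | ⟨h, _⟩
    · exact hab h
    · exact ad h
  have n6 : pidx n b c ≠ pidx n b d := fun e => by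
    rcases pidx_inj hb hc hb hd e with ⟨_, h⟩ | ⟨h, _⟩
    · exact hcd h
    · exact bd h
  rw [Finset.sum_insert (by simp [n1, n2, n3]), Finset.sum_insert (by simp [n4, n5]),
    Finset.sum_insert (by simp [n6]), Finset.sum_singleton, bz_wB x ac, bz_wB x ad, bz_wB x bc,
    bz_wB x bd, bz_xor, bz_xor, bz_xor]
  ring

/-- the order function on `Fin n` given by a list of booleans -/
def wZ (n : ℕ) (x : List Bool) (i j : Fin n) : ZMod 2 := bz (wB n x i j)

theorem wB_skew {n i j : ℕ} (x : List Bool) (h : i ≠ j) : wB n x i j = !wB n x j i := by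
  unfold wB
  by_cases hij : i < j
  · rw [if_pos hij, if_neg (by omega), Bool.not_not]
  · rw [if_neg hij, if_pos (by omega)]

theorem wZ_skew (n : ℕ) (x : List Bool) : Skew 1 (wZ n x) := by
  intro i j h
  unfold wZ
  rw [wB_skew x (fun e => h (Fin.ext e)), bz_not]
  have := zadd_self (bz (wB n x j i))
  linear_combination this

theorem rigidB_iff {M : List (List Bool)} {a b c d : Fin M.length} :
    rigidB M a b c d = true ↔ Rigid (graphOf M) a b c d := by
  unfold rigidB
  simp only [Bool.and_eq_true, decide_eq_true_eq, Bool.not_eq_true', Bool.and_eq_false_iff]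
  constructor
  · rintro ⟨⟨⟨⟨⟨⟨⟨h1, h2⟩, h3⟩, h4⟩, h5⟩, h6⟩, h7⟩, h8⟩
    refine ⟨h1, h2, fun e => h3 (by rw [e]), fun e => h4 (by rw [e]), fun e => h5 (by rw [e]),
      fun e => h6 (by rw [e]), ?_, ?_⟩
    · rintro ⟨k1, k2⟩
      change adjB M a c = true at k1
      change adjB M b d = true at k2
      rcases h7 with h | h
      · rw [k1] at h; exact absurd h (by decide)
      · rw [k2] at h; exact absurd h (by decide)
    · rintro ⟨k1, k2⟩
      change adjB M a d = true at k1
      change adjB M b c = true at k2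
      rcases h8 with h | h
      · rw [k1] at h; exact absurd h (by decide)
      · rw [k2] at h; exact absurd h (by decide)
  · intro h
    have ne : ∀ p q : Fin M.length, p ≠ q → ¬ ((p : ℕ) = (q : ℕ)) := fun p q h e =>
      h (Fin.ext e)
    refine ⟨⟨⟨⟨⟨⟨⟨h.ab, h.cd⟩, ne _ _ h.ac⟩, ne _ _ h.ad⟩, ne _ _ h.bc⟩, ne _ _ h.bd⟩, ?_⟩, ?_⟩
    · by_contra hc
      push Not at hc
      exact h.n1 ⟨show adjB M a c = true by simpa using hc.1,
        show adjB M b d = true by simpa using hc.2⟩
    · by_contra hc
      push Not at hc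
      exact h.n2 ⟨show adjB M a d = true by simpa using hc.1,
        show adjB M b c = true by simpa using hc.2⟩

theorem mem_system {M : List (List Bool)} {e : List Bool} :
    e ∈ system M ↔ ∃ a b c d : Fin M.length, Rigid (graphOf M) a b c d ∧
      e = eqOf M.length a b c d := by
  unfold system
  simp only [List.mem_flatMap, List.mem_range]
  constructor
  · rintro ⟨a, ha, b, hb, c, hc, d, hd, h⟩
    split_ifs at h with hr
    · rw [List.mem_singleton] at h
      exact ⟨⟨a, ha⟩, ⟨b, hb⟩, ⟨c, hc⟩, ⟨d, hd⟩, rigidB_iff.1 hr, h⟩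
    · exact absurd h (by simp)
  · rintro ⟨a, b, c, d, hr, h⟩
    refine ⟨a, a.2, b, b.2, c, c.2, d, d.2, ?_⟩
    rw [if_pos (rigidB_iff.2 hr), List.mem_singleton]
    exact h

theorem system_length {M : List (List Bool)} : ∀ e ∈ system M,
    e.length = M.length * M.length + 1 := by
  intro e he
  obtain ⟨a, b, c, d, _, rfl⟩ := mem_system.1 he
  exact eqOf_length _ _ _ _ _

theorem evalEq_iff {M : List (List Bool)} (x : List Bool) {a b c d : Fin M.length}
    (h : Rigid (graphOf M) a b c d) :
    evalEq (M.length * M.length) x (eqOf M.length a b c d) = false ↔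
      sep (wZ M.length x) a b c d = 0 := by
  have ne : ∀ p q : Fin M.length, p ≠ q → ¬ ((p : ℕ) = (q : ℕ)) := fun p q h e => h (Fin.ext e)
  rw [← bz_eq_zero, bz_evalEq x a.2 b.2 c.2 d.2 (ne _ _ h.ab.ne) (ne _ _ h.cd.ne) (ne _ _ h.ac)
    (ne _ _ h.ad) (ne _ _ h.bc) (ne _ _ h.bd)]
  rfl

/-- if the algorithm answers `none`, there is no cyclic order without crossing rigid pair -/
theorem outerOrder_none {M : List (List Bool)} (h : outerOrder M = none)
    (s : List (Fin M.length)) (hs : IsEnum s) : ¬ IsWO (graphOf M) s := by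
  intro hw
  unfold outerOrder at h
  rw [Option.map_eq_none_iff] at h
  -- the solution given by `s`
  let x : List Bool := (List.range (M.length * M.length)).map (fun k =>
    if hk : k / M.length < M.length ∧ k % M.length < M.length then
      decide (s.idxOf ⟨k / M.length, hk.1⟩ < s.idxOf ⟨k % M.length, hk.2⟩) else false)
  have hx : ∀ i j : Fin M.length, (i : ℕ) < j → x.getD (i * M.length + j) false =
      decide (s.idxOf i < s.idxOf j) := by
    intro i j hij
    have hn : 0 < M.length := by have := i.2; omega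
    have hlt : (i : ℕ) * M.length + j < M.length * M.length := by
      have h1 := i.2
      have h2 := j.2
      calc (i : ℕ) * M.length + j < i * M.length + M.length := by omega
        _ = (i + 1) * M.length := by ring
        _ ≤ M.length * M.length := Nat.mul_le_mul_right _ h1
    have e1 : ((i : ℕ) * M.length + j) / M.length = i := by
      rw [mul_comm, Nat.mul_add_div hn, Nat.div_eq_of_lt j.2, add_zero]
    have e2 : ((i : ℕ) * M.length + j) % M.length = j := by
      rw [mul_comm, Nat.mul_add_mod, Nat.mod_eq_of_lt j.2]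
    rw [List.getD_eq_getElem _ _ (by simpa [x] using hlt)]
    simp only [x, List.getElem_map, List.getElem_range, e1, e2]
    rw [dif_pos ⟨i.2, j.2⟩]
  have hwz : ∀ i j : Fin M.length, i ≠ j → wZ M.length x i j = ordFn s i j := by
    intro i j hij
    have hne := idx_ne hs hij
    unfold wZ wB ordFn
    by_cases h1 : (i : ℕ) < j
    · rw [if_pos h1, hx i j h1]
      unfold bz
      by_cases h2 : s.idxOf i < s.idxOf j
      · simp [h2]
      · simp [h2]
    · have h3 : (j : ℕ) < i := by
        have : (i : ℕ) ≠ j := fun e => hij (Fin.ext e)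
        omega
      rw [if_neg h1, hx j i h3]
      unfold bz
      by_cases h2 : s.idxOf i < s.idxOf j
      · have h4 : ¬ s.idxOf j < s.idxOf i := by omega
        simp [h2, h4]
      · have h4 : s.idxOf j < s.idxOf i := by omega
        simp [h2, h4]
  obtain ⟨e, he, hev⟩ := gauss_none system_length h x
  obtain ⟨a, b, c, d, hr, rfl⟩ := mem_system.1 he
  have h5 : evalEq (M.length * M.length) x (eqOf M.length a b c d) = false := by
    rw [evalEq_iff x hr]
    have := (isWO_iff hs).1 hw a b c d hr
    unfold sep at this ⊢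
    rw [hwz _ _ hr.ac, hwz _ _ hr.ad, hwz _ _ hr.bc, hwz _ _ hr.bd]
    exact this
  rw [h5] at hev
  exact absurd hev (by decide)

end Pool.Agent.SOC
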