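import Pool.Agent.SOC.AlgoCorrect

/-! Project SOC, module AlgoSome: the order returned by the algorithm has no crossing rigid pair. -/

set_option autoImplicit false

namespace Pool.Agent.SOC

theorem idxOf_map_val {n : ℕ} (s : List (Fin n)) (i : Fin n) :
    (s.map Fin.val).idxOf (i : ℕ) = s.idxOf i := by
  induction s with
  | nil => rfl
  | cons a t ih =>
    rw [List.map_cons]
    by_cases h : a = i
    · subst h
      rw [List.idxOf_cons_self, List.idxOf_cons_self]
    · rw [List.idxOf_cons_ne _ h, List.idxOf_cons_ne _ (fun e => h (Fin.ext e)), ih]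

theorem tourB_skew {n : ℕ} (x : List Bool) {i j : ℕ} (h : i ≠ j) :
    tourB n x i j = !tourB n x j i := by
  unfold tourB
  rw [wB_skew x h]
  generalize wB n x j i = p
  generalize wB n x 0 i = q
  generalize wB n x 0 j = r
  revert p q r
  decide

/-- a split not containing `0` is a module of the tournament -/
theorem module_of_split {n : ℕ} (x : List Bool) (h0 : 0 < n) {X : Set (Fin n)}
    (hX : IsSplit (wZ n x) X) (hv : (⟨0, h0⟩ : Fin n) ∉ X) :
    IsModule (tourB n x) ((List.range n).tail) {i : ℕ | ∃ h : i < n, (⟨i, h⟩ : Fin n) ∈ X} := by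
  rintro z hz hzX a ha ⟨ha1, ha2⟩ b hb ⟨hb1, hb2⟩
  have hz1 : z < n := List.mem_range.1 (List.mem_of_mem_tail hz)
  have hzX' : (⟨z, hz1⟩ : Fin n) ∉ X := fun h => hzX ⟨hz1, h⟩
  have h := hX ⟨a, ha1⟩ ha2 ⟨b, hb1⟩ hb2 ⟨z, hz1⟩ hzX' ⟨0, h0⟩ hv
  have nza : z ≠ a := fun e => hzX (e ▸ ⟨ha1, ha2⟩)
  have nzb : z ≠ b := fun e => hzX (e ▸ ⟨hb1, hb2⟩)
  have n0a : (0 : ℕ) ≠ a := fun e => hv (by
    have : (⟨0, h0⟩ : Fin n) = ⟨a, ha1⟩ := Fin.ext e
    rw [this]; exact ha2)
  have n0b : (0 : ℕ) ≠ b := fun e => hv (by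
    have : (⟨0, h0⟩ : Fin n) = ⟨b, hb1⟩ := Fin.ext e
    rw [this]; exact hb2)
  unfold sep wZ at h
  simp only at h
  rw [wB_skew x nza.symm, wB_skew x n0a.symm, wB_skew x nzb.symm, wB_skew x n0b.symm, bz_not,
    bz_not, bz_not, bz_not] at h
  rw [← bz_inj]
  unfold tourB
  rw [bz_xor, bz_xor, bz_xor, bz_xor]
  apply zadd_eq_zero
  have t1 := zadd_self (1 : ZMod 2)
  have t2 := zadd_self (bz (wB n x 0 z))
  linear_combination h - t1 - t1 + t2

theorem outerOrder_some {M : List (List Bool)} (hG : (graphOf M).Preconnected) {l : List ℕ}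
    (h : outerOrder M = some l) :
    ∃ s : List (Fin M.length), s.map Fin.val = l ∧ IsEnum s ∧ IsWO (graphOf M) s := by
  unfold outerOrder at h
  rw [Option.map_eq_some_iff] at h
  obtain ⟨x, hx, hl⟩ := h
  have hsol : IsSol (graphOf M) (wZ M.length x) := by
    intro a b c d hr
    rw [← evalEq_iff x hr]
    exact gauss_some system_length hx _ (mem_system.2 ⟨a, b, c, d, hr, rfl⟩)
  by_cases h0 : M.length = 0
  · refine ⟨[], ?_, ⟨List.nodup_nil, fun v => absurd v.2 (by omega)⟩, ?_⟩
    · rw [← hl]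
      unfold orderOf
      rw [if_pos h0]
      rfl
    · intro a
      exact absurd a.2 (by omega)
  have hpos : 0 < M.length := Nat.pos_of_ne_zero h0
  have hLn : ((List.range M.length).tail).Nodup := List.Nodup.sublist (List.tail_sublist _)
    List.nodup_range
  have hT : ∀ i ∈ (List.range M.length).tail, ∀ j ∈ (List.range M.length).tail, i ≠ j →
      tourB M.length x i j = !tourB M.length x j i := fun i _ j _ hij => tourB_skew x hij
  have hperm := modOrder_perm (tourB M.length x) hLn hT
  set m := modOrder (tourB M.length x) ((List.range M.length).tail) with hm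
  have hl2 : l = 0 :: m := by
    rw [← hl]
    unfold orderOf
    rw [if_neg h0]
  have hcons : List.range M.length = 0 :: (List.range M.length).tail := by
    obtain ⟨k, hk⟩ : ∃ k, M.length = k + 1 := ⟨M.length - 1, by omega⟩
    rw [hk, List.range_succ_eq_map]
    rfl
  have hperm2 : (0 :: m).Perm (List.range M.length) := by
    rw [hcons]
    exact List.Perm.cons 0 hperm
  have hlt : ∀ i ∈ (0 :: m), i < M.length := fun i hi => List.mem_range.1 (hperm2.mem_iff.1 hi)
  -- the list of elements of Fin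
  let s : List (Fin M.length) := (0 :: m).pmap (fun i hi => ⟨i, hi⟩) hlt
  have hsmap : s.map Fin.val = 0 :: m := by
    simp only [s, List.map_pmap]
    exact List.pmap_eq_map hlt |>.trans (List.map_id' _)
  let t : List (Fin M.length) := m.pmap (fun i hi => ⟨i, hi⟩)
    (fun i hi => hlt i (List.mem_cons_of_mem _ hi))
  have hst : s = ⟨0, hpos⟩ :: t := rfl
  have htmap : t.map Fin.val = m := by
    simp only [t, List.map_pmap]
    exact List.pmap_eq_map _ |>.trans (List.map_id' _)
  have hsnd : s.Nodup := by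
    have : (s.map Fin.val).Nodup := by
      rw [hsmap]
      exact hperm2.nodup_iff.2 List.nodup_range
    exact List.Nodup.of_map _ this
  have hsmem : ∀ v, v ∈ s := by
    intro v
    have h1 : (v : ℕ) ∈ s.map Fin.val := by
      rw [hsmap]
      exact hperm2.mem_iff.2 (List.mem_range.2 v.2)
    obtain ⟨u, hu, huv⟩ := List.mem_map.1 h1
    have : u = v := Fin.ext huv
    rw [← this]; exact hu
  have hs : IsEnum s := ⟨hsnd, hsmem⟩
  refine ⟨s, by rw [hsmap, hl2], hs, ?_⟩
  -- modules are convex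
  have hconv : ∀ X : Set (Fin M.length), IsSplit (wZ M.length x) X → (⟨0, hpos⟩ : Fin _) ∉ X →
      Convex t X := by
    intro X hX hv
    have hsub : ∀ i ∈ {i : ℕ | ∃ h : i < M.length, (⟨i, h⟩ : Fin M.length) ∈ X},
        i ∈ (List.range M.length).tail := by
      rintro i ⟨hi, hiX⟩
      have h1 : i ∈ List.range M.length := List.mem_range.2 hi
      rw [hcons] at h1
      rcases List.mem_cons.1 h1 with h2 | h2
      · subst h2
        exact absurd hiX hv
      · exact h2
    have h1 := modOrder_convex (tourB M.length x) hLn hT (module_of_split x hpos hX hv) hsub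
    rw [← hm] at h1
    intro p hp r hr q hq h2 h3
    have h4 := h1 p ⟨p.2, hp⟩ r ⟨r.2, hr⟩ q (by rw [← htmap]; exact List.mem_map_of_mem hq)
      (by rw [← htmap, idxOf_map_val, idxOf_map_val]; exact h2)
      (by rw [← htmap, idxOf_map_val, idxOf_map_val]; exact h3)
    obtain ⟨_, h5⟩ := h4
    exact h5
  rw [hst] at hs ⊢
  intro a b c d hr
  obtain ⟨X, h1, h2, h3, h4, h5⟩ := thmA hG hsol hr
  by_cases hv : (⟨0, hpos⟩ : Fin M.length) ∈ X
  · rw [cross_comm hs hr.ac hr.ad hr.bc hr.bd]
    exact not_cross_of_convex hs (hconv Xᶜ (h5.compl (wZ_skew _ _)) (fun h => h hv))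
      (fun h => h hv) h3 h4 (fun h => h h1) (fun h => h h2)
  · exact not_cross_of_convex hs (hconv X h5 hv) hv h1 h2 h3 h4

end Pool.Agent.SOC
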