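import Mathlib

/-! Project SOC (MP_66ba69_lc), module Defs: rigid pairs of edges, splits, P-cuts, cyclic orders given by lists. -/

set_option autoImplicit false

namespace Pool.Agent.SOC

/-- `ab` and `cd` are two disjoint edges of `G` which are not opposite edges of a 4-cycle of `G`. -/
structure Rigid {V : Type*} (G : SimpleGraph V) (a b c d : V) : Prop where
  ab : G.Adj a b
  cd : G.Adj c d
  ac : a ≠ c
  ad : a ≠ d
  bc : b ≠ c
  bd : b ≠ d
  n1 : ¬ (G.Adj a c ∧ G.Adj b d)
  n2 : ¬ (G.Adj a d ∧ G.Adj b c)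

/-- The four term sum over `F_2` which, for the order function of a cyclic order, is `1` exactly when the chords
`ab` and `cd` cross. -/
def sep {V : Type*} (w : V → V → ZMod 2) (a b c d : V) : ZMod 2 := w a c + w a d + w b c + w b d

/-- `w` is symmetric (`e = 0`) or a tournament (`e = 1`), outside the diagonal. -/
def Skew {V : Type*} (e : ZMod 2) (w : V → V → ZMod 2) : Prop := ∀ x y, x ≠ y → w x y + w y x = e

/-- `w` satisfies the linear equations: no rigid pair is crossed. -/
def IsSol {V : Type*} (G : SimpleGraph V) (w : V → V → ZMod 2) : Prop :=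
  ∀ a b c d, Rigid G a b c d → sep w a b c d = 0

/-- The bipartition `X`, complement of `X`, is a split of `w`. -/
def IsSplit {V : Type*} (w : V → V → ZMod 2) (X : Set V) : Prop :=
  ∀ x ∈ X, ∀ x' ∈ X, ∀ y, y ∉ X → ∀ y', y' ∉ X → sep w x x' y y' = 0

/-- `X` is one side of a P-cut: no two of the edges leaving `X` form a rigid pair. -/
def IsPCut {V : Type*} (G : SimpleGraph V) (X : Set V) : Prop :=
  ∀ x ∈ X, ∀ x' ∈ X, ∀ y, y ∉ X → ∀ y', y' ∉ X → ¬ Rigid G x y x' y'

/-- `X` and its complement have at least two elements. -/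
def Nontriv {V : Type*} (X : Set V) : Prop :=
  (∃ x ∈ X, ∃ x' ∈ X, x ≠ x') ∧ (∃ y, y ∉ X ∧ ∃ y', y' ∉ X ∧ y ≠ y')

/-- The list `s` is an enumeration of `V`, read as a cyclic order. -/
def IsEnum {V : Type*} (s : List V) : Prop := s.Nodup ∧ ∀ v, v ∈ s

/-- `c` lies strictly between `a` and `b` in the list `s`. -/
def Btw {V : Type*} [DecidableEq V] (s : List V) (a b c : V) : Prop :=
  (s.idxOf a < s.idxOf c ∧ s.idxOf c < s.idxOf b) ∨ (s.idxOf b < s.idxOf c ∧ s.idxOf c < s.idxOf a)

/-- The chords `ab` and `cd` cross in the cyclic order `s` (for four different points). -/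
def Cross {V : Type*} [DecidableEq V] (s : List V) (a b c d : V) : Prop :=
  ¬ (Btw s a b c ↔ Btw s a b d)

/-- No rigid pair of edges crosses. -/
def IsWO {V : Type*} [DecidableEq V] (G : SimpleGraph V) (s : List V) : Prop :=
  ∀ a b c d, Rigid G a b c d → ¬ Cross s a b c d

/-- the order function of a list: `1` when `x` comes before `y` -/
noncomputable def ordFn {V : Type*} [DecidableEq V] (s : List V) (x y : V) : ZMod 2 :=
  if s.idxOf x < s.idxOf y then 1 else 0

/-- all elements of `X` are consecutive in `s` -/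
def Convex {V : Type*} [DecidableEq V] (s : List V) (X : Set V) : Prop :=
  ∀ x ∈ X, ∀ z ∈ X, ∀ y ∈ s, s.idxOf x < s.idxOf y → s.idxOf y < s.idxOf z → y ∈ X

end Pool.Agent.SOC
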