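import Pool.Agent.SOC.Defs

/-! Project SOC, module Drawing: confluent drawings in the closed unit disc with the vertices on the unit circle. -/

set_option autoImplicit false

open Set

namespace Pool.Agent.SOC

/-- A confluent drawing: distinct points of the plane for the vertices `V` and finitely many further points, the
junctions `J`; finitely many arcs, each a `C^1` regular simple curve `curve a : [0,1] -> ℂ` joining two of these
points (its end points may coincide); arcs meet only at shared end points and pass through no other vertex or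
junction; at every junction all incident arcs are tangent to one line. -/
structure Drawing (V : Type) where
  J : Type
  A : Type
  finJ : Finite J
  finA : Finite A
  pos : V ⊕ J → ℂ
  pos_inj : Function.Injective pos
  curve : A → ℝ → ℂ
  src : A → V ⊕ J
  tgt : A → V ⊕ J
  smooth : ∀ a, ContDiffOn ℝ 1 (curve a) (Icc 0 1)
  regular : ∀ a, ∀ t ∈ Icc (0 : ℝ) 1, derivWithin (curve a) (Icc 0 1) t ≠ 0
  start : ∀ a, curve a 0 = pos (src a)
  finish : ∀ a, curve a 1 = pos (tgt a)
  simple : ∀ a, ∀ s ∈ Ioo (0 : ℝ) 1, ∀ t ∈ Icc (0 : ℝ) 1, curve a s = curve a t → s = t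
  disjoint : ∀ a b, a ≠ b → ∀ s ∈ Icc (0 : ℝ) 1, ∀ t ∈ Icc (0 : ℝ) 1, curve a s = curve b t →
    (s = 0 ∨ s = 1) ∧ (t = 0 ∨ t = 1)
  avoid : ∀ a, ∀ t ∈ Ioo (0 : ℝ) 1, ∀ x, curve a t ≠ pos x
  line : J → ℂ
  tangent_src : ∀ a j, src a = Sum.inr j →
    ∃ r : ℝ, derivWithin (curve a) (Icc 0 1) 0 = r • line j
  tangent_tgt : ∀ a j, tgt a = Sum.inr j →
    ∃ r : ℝ, derivWithin (curve a) (Icc 0 1) 1 = r • line j

namespace Drawing

variable {V : Type} (D : Drawing V)

/-- An arc together with a direction of travel. -/
abbrev Dart : Type := D.A × Bool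

variable {D}

/-- the point where the dart starts -/
def beg (d : D.Dart) : V ⊕ D.J := if d.2 then D.src d.1 else D.tgt d.1

/-- the point where the dart ends -/
def fin (d : D.Dart) : V ⊕ D.J := if d.2 then D.tgt d.1 else D.src d.1

/-- the velocity with which the dart leaves its start -/
noncomputable def vout (d : D.Dart) : ℂ :=
  if d.2 then derivWithin (D.curve d.1) (Icc 0 1) 0 else - derivWithin (D.curve d.1) (Icc 0 1) 1

/-- the velocity with which the dart arrives at its end -/
noncomputable def vin (d : D.Dart) : ℂ :=
  if d.2 then derivWithin (D.curve d.1) (Icc 0 1) 1 else - derivWithin (D.curve d.1) (Icc 0 1) 0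

/-- the dart `e` continues the dart `d` smoothly: `d` ends in the junction where `e` starts, and the direction of
arrival is the direction of departure (no sharp turn) -/
def Follows (d e : D.Dart) : Prop := fin d = beg e ∧ (∃ j, beg e = Sum.inr j) ∧ SameRay ℝ (vin d) (vout e)

/-- `p` is a smooth path from the vertex `u` to the vertex `v`: consecutive darts continue each other smoothly at
junctions, and the junctions passed are different. -/
def IsSmoothPath (u v : V) (p : List D.Dart) : Prop :=
  p.IsChain Follows ∧ (p.head?.map beg = some (Sum.inl u)) ∧ (p.getLast?.map fin = some (Sum.inl v)) ∧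
    (p.tail.map beg).Nodup

variable (D)

/-- `D` represents `G`. -/
def Represents (G : SimpleGraph V) : Prop :=
  ∀ u v, u ≠ v → (G.Adj u v ↔ ∃ p : List D.Dart, IsSmoothPath u v p)

/-- `D` is a strict confluent drawing of `G`. -/
def Strict (G : SimpleGraph V) : Prop :=
  (∀ u v, G.Adj u v → ∃! p : List D.Dart, IsSmoothPath u v p) ∧
    ∀ u, ∀ p : List D.Dart, ¬ IsSmoothPath u u p

/-- `D` is drawn in the closed unit disc, with all vertices on the unit circle, and `s` lists the vertices in their
counterclockwise order around the circle. -/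
def InDisc (s : List V) : Prop :=
  (∀ a, ∀ t ∈ Icc (0 : ℝ) 1, ‖D.curve a t‖ ≤ 1) ∧ IsEnum s ∧
    ∃ θ : V → ℝ, (∀ v, D.pos (Sum.inl v) = Complex.exp (θ v * Complex.I)) ∧
      s.Pairwise (fun u v => θ u < θ v) ∧ ∀ u v, θ v < θ u + 2 * Real.pi

end Drawing

/-- `G` has a strict outerconfluent drawing with the vertices in the cyclic order `s` -/
def FixedOrder {V : Type} (G : SimpleGraph V) (s : List V) : Prop :=
  ∃ D : Drawing V, D.Represents G ∧ D.Strict G ∧ D.InDisc s

/-- `G` is strict outerconfluent -/
def StrictOuterconfluent {V : Type} (G : SimpleGraph V) : Prop := ∃ s, FixedOrder G s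

end Pool.Agent.SOC
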