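import Pool.Agent.SOC.Drawing

/-! Project SOC, module Mirror: the cyclic order of a drawing can be rotated and reversed.

rotate: same drawing, theta of the moved vertices increased by 2 pi. reverse: complex conjugate drawing (curve' a t = conj (curve a t), line' = conj line;
derivWithin of the conjugate is the conjugate, SameRay is preserved by the linear map conj), theta' = - theta. -/

set_option autoImplicit false

namespace Pool.Agent.SOC

variable {V : Type}

theorem FixedOrder.rotate {G : SimpleGraph V} {p q : List V} (h : FixedOrder G (p ++ q)) :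
    FixedOrder G (q ++ p) := by
  classical
  obtain ⟨D, h1, h2, h3, h4, θ, h5, h6, h7⟩ := h
  have hnd : (p ++ q).Nodup := h4.1
  have hdis : ∀ v ∈ q, v ∉ p := fun v hv hv' => (List.nodup_append.1 hnd).2.2 v hv' v hv rfl
  have hpw := List.pairwise_append.1 h6
  refine ⟨D, h1, h2, h3, ⟨?_, ?_⟩, fun v => if v ∈ p then θ v + 2 * Real.pi else θ v, ?_, ?_, ?_⟩
  · exact (List.perm_append_comm.nodup_iff).1 hnd
  · intro v
    exact (List.perm_append_comm.mem_iff).1 (h4.2 v)
  · intro v
    rw [h5 v]
    by_cases hv : v ∈ p
    · simp only [if_pos hv]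
      push_cast
      rw [add_mul, Complex.exp_add, Complex.exp_two_pi_mul_I, mul_one]
    · simp only [if_neg hv]
  · rw [List.pairwise_append]
    refine ⟨?_, ?_, ?_⟩
    · refine hpw.2.1.imp_of_mem ?_
      intro a b ha hb hab
      beta_reduce
      rw [if_neg (hdis a ha), if_neg (hdis b hb)]
      exact hab
    · refine hpw.1.imp_of_mem ?_
      intro a b ha hb hab
      beta_reduce
      rw [if_pos ha, if_pos hb]
      linarith
    · intro a ha b hb
      beta_reduce
      rw [if_neg (hdis a ha), if_pos hb]
      exact h7 b a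
  · intro u v
    have hpi := Real.pi_pos
    beta_reduce
    by_cases hu : u ∈ p
    · by_cases hv : v ∈ p
      · rw [if_pos hu, if_pos hv]
        have := h7 u v
        linarith
      · rw [if_pos hu, if_neg hv]
        have := h7 u v
        linarith
    · by_cases hv : v ∈ p
      · rw [if_neg hu, if_pos hv]
        have hu' : u ∈ q := (List.mem_append.1 (h4.2 u)).resolve_left hu
        have := hpw.2.2 v hv u hu'
        linarith
      · rw [if_neg hu, if_neg hv]
        exact h7 u v

/-- the conjugate drawing -/
noncomputable def Mirror_conj (D : Drawing V) : Drawing V where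
  J := D.J
  A := D.A
  finJ := D.finJ
  finA := D.finA
  pos := fun x => star (D.pos x)
  pos_inj := fun x y h => D.pos_inj (star_injective h)
  curve := fun a t => star (D.curve a t)
  src := D.src
  tgt := D.tgt
  smooth := fun a => Complex.conjCLE.contDiff.comp_contDiffOn (D.smooth a)
  regular := by
    intro a t ht h
    rw [derivWithin.star] at h
    exact D.regular a t ht (star_eq_zero.1 h)
  start := fun a => by
    show star (D.curve a 0) = star (D.pos (D.src a))
    rw [D.start]
  finish := fun a => by
    show star (D.curve a 1) = star (D.pos (D.tgt a))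
    rw [D.finish]
  simple := fun a s hs t ht h => D.simple a s hs t ht (star_injective h)
  disjoint := fun a b hab s hs t ht h => D.disjoint a b hab s hs t ht (star_injective h)
  avoid := fun a t ht x h => D.avoid a t ht x (star_injective h)
  line := fun j => star (D.line j)
  tangent_src := by
    intro a j h
    obtain ⟨r, hr⟩ := D.tangent_src a j h
    refine ⟨r, ?_⟩
    rw [derivWithin.star, hr, star_smul, star_trivial]
  tangent_tgt := by
    intro a j h
    obtain ⟨r, hr⟩ := D.tangent_tgt a j h
    refine ⟨r, ?_⟩
    rw [derivWithin.star, hr, star_smul, star_trivial]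

theorem Mirror_vout (D : Drawing V) (d : D.A × Bool) :
    Drawing.vout (D := Mirror_conj D) d = star (Drawing.vout (D := D) d) := by
  unfold Drawing.vout
  show (if d.2 then derivWithin (fun t => star (D.curve d.1 t)) (Set.Icc 0 1) 0
    else - derivWithin (fun t => star (D.curve d.1 t)) (Set.Icc 0 1) 1) = _
  rw [derivWithin.star, derivWithin.star]
  by_cases h : d.2 = true
  · rw [if_pos h, if_pos h]
  · rw [if_neg h, if_neg h, star_neg]

theorem Mirror_vin (D : Drawing V) (d : D.A × Bool) :
    Drawing.vin (D := Mirror_conj D) d = star (Drawing.vin (D := D) d) := by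
  unfold Drawing.vin
  show (if d.2 then derivWithin (fun t => star (D.curve d.1 t)) (Set.Icc 0 1) 1
    else - derivWithin (fun t => star (D.curve d.1 t)) (Set.Icc 0 1) 0) = _
  rw [derivWithin.star, derivWithin.star]
  by_cases h : d.2 = true
  · rw [if_pos h, if_pos h]
  · rw [if_neg h, if_neg h, star_neg]

theorem Mirror_ray (x y : ℂ) : SameRay ℝ (star x) (star y) ↔ SameRay ℝ x y :=
  Function.Injective.sameRay_map_iff (f := (Complex.conjLIE.toLinearEquiv : ℂ →ₗ[ℝ] ℂ))
    (fun _ _ h => star_injective h)

theorem Mirror_follows (D : Drawing V) :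
    (Drawing.Follows (D := Mirror_conj D) : D.A × Bool → D.A × Bool → Prop) =
      Drawing.Follows (D := D) := by
  funext d e
  refine propext ?_
  have e1 : Drawing.vin (D := Mirror_conj D) d = star (Drawing.vin (D := D) d) := Mirror_vin D d
  have e2 : Drawing.vout (D := Mirror_conj D) e = star (Drawing.vout (D := D) e) :=
    Mirror_vout D e
  have e3 := Mirror_ray (Drawing.vin (D := D) d) (Drawing.vout (D := D) e)
  rw [← e1, ← e2] at e3
  exact and_congr Iff.rfl (and_congr Iff.rfl e3)

theorem Mirror_path (D : Drawing V) (u v : V) (p : List (D.A × Bool)) :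
    Drawing.IsSmoothPath (D := Mirror_conj D) u v p ↔ Drawing.IsSmoothPath (D := D) u v p := by
  unfold Drawing.IsSmoothPath
  rw [Mirror_follows]
  exact Iff.rfl

theorem FixedOrder.reverse {G : SimpleGraph V} {s : List V} (h : FixedOrder G s) :
    FixedOrder G s.reverse := by
  obtain ⟨D, h1, h2, h3, h4, θ, h5, h6, h7⟩ := h
  refine ⟨Mirror_conj D, ?_, ⟨?_, ?_⟩, ?_, ⟨List.nodup_reverse.2 h4.1, fun v =>
    List.mem_reverse.2 (h4.2 v)⟩, fun v => - θ v, ?_, ?_, ?_⟩
  · intro u v huv
    rw [h1 u v huv]
    exact exists_congr fun p => (Mirror_path D u v p).symm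
  · intro u v huv
    obtain ⟨p, hp, hp2⟩ := h2.1 u v huv
    exact ⟨p, (Mirror_path D u v p).2 hp, fun p' hp' => hp2 p' ((Mirror_path D u v p').1 hp')⟩
  · intro u p hp
    exact h2.2 u p ((Mirror_path D u u p).1 hp)
  · intro a t ht
    show ‖star (D.curve a t)‖ ≤ 1
    rw [norm_star]
    exact h3 a t ht
  · intro v
    show star (D.pos (Sum.inl v)) = _
    rw [h5 v]
    have h8 : star (Complex.exp ((θ v : ℂ) * Complex.I)) =
        Complex.exp ((starRingEnd ℂ) ((θ v : ℂ) * Complex.I)) := (Complex.exp_conj _).symm
    rw [h8]
    congr 1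
    rw [map_mul, Complex.conj_ofReal, Complex.conj_I]
    push_cast
    ring
  · rw [List.pairwise_reverse]
    exact h6.imp fun h => neg_lt_neg h
  · intro u v
    have := h7 v u
    linarith

end Pool.Agent.SOC
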