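import Pool.Agent.SOC.Miranda

/-! Project SOC, module Meet: two paths in the closed disc with alternating end points on the circle meet.

PROOF. For z, z' in the disc put u = 1 - z.a, v = 1 - z.c, u' = 1 - z'.a, v' = 1 - z'.c (inner products; all >= 0, and u, v
are not both 0 as a <> c), F(s,t) = u v' - v u' with z = p s, z' = q t: at z = a it is -(1-a.c) u' <= 0, at z = c it is
(1-a.c) v' >= 0. Similarly H = -( (1-z'.b)(1-z.d) - (1-z'.d)(1-z.b) ): at z' = b it is (1-b.d)(1-z.b) >= 0, at z' = d <= 0.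
Miranda: F = H = 0 at some (s,t). Then (u',v') = k (u,v), k > 0 and (1-z'.b, 1-z'.d) = k' (1-z.b, 1-z.d), k' > 0.
With the weights: al u + ga v = (al+ga) - z.(al a + ga c) = be (1 - z.b) + de (1 - z.d) > 0 and the same for z', so k = k'.
Hence y = z' - k z satisfies y.a = y.b = y.c = 1 - k; a, b, c are different points of the circle, so y = 0 and k = 1. -/

set_option autoImplicit false

open Set unitInterval

namespace Pool.Agent.SOC

/-- the chords `ac` and `bd` of the circle cross -/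
def Alt (a b c d : ℂ) : Prop :=
  ∃ al ga be de : ℝ, 0 < al ∧ 0 < ga ∧ 0 < be ∧ 0 < de ∧ al + ga = be + de ∧
    (al : ℂ) * a + ga * c = be * b + de * d

/-- the real inner product -/
noncomputable def Meet_dot (z a : ℂ) : ℝ := z.re * a.re + z.im * a.im

theorem Meet_sq {a : ℂ} (ha : ‖a‖ = 1) : a.re ^ 2 + a.im ^ 2 = 1 := by
  have h := Complex.sq_norm a
  rw [ha, Complex.normSq_apply] at h
  linarith [h]

theorem Meet_sq_le {z : ℂ} (hz : ‖z‖ ≤ 1) : z.re ^ 2 + z.im ^ 2 ≤ 1 := by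
  have h := Complex.sq_norm z
  rw [Complex.normSq_apply] at h
  have h0 := norm_nonneg z
  nlinarith

theorem Meet_nonneg {z a : ℂ} (hz : ‖z‖ ≤ 1) (ha : ‖a‖ = 1) : 0 ≤ 1 - Meet_dot z a := by
  have h1 := Meet_sq_le hz
  have h2 := Meet_sq ha
  unfold Meet_dot
  nlinarith [sq_nonneg (z.re - a.re), sq_nonneg (z.im - a.im)]

theorem Meet_eq {z a : ℂ} (hz : ‖z‖ ≤ 1) (ha : ‖a‖ = 1) (h : 1 - Meet_dot z a = 0) : z = a := by
  have h1 := Meet_sq_le hz
  have h2 := Meet_sq ha
  unfold Meet_dot at h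
  have h3 : (z.re - a.re) ^ 2 + (z.im - a.im) ^ 2 ≤ 0 := by nlinarith
  have h4 : (z.re - a.re) ^ 2 = 0 := le_antisymm (by nlinarith [sq_nonneg (z.im - a.im)]) (sq_nonneg _)
  have h5 : (z.im - a.im) ^ 2 = 0 := le_antisymm (by nlinarith [sq_nonneg (z.re - a.re)]) (sq_nonneg _)
  apply Complex.ext
  · exact sub_eq_zero.1 (pow_eq_zero_iff (two_ne_zero) |>.1 h4)
  · exact sub_eq_zero.1 (pow_eq_zero_iff (two_ne_zero) |>.1 h5)

theorem Meet_L {a b y : ℂ} (ha : a.re ^ 2 + a.im ^ 2 = 1) (hb : b.re ^ 2 + b.im ^ 2 = 1) (hab : a ≠ b)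
    (hy : 0 < y.re ^ 2 + y.im ^ 2) (h : y.re * (a.re - b.re) + y.im * (a.im - b.im) = 0) :
    (y.re ^ 2 + y.im ^ 2) * (a.re - b.re) = - (2 * (a.im * y.re - a.re * y.im)) * y.im ∧
      (y.re ^ 2 + y.im ^ 2) * (a.im - b.im) = (2 * (a.im * y.re - a.re * y.im)) * y.re := by
  obtain ⟨L, hL⟩ : ∃ L : ℝ, L = (a.im - b.im) * y.re - (a.re - b.re) * y.im := ⟨_, rfl⟩
  have e1 : (y.re ^ 2 + y.im ^ 2) * (a.re - b.re) = - L * y.im := by
    rw [hL]; linear_combination y.re * h
  have e2 : (y.re ^ 2 + y.im ^ 2) * (a.im - b.im) = L * y.re := by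
    rw [hL]; linear_combination y.im * h
  have e3 : 2 * (a.re * (a.re - b.re) + a.im * (a.im - b.im)) = (a.re - b.re) ^ 2 + (a.im - b.im) ^ 2 := by
    linear_combination ha - hb
  have hL0 : L ≠ 0 := by
    intro h0
    rw [h0] at e1 e2
    have h1 : a.re - b.re = 0 := by
      have : (y.re ^ 2 + y.im ^ 2) * (a.re - b.re) = 0 := by rw [e1]; ring
      exact (mul_eq_zero.1 this).resolve_left hy.ne'
    have h2 : a.im - b.im = 0 := by
      have : (y.re ^ 2 + y.im ^ 2) * (a.im - b.im) = 0 := by rw [e2]; ring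
      exact (mul_eq_zero.1 this).resolve_left hy.ne'
    exact hab (Complex.ext (sub_eq_zero.1 h1) (sub_eq_zero.1 h2))
  have e4 : (y.re ^ 2 + y.im ^ 2) * L * (2 * (a.im * y.re - a.re * y.im)) = (y.re ^ 2 + y.im ^ 2) * L * L := by
    have h1 : (y.re ^ 2 + y.im ^ 2) * (2 * (a.re * ((y.re ^ 2 + y.im ^ 2) * (a.re - b.re)) +
        a.im * ((y.re ^ 2 + y.im ^ 2) * (a.im - b.im)))) =
        ((y.re ^ 2 + y.im ^ 2) * (a.re - b.re)) ^ 2 + ((y.re ^ 2 + y.im ^ 2) * (a.im - b.im)) ^ 2 := by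
      linear_combination (y.re ^ 2 + y.im ^ 2) ^ 2 * e3
    rw [e1, e2] at h1
    linear_combination h1
  have e5 : 2 * (a.im * y.re - a.re * y.im) = L := mul_left_cancel₀ (mul_ne_zero hy.ne' hL0) e4
  rw [e5]
  exact ⟨e1, e2⟩

theorem Meet_line {a b c y : ℂ} (ha : a.re ^ 2 + a.im ^ 2 = 1) (hb : b.re ^ 2 + b.im ^ 2 = 1)
    (hc : c.re ^ 2 + c.im ^ 2 = 1) (hab : a ≠ b) (hac : a ≠ c) (hbc : b ≠ c)
    (h1 : y.re * (a.re - b.re) + y.im * (a.im - b.im) = 0)
    (h2 : y.re * (a.re - c.re) + y.im * (a.im - c.im) = 0) : y.re = 0 ∧ y.im = 0 := by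
  by_contra hcon
  have hy : 0 < y.re ^ 2 + y.im ^ 2 := by
    by_contra h0
    push Not at h0
    refine hcon ⟨?_, ?_⟩
    · exact pow_eq_zero_iff (two_ne_zero) |>.1 (le_antisymm (by nlinarith [sq_nonneg y.im]) (sq_nonneg y.re))
    · exact pow_eq_zero_iff (two_ne_zero) |>.1 (le_antisymm (by nlinarith [sq_nonneg y.re]) (sq_nonneg y.im))
  obtain ⟨e1, e2⟩ := Meet_L ha hb hab hy h1
  obtain ⟨e3, e4⟩ := Meet_L ha hc hac hy h2
  have f1 : a.re - b.re = a.re - c.re := mul_left_cancel₀ hy.ne' (e1.trans e3.symm)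
  have f2 : a.im - b.im = a.im - c.im := mul_left_cancel₀ hy.ne' (e2.trans e4.symm)
  exact hbc (Complex.ext (by linarith) (by linarith))

theorem Meet_prop {u v u' v' : ℝ} (hu : 0 ≤ u) (hv : 0 ≤ v) (hu' : 0 ≤ u') (hv' : 0 ≤ v')
    (h0 : ¬ (u = 0 ∧ v = 0)) (h : u * v' = v * u') :
    ∃ k : ℝ, u' = k * u ∧ v' = k * v := by
  have hs : 0 < u + v := by
    rcases eq_or_lt_of_le hu with h1 | h1
    · rcases eq_or_lt_of_le hv with h2 | h2
      · exact absurd ⟨h1.symm, h2.symm⟩ h0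
      · linarith
    · linarith
  refine ⟨(u' + v') / (u + v), ?_, ?_⟩
  · rw [div_mul_eq_mul_div, eq_div_iff hs.ne']
    linear_combination -h
  · rw [div_mul_eq_mul_div, eq_div_iff hs.ne']
    linear_combination h

theorem Meet_point {a b c d z z' : ℂ} (ha : ‖a‖ = 1) (hb : ‖b‖ = 1) (hc : ‖c‖ = 1) (hd : ‖d‖ = 1)
    (hac : a ≠ c) (hbd : b ≠ d) (hab : a ≠ b) (hbc : b ≠ c) (h : Alt a b c d)
    (hz : ‖z‖ ≤ 1) (hz' : ‖z'‖ ≤ 1)
    (hF : (1 - Meet_dot z a) * (1 - Meet_dot z' c) = (1 - Meet_dot z c) * (1 - Meet_dot z' a))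
    (hH : (1 - Meet_dot z b) * (1 - Meet_dot z' d) = (1 - Meet_dot z d) * (1 - Meet_dot z' b)) : z = z' := by
  obtain ⟨k, h1, h2⟩ := Meet_prop (Meet_nonneg hz ha) (Meet_nonneg hz hc) (Meet_nonneg hz' ha)
    (Meet_nonneg hz' hc) (fun h0 => hac ((Meet_eq hz ha h0.1).symm.trans (Meet_eq hz hc h0.2))) hF
  obtain ⟨k', h3, h4⟩ := Meet_prop (Meet_nonneg hz hb) (Meet_nonneg hz hd) (Meet_nonneg hz' hb)
    (Meet_nonneg hz' hd) (fun h0 => hbd ((Meet_eq hz hb h0.1).symm.trans (Meet_eq hz hd h0.2))) hH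
  obtain ⟨al, ga, be, de, hal, hga, hbe, hde, hsum, hpt⟩ := h
  have hre := congrArg Complex.re hpt
  have him := congrArg Complex.im hpt
  simp only [Complex.add_re, Complex.add_im, Complex.re_ofReal_mul, Complex.im_ofReal_mul] at hre him
  have key : ∀ w : ℂ, al * (1 - Meet_dot w a) + ga * (1 - Meet_dot w c) =
      be * (1 - Meet_dot w b) + de * (1 - Meet_dot w d) := by
    intro w
    unfold Meet_dot
    linear_combination hsum - w.re * hre - w.im * him
  have k1 := key z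
  have k2 := key z'
  have hpos : 0 < al * (1 - Meet_dot z a) + ga * (1 - Meet_dot z c) := by
    have e1 := Meet_nonneg hz ha
    have e2 := Meet_nonneg hz hc
    rcases eq_or_lt_of_le e1 with e3 | e3
    · rcases eq_or_lt_of_le e2 with e4 | e4
      · exact absurd ((Meet_eq hz ha e3.symm).symm.trans (Meet_eq hz hc e4.symm)) hac
      · have := mul_pos hga e4
        have := mul_nonneg hal.le e1
        linarith
    · have := mul_pos hal e3
      have := mul_nonneg hga.le e2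
      linarith
  have hkk : k = k' := by
    rw [h1, h2, h3, h4] at k2
    have e1 : k * (al * (1 - Meet_dot z a) + ga * (1 - Meet_dot z c)) =
        k' * (al * (1 - Meet_dot z a) + ga * (1 - Meet_dot z c)) := by
      linear_combination k2 - k' * k1
    exact mul_right_cancel₀ hpos.ne' e1
  rw [← hkk] at h3 h4
  obtain ⟨y, hy⟩ : ∃ y : ℂ, y = z' - k * z := ⟨_, rfl⟩
  have hyr : y.re = z'.re - k * z.re := by rw [hy, Complex.sub_re, Complex.re_ofReal_mul]
  have hyi : y.im = z'.im - k * z.im := by rw [hy, Complex.sub_im, Complex.im_ofReal_mul]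
  unfold Meet_dot at h1 h2 h3 h4
  obtain ⟨g1, g2⟩ := Meet_line (y := y) (Meet_sq ha) (Meet_sq hb) (Meet_sq hc) hab hac hbc
    (by rw [hyr, hyi]; linear_combination h3 - h1) (by rw [hyr, hyi]; linear_combination h2 - h1)
  have hk : k = 1 := by
    rw [hyr] at g1
    rw [hyi] at g2
    linear_combination -h1 - a.re * g1 - a.im * g2
  rw [hyr, hk] at g1
  rw [hyi, hk] at g2
  exact Complex.ext (by linarith) (by linarith)

theorem paths_meet {a b c d : ℂ} (ha : ‖a‖ = 1) (hb : ‖b‖ = 1) (hc : ‖c‖ = 1) (hd : ‖d‖ = 1)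
    (hac : a ≠ c) (hbd : b ≠ d) (hab : a ≠ b) (hbc : b ≠ c) (h : Alt a b c d)
    (p : Path a c) (q : Path b d) (hp : ∀ t, ‖p t‖ ≤ 1) (hq : ∀ t, ‖q t‖ ≤ 1) :
    ∃ s t, p s = q t := by
  have cp : Continuous fun x : I × I => p x.1 := p.continuous.comp continuous_fst
  have cq : Continuous fun x : I × I => q x.2 := q.continuous.comp continuous_snd
  have cd : ∀ (f : I × I → ℂ) (w : ℂ), Continuous f → Continuous fun x => 1 - Meet_dot (f x) w := by
    intro f w hf
    unfold Meet_dot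
    exact continuous_const.sub (((Complex.continuous_re.comp hf).mul continuous_const).add
      ((Complex.continuous_im.comp hf).mul continuous_const))
  have self : ∀ {w : ℂ}, ‖w‖ = 1 → 1 - Meet_dot w w = 0 := by
    intro w hw
    have := Meet_sq hw
    unfold Meet_dot
    linarith
  obtain ⟨x, hx1, hx2⟩ := miranda
    (F := fun x => (1 - Meet_dot (p x.1) a) * (1 - Meet_dot (q x.2) c) - (1 - Meet_dot (p x.1) c) * (1 - Meet_dot (q x.2) a))
    (H := fun x => (1 - Meet_dot (p x.1) b) * (1 - Meet_dot (q x.2) d) - (1 - Meet_dot (p x.1) d) * (1 - Meet_dot (q x.2) b))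
    (((cd _ a cp).mul (cd _ c cq)).sub ((cd _ c cp).mul (cd _ a cq)))
    (((cd _ b cp).mul (cd _ d cq)).sub ((cd _ d cp).mul (cd _ b cq)))
    (fun t => by
      have h1 := mul_nonneg (Meet_nonneg (hp 0) hc) (Meet_nonneg (hq t) ha)
      have h2 := self ha
      simp only [p.source] at h1 ⊢
      rw [h2]
      linarith)
    (fun t => by
      have h1 := mul_nonneg (Meet_nonneg (hp 1) ha) (Meet_nonneg (hq t) hc)
      have h2 := self hc
      simp only [p.target] at h1 ⊢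
      rw [h2]
      linarith)
    (fun s => by
      have h1 := mul_nonneg (Meet_nonneg (hp s) hb) (Meet_nonneg (hq 0) hd)
      have h2 := self hb
      simp only [q.source] at h1 ⊢
      rw [h2]
      linarith)
    (fun s => by
      have h1 := mul_nonneg (Meet_nonneg (hp s) hd) (Meet_nonneg (hq 1) hb)
      have h2 := self hd
      simp only [q.target] at h1 ⊢
      rw [h2]
      linarith)
  exact ⟨x.1, x.2, Meet_point ha hb hc hd hac hbd hab hbc h (hp x.1) (hq x.2)
    (by linarith [hx1]) (by linarith [hx2])⟩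

/-- four points of the circle in counterclockwise order -/
theorem alt_of_angles {t1 t2 t3 t4 : ℝ} (h12 : t1 < t2) (h23 : t2 < t3) (h34 : t3 < t4)
    (h41 : t4 < t1 + 2 * Real.pi) :
    Alt (Complex.exp (t1 * Complex.I)) (Complex.exp (t2 * Complex.I))
      (Complex.exp (t3 * Complex.I)) (Complex.exp (t4 * Complex.I)) := by
  have hpos : ∀ {x y : ℝ}, x < y → y < x + 2 * Real.pi → 0 < Real.sin (y / 2 - x / 2) := by
    intro x y h1 h2
    apply Real.sin_pos_of_pos_of_lt_pi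
    · linarith
    · linarith
  have s12 := hpos h12 (by linarith)
  have s13 := hpos (h12.trans h23) (by linarith)
  have s14 := hpos (h12.trans (h23.trans h34)) (by linarith)
  have s23 := hpos h23 (by linarith)
  have s24 := hpos (h23.trans h34) (by linarith)
  have s34 := hpos h34 (by linarith)
  have hre : ∀ t : ℝ, (Complex.exp (t * Complex.I)).re = Real.cos (t / 2) ^ 2 - Real.sin (t / 2) ^ 2 := by
    intro t
    rw [Complex.exp_ofReal_mul_I_re]
    have h := Real.cos_sq' (t / 2)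
    have h2 := Real.cos_two_mul (t / 2)
    rw [show 2 * (t / 2) = t by ring] at h2
    rw [h2]
    linarith
  have him : ∀ t : ℝ, (Complex.exp (t * Complex.I)).im = 2 * Real.sin (t / 2) * Real.cos (t / 2) := by
    intro t
    rw [Complex.exp_ofReal_mul_I_im]
    have h2 := Real.sin_two_mul (t / 2)
    rw [show 2 * (t / 2) = t by ring] at h2
    exact h2
  refine ⟨Real.sin (t3 / 2 - t2 / 2) * Real.sin (t4 / 2 - t3 / 2) * Real.sin (t4 / 2 - t2 / 2),
    Real.sin (t2 / 2 - t1 / 2) * Real.sin (t4 / 2 - t2 / 2) * Real.sin (t4 / 2 - t1 / 2),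
    Real.sin (t3 / 2 - t1 / 2) * Real.sin (t4 / 2 - t3 / 2) * Real.sin (t4 / 2 - t1 / 2),
    Real.sin (t2 / 2 - t1 / 2) * Real.sin (t3 / 2 - t2 / 2) * Real.sin (t3 / 2 - t1 / 2),
    by positivity, by positivity, by positivity, by positivity, ?_, ?_⟩
  · have q1 := Real.sin_sq_add_cos_sq (t1 / 2)
    have q2 := Real.sin_sq_add_cos_sq (t2 / 2)
    have q3 := Real.sin_sq_add_cos_sq (t3 / 2)
    have q4 := Real.sin_sq_add_cos_sq (t4 / 2)
    simp only [Real.sin_sub]
    generalize Real.sin (t1 / 2) = a1 at *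
    generalize Real.sin (t2 / 2) = a2 at *
    generalize Real.sin (t3 / 2) = a3 at *
    generalize Real.sin (t4 / 2) = a4 at *
    generalize Real.cos (t1 / 2) = b1 at *
    generalize Real.cos (t2 / 2) = b2 at *
    generalize Real.cos (t3 / 2) = b3 at *
    generalize Real.cos (t4 / 2) = b4 at *
    linear_combination -((a3 * b2 - b3 * a2) * (a4 * b3 - b4 * a3) * (a4 * b2 - b4 * a2)) * q1 +
      ((a3 * b1 - b3 * a1) * (a4 * b3 - b4 * a3) * (a4 * b1 - b4 * a1)) * q2 -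
      ((a2 * b1 - b2 * a1) * (a4 * b2 - b4 * a2) * (a4 * b1 - b4 * a1)) * q3 +
      ((a2 * b1 - b2 * a1) * (a3 * b2 - b3 * a2) * (a3 * b1 - b3 * a1)) * q4
  · apply Complex.ext
    · simp only [Complex.add_re, Complex.re_ofReal_mul, hre, Real.sin_sub]
      ring
    · simp only [Complex.add_im, Complex.im_ofReal_mul, him, Real.sin_sub]
      ring

/-- symmetries -/
theorem Alt.swap {a b c d : ℂ} (h : Alt a b c d) : Alt c b a d := by
  obtain ⟨al, ga, be, de, h1, h2, h3, h4, h5, h6⟩ := h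
  exact ⟨ga, al, be, de, h2, h1, h3, h4, by rw [add_comm]; exact h5, by rw [add_comm]; exact h6⟩

theorem Alt.symm {a b c d : ℂ} (h : Alt a b c d) : Alt b a d c := by
  obtain ⟨al, ga, be, de, h1, h2, h3, h4, h5, h6⟩ := h
  exact ⟨be, de, al, ga, h3, h4, h1, h2, h5.symm, h6.symm⟩

end Pool.Agent.SOC
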