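import Pool.Agent.SOC.Walk
import Pool.Agent.SOC.Meet
import Pool.Agent.SOC.Orders

/-! Project SOC, module Sound: boundary orders of outerconfluent drawings have no crossing rigid pair. -/

set_option autoImplicit false

open Set

namespace Pool.Agent.SOC

theorem Sound_swap2 {a b c d : ℂ} (h : Alt a b c d) : Alt a d c b := h.symm.swap.symm

theorem Sound_idx {V : Type} [DecidableEq V] {s : List V} {θ : V → ℝ} (hs : IsEnum s)
    (hp : s.Pairwise (fun u v => θ u < θ v)) {x y : V} (h : s.idxOf x < s.idxOf y) : θ x < θ y := by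
  have hx : s.idxOf x < s.length := List.idxOf_lt_length_of_mem (hs.2 x)
  have hy : s.idxOf y < s.length := List.idxOf_lt_length_of_mem (hs.2 y)
  have h1 := List.pairwise_iff_getElem.1 hp _ _ hx hy h
  rwa [List.getElem_idxOf hx, List.getElem_idxOf hy] at h1

/-- from a crossing in the list to alternating points of the circle -/
theorem alt_of_cross {V : Type} [DecidableEq V] {D : Drawing V} {s : List V} (hs : D.InDisc s)
    {a b c d : V} (hac : a ≠ c) (hbd : b ≠ d) (h1 : a ≠ b) (h2 : a ≠ d) (h3 : c ≠ b) (h4 : c ≠ d)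
    (h : Cross s a c b d) :
    Alt (D.pos (Sum.inl a)) (D.pos (Sum.inl b)) (D.pos (Sum.inl c)) (D.pos (Sum.inl d)) := by
  obtain ⟨-, hE, θ, hθ, hp, h2π⟩ := hs
  have key : ∀ {x y z w : V}, s.idxOf x < s.idxOf y → s.idxOf y < s.idxOf z → s.idxOf z < s.idxOf w →
      Alt (D.pos (Sum.inl x)) (D.pos (Sum.inl y)) (D.pos (Sum.inl z)) (D.pos (Sum.inl w)) := by
    intro x y z w e1 e2 e3
    rw [hθ, hθ, hθ, hθ]
    exact alt_of_angles (Sound_idx hE hp e1) (Sound_idx hE hp e2) (Sound_idx hE hp e3) (h2π x w)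
  have hne : ∀ {x y : V}, x ≠ y → s.idxOf x ≠ s.idxOf y := by
    intro x y hxy e
    exact hxy ((List.idxOf_inj (hE.2 x)).1 e)
  have n1 := hne hac
  have n2 := hne hbd
  have n3 := hne h1
  have n4 := hne h2
  have n5 := hne h3
  have n6 := hne h4
  unfold Cross Btw at h
  rcases lt_or_gt_of_ne n1 with hac' | hac'
  · by_cases hb : s.idxOf a < s.idxOf b ∧ s.idxOf b < s.idxOf c
    · rcases lt_or_gt_of_ne n4 with hd | hd
      · rcases lt_or_gt_of_ne n6 with hd' | hd'
        · exact key hb.1 hb.2 hd'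
        · exact absurd ⟨fun _ => Or.inl ⟨hd, hd'⟩, fun _ => Or.inl hb⟩ h
      · exact (Sound_swap2 (key hd hb.1 hb.2).symm)
    · by_cases hd : s.idxOf a < s.idxOf d ∧ s.idxOf d < s.idxOf c
      · rcases lt_or_gt_of_ne n3 with hb' | hb'
        · rcases lt_or_gt_of_ne n5 with hb'' | hb''
          · exact Sound_swap2 (key hd.1 hd.2 hb'')
          · exact absurd ⟨hb', hb''⟩ hb
        · exact (key hb' hd.1 hd.2).symm
      · exfalso
        apply h
        constructor
        · rintro (h5 | h5)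
          · exact absurd h5 hb
          · omega
        · rintro (h5 | h5)
          · exact absurd h5 hd
          · omega
  · by_cases hb : s.idxOf c < s.idxOf b ∧ s.idxOf b < s.idxOf a
    · rcases lt_or_gt_of_ne n6 with hd | hd
      · rcases lt_or_gt_of_ne n4 with hd' | hd'
        · exact (key hb.1 hb.2 hd').swap
        · exact absurd ⟨fun _ => Or.inr ⟨hd, hd'⟩, fun _ => Or.inr hb⟩ h
      · exact (Sound_swap2 (key hd hb.1 hb.2).symm).swap
    · by_cases hd : s.idxOf c < s.idxOf d ∧ s.idxOf d < s.idxOf a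
      · rcases lt_or_gt_of_ne n5 with hb' | hb'
        · rcases lt_or_gt_of_ne n3 with hb'' | hb''
          · exact (Sound_swap2 (key hd.1 hd.2 hb'')).swap
          · exact absurd ⟨hb', hb''⟩ hb
        · exact (key hb' hd.1 hd.2).symm.swap
      · exfalso
        apply h
        constructor
        · rintro (h5 | h5)
          · omega
          · exact absurd h5 hb
        · rintro (h5 | h5)
          · omega
          · exact absurd h5 hd

theorem Sound_claim {V : Type} [DecidableEq V] {G : SimpleGraph V} {D : Drawing V} {s : List V}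
    (hR : D.Represents G) (hs : D.InDisc s) {x y u v : V} (hxy : G.Adj x y) (huv : G.Adj u v)
    (h1 : x ≠ u) (h2 : x ≠ v) (h3 : y ≠ u) (h4 : y ≠ v)
    (hA : Alt (D.pos (Sum.inl x)) (D.pos (Sum.inl u)) (D.pos (Sum.inl y)) (D.pos (Sum.inl v))) :
    G.Adj x u ∨ G.Adj x v := by
  obtain ⟨p, hp⟩ := (hR x y hxy.ne).1 hxy
  obtain ⟨q, hq⟩ := (hR u v huv.ne).1 huv
  obtain ⟨g, hg⟩ := Drawing.exists_path hp
  obtain ⟨g', hg'⟩ := Drawing.exists_path hq
  obtain ⟨hle, hE, θ, hθ, -, -⟩ := hs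
  have hnorm : ∀ w, ‖D.pos (Sum.inl w)‖ = 1 := by
    intro w
    rw [hθ]
    exact Complex.norm_exp_ofReal_mul_I _
  have hinj : ∀ {w w' : V}, w ≠ w' → D.pos (Sum.inl w) ≠ D.pos (Sum.inl w') := by
    intro w w' hw e
    exact hw (Sum.inl_injective (D.pos_inj e))
  obtain ⟨t, t', ht⟩ := paths_meet (hnorm x) (hnorm u) (hnorm y) (hnorm v) (hinj hxy.ne) (hinj huv.ne)
    (hinj h1) (hinj h3.symm) hA g g'
    (fun t => by obtain ⟨e, _, z, hz, e1⟩ := hg t; rw [e1]; exact hle _ _ hz)
    (fun t => by obtain ⟨e, _, z, hz, e1⟩ := hg' t; rw [e1]; exact hle _ _ hz)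
  have hj := Drawing.common_junction hp hq h1 h2 h3 h4 ⟨g t, hg t, by rw [ht]; exact hg' t'⟩
  rcases Drawing.hit hp hq hj with h5 | h5
  · exact Or.inl ((hR x u h1).2 h5)
  · exact Or.inr ((hR x v h2).2 h5)

theorem sound {V : Type} [DecidableEq V] {G : SimpleGraph V} {D : Drawing V} {s : List V}
    (hR : D.Represents G) (hs : D.InDisc s) : IsWO G s := by
  intro a b c d hr hc
  have hA := alt_of_cross hs (a := a) (b := c) (c := b) (d := d) hr.ab.ne hr.cd.ne hr.ac hr.ad hr.bc hr.bd hc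
  have k1 := Sound_claim hR hs hr.ab hr.cd hr.ac hr.ad hr.bc hr.bd hA
  have k2 := Sound_claim hR hs hr.ab.symm hr.cd hr.bc hr.bd hr.ac hr.ad hA.swap
  have k3 := Sound_claim hR hs hr.cd hr.ab hr.ac.symm hr.bc.symm hr.ad.symm hr.bd.symm hA.symm
  have k4 := Sound_claim hR hs hr.cd.symm hr.ab hr.ad.symm hr.bd.symm hr.ac.symm hr.bc.symm hA.symm.swap
  have n1 := hr.n1
  have n2 := hr.n2
  have s1 : G.Adj c a ↔ G.Adj a c := ⟨fun h => h.symm, fun h => h.symm⟩
  have s2 : G.Adj c b ↔ G.Adj b c := ⟨fun h => h.symm, fun h => h.symm⟩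
  have s3 : G.Adj d a ↔ G.Adj a d := ⟨fun h => h.symm, fun h => h.symm⟩
  have s4 : G.Adj d b ↔ G.Adj b d := ⟨fun h => h.symm, fun h => h.symm⟩
  rw [s1, s2] at k3
  rw [s3, s4] at k4
  tauto

end Pool.Agent.SOC
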