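import Pool.Agent.SOC.AlgoSome
import Pool.Agent.SOC.KSpan
import Pool.Agent.SOC.Sound
import Pool.Agent.SOC.Mirror

/-! Project SOC, module Main: assembling. -/

set_option autoImplicit false

namespace Pool.Agent.SOC

/-- reading the cyclic order `s` from `v` on, one meets `x` before `y` -/
def CycBefore {V : Type*} [DecidableEq V] (s : List V) (v x y : V) : Prop :=
  (s.idxOf v < s.idxOf x ∧ s.idxOf x < s.idxOf y) ∨ (s.idxOf x < s.idxOf y ∧ s.idxOf y < s.idxOf v) ∨
    (s.idxOf y < s.idxOf v ∧ s.idxOf v < s.idxOf x)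

theorem cycBefore_iff {V : Type*} [DecidableEq V] {s : List V} (hs : IsEnum s) {v x y : V}
    (hx : x ≠ v) (hy : y ≠ v) (hxy : x ≠ y) : CycBefore s v x y ↔ nrm (ordFn s) v x y = 1 := by
  have h1 := idx_ne hs hx
  have h2 := idx_ne hs hy
  have h3 := idx_ne hs hxy
  have e0 : (0 : ZMod 2) ≠ 1 := by decide
  have e3 : (1 : ZMod 2) + 1 + 1 = 1 := by decide
  have e2 : (1 : ZMod 2) + 1 = 0 := by decide
  unfold CycBefore nrm ordFn
  rcases lt_or_gt_of_ne h1 with a1 | a1 <;> rcases lt_or_gt_of_ne h2 with a2 | a2 <;>
    rcases lt_or_gt_of_ne h3 with a3 | a3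
  · rw [if_pos a3, if_neg (by omega), if_neg (by omega), add_zero, add_zero]
    simp; omega
  · rw [if_neg (by omega), if_neg (by omega), if_neg (by omega), add_zero, add_zero]
    simp; omega
  · rw [if_pos a3, if_neg (by omega), if_pos (by omega), add_zero, e2]
    simp; omega
  · omega
  · omega
  · rw [if_neg (by omega), if_pos (by omega), if_neg (by omega), zero_add, add_zero]
    simp; omega
  · rw [if_pos a3, if_pos (by omega), if_pos (by omega), e3]
    simp; omega
  · rw [if_neg (by omega), if_pos (by omega), if_pos (by omega), zero_add, e2]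
    simp; omega

theorem sum_wo {V : Type*} [DecidableEq V] {G : SimpleGraph V} {s s' : List V} (hs : IsEnum s)
    (hs' : IsEnum s') (h : IsWO G s) (h' : IsWO G s') :
    Skew 0 (fun x y => ordFn s x y + ordFn s' x y) ∧
      IsSol G (fun x y => ordFn s x y + ordFn s' x y) := by
  constructor
  · intro x y hxy
    have e1 := ordFn_skew hs x y hxy
    have e2 := ordFn_skew hs' x y hxy
    have t : (1 : ZMod 2) + 1 = 0 := by decide
    linear_combination e1 + e2 + t
  · intro a b c d hr
    have e1 := (isWO_iff hs).1 h a b c d hr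
    have e2 := (isWO_iff hs').1 h' a b c d hr
    unfold sep at e1 e2 ⊢
    linear_combination e1 + e2

open Classical in
theorem cutSum_even {V : Type*} (L : List (Set V)) (x y : V) :
    cutSum L x y = 0 ↔ Even (L.filter (fun X => decide (x ∈ X ∧ y ∈ X))).length := by
  unfold cutSum
  induction L with
  | nil => simp
  | cons X L ih =>
    rw [List.map_cons, List.sum_cons, List.filter_cons]
    by_cases h : x ∈ X ∧ y ∈ X
    · rw [if_pos h, if_pos (by simpa using h), List.length_cons, Nat.even_add_one, ← ih]
      rcases zmod2_cases ((L.map (fun X => if x ∈ X ∧ y ∈ X then (1 : ZMod 2) else 0)).sum) with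
        t | t
      · rw [t]; simp
      · rw [t]; exact ⟨fun _ => by decide, fun _ => by decide⟩
    · rw [if_neg h, if_neg (by simpa using h), zero_add, ih]

open Classical in
/-- (K) -/
theorem pcuts_between {V : Type*} [Finite V] [DecidableEq V] {G : SimpleGraph V}
    (hG : G.Preconnected) {s s' : List V} (hs : IsEnum s) (hs' : IsEnum s') (h : IsWO G s)
    (h' : IsWO G s') (v : V) :
    ∃ L : List (Set V), (∀ X ∈ L, IsPCut G X) ∧ ∀ x y, x ≠ v → y ≠ v → x ≠ y →
      ((CycBefore s v x y ↔ CycBefore s' v x y) ↔
        Even (L.filter (fun X => decide (x ∈ X ∧ y ∈ X))).length) := by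
  obtain ⟨h1, h2⟩ := sum_wo hs hs' h h'
  obtain ⟨L, hL1, hL2⟩ := kspan hG h1 h2 v
  refine ⟨L, fun X hX => (hL1 X hX).1, ?_⟩
  intro x y hx hy hxy
  have h3 := hL2 x y hx hy hxy
  have h4 : nrm (fun x y => ordFn s x y + ordFn s' x y) v x y =
      nrm (ordFn s) v x y + nrm (ordFn s') v x y := by
    unfold nrm; ring
  rw [h4] at h3
  rw [← cutSum_even, ← h3, cycBefore_iff hs hx hy hxy, cycBefore_iff hs' hx hy hxy]
  generalize nrm (ordFn s) v x y = p
  generalize nrm (ordFn s') v x y = q
  revert p q
  decide

/-- the linear system decides the existence of the order -/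
theorem outerOrder_none_iff {M : List (List Bool)} (hG : (graphOf M).Preconnected) :
    (outerOrder M = none ↔ ¬ ∃ w : Fin M.length → Fin M.length → ZMod 2, Skew 1 w ∧
      IsSol (graphOf M) w) ∧
    (outerOrder M = none ↔ ¬ ∃ s : List (Fin M.length), IsEnum s ∧ IsWO (graphOf M) s) := by
  have h1 : outerOrder M = none → ¬ ∃ w : Fin M.length → Fin M.length → ZMod 2, Skew 1 w ∧
      IsSol (graphOf M) w := by
    rintro h ⟨w, hw, hsol⟩
    unfold outerOrder at h
    rw [Option.map_eq_none_iff] at h
    let x : List Bool := (List.range (M.length * M.length)).map (fun k =>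
      if hk : k / M.length < M.length ∧ k % M.length < M.length then
        decide (w ⟨k / M.length, hk.1⟩ ⟨k % M.length, hk.2⟩ = 1) else false)
    have hx : ∀ i j : Fin M.length, x.getD (i * M.length + j) false = decide (w i j = 1) := by
      intro i j
      have hn : 0 < M.length := by have := i.2; omega
      have hlt : (i : ℕ) * M.length + j < M.length * M.length := by
        have h1 := i.2
        have h2 := j.2
        calc (i : ℕ) * M.length + j < i * M.length + M.length := by omega
          _ = (i + 1) * M.length := by ring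
          _ ≤ M.length * M.length := Nat.mul_le_mul_right _ h1
      have e1 : ((i : ℕ) * M.length + j) / M.length = i := by
        rw [mul_comm, Nat.mul_add_div hn, Nat.div_eq_of_lt j.2, add_zero]
      have e2 : ((i : ℕ) * M.length + j) % M.length = j := by
        rw [mul_comm, Nat.mul_add_mod, Nat.mod_eq_of_lt j.2]
      rw [List.getD_eq_getElem _ _ (by simpa [x] using hlt)]
      simp only [x, List.getElem_map, List.getElem_range, e1, e2]
      rw [dif_pos ⟨i.2, j.2⟩]
    have hd : ∀ t : ZMod 2, bz (decide (t = 1)) = t := by decide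
    have hwz : ∀ i j : Fin M.length, i ≠ j → wZ M.length x i j = w i j := by
      intro i j hij
      unfold wZ wB
      by_cases h1 : (i : ℕ) < j
      · rw [if_pos h1, hx i j, hd]
      · rw [if_neg h1, hx j i, bz_not, hd]
        have h2 := hw i j hij
        have h3 := zadd_self (w j i)
        linear_combination h3 - h2
    obtain ⟨e, he, hev⟩ := gauss_none system_length h x
    obtain ⟨a, b, c, d, hr, rfl⟩ := mem_system.1 he
    have h5 : evalEq (M.length * M.length) x (eqOf M.length a b c d) = false := by
      rw [evalEq_iff x hr]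
      have := hsol a b c d hr
      unfold sep at this ⊢
      rw [hwz _ _ hr.ac, hwz _ _ hr.ad, hwz _ _ hr.bc, hwz _ _ hr.bd]
      exact this
    rw [h5] at hev
    exact absurd hev (by decide)
  have h2 : (∃ s : List (Fin M.length), IsEnum s ∧ IsWO (graphOf M) s) →
      ∃ w : Fin M.length → Fin M.length → ZMod 2, Skew 1 w ∧ IsSol (graphOf M) w := by
    rintro ⟨s, hs, hw⟩
    exact ⟨ordFn s, ordFn_skew hs, (isWO_iff hs).1 hw⟩
  have h3 : outerOrder M ≠ none → ∃ s : List (Fin M.length), IsEnum s ∧ IsWO (graphOf M) s := by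
    intro h
    obtain ⟨l, hl⟩ := Option.ne_none_iff_exists'.1 h
    obtain ⟨s, _, h4, h5⟩ := outerOrder_some hG hl
    exact ⟨s, h4, h5⟩
  constructor
  · refine ⟨h1, fun h => ?_⟩
    by_contra hc
    exact h (h2 (h3 hc))
  · refine ⟨fun h h4 => h1 h (h2 h4), fun h => ?_⟩
    by_contra hc
    exact h (h3 hc)

theorem strict_iff {M : List (List Bool)} (hG : (graphOf M).Preconnected)
    (hP : ∀ X : Set (Fin M.length), Nontriv X → ¬ IsPCut (graphOf M) X) :
    StrictOuterconfluent (graphOf M) ↔
      ∃ s : List (Fin M.length), outerOrder M = some (s.map Fin.val) ∧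
        FixedOrder (graphOf M) s := by
  constructor
  · rintro ⟨s', hs'⟩
    obtain ⟨D, hD1, hD2, hD3⟩ := id hs'
    have hwo := sound hD1 hD3
    have hen : IsEnum s' := hD3.2.1
    have hne : outerOrder M ≠ none := fun h => ((outerOrder_none_iff hG).2.1 h) ⟨s', hen, hwo⟩
    obtain ⟨l, hl⟩ := Option.ne_none_iff_exists'.1 hne
    obtain ⟨s, h3, h4, h5⟩ := outerOrder_some hG hl
    refine ⟨s, by rw [h3]; exact hl, ?_⟩
    have hrot : ∀ t t' : List (Fin M.length), t ~r t' → FixedOrder (graphOf M) t →
        FixedOrder (graphOf M) t' := by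
      rintro t t' ⟨k, hk⟩ ht
      by_cases h0 : t = []
      · subst h0
        rw [List.rotate_nil] at hk
        rw [← hk]; exact ht
      have hpos : 0 < t.length := List.length_pos_iff.2 h0
      have e1 : t = t.take (k % t.length) ++ t.drop (k % t.length) := (List.take_append_drop _ _).symm
      rw [e1] at ht
      have e2 := ht.rotate
      rw [← hk, ← List.rotate_mod, List.rotate_eq_drop_append_take (Nat.mod_lt _ hpos).le]
      exact e2
    rcases unique_order hG hP h4 hen h5 hwo with h6 | h6
    · exact hrot _ _ h6 hs'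
    · have h7 := hrot _ _ h6 hs'
      have h8 := h7.reverse
      rw [List.reverse_reverse] at h8
      exact h8
  · rintro ⟨s, _, hs⟩
    exact ⟨s, hs⟩

end Pool.Agent.SOC
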