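import Mathlib
import Pool.Agent.Octa.Miranda2

/-! Project SOC, module Miranda: the two dimensional theorem of Poincare-Miranda (from the discrete version
`Pool.Agent.Octa.miranda2` by uniform continuity and compactness). -/

set_option autoImplicit false

open Set unitInterval

namespace Pool.Agent.SOC

theorem Miranda_near {F H : I × I → ℝ} (hF : Continuous F) (hH : Continuous H)
    (F0 : ∀ t, F (0, t) ≤ 0) (F1 : ∀ t, 0 ≤ F (1, t)) (H0 : ∀ s, 0 ≤ H (s, 0))
    (H1 : ∀ s, H (s, 1) ≤ 0) {δ : ℝ} (hδ : 0 < δ) : ∃ p, |F p| ≤ δ ∧ |H p| ≤ δ := by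
  obtain ⟨η1, hη1, h1⟩ :=
    Metric.uniformContinuous_iff.1 (CompactSpace.uniformContinuous_of_continuous hF) δ hδ
  obtain ⟨η2, hη2, h2⟩ :=
    Metric.uniformContinuous_iff.1 (CompactSpace.uniformContinuous_of_continuous hH) δ hδ
  obtain ⟨N, hN⟩ := exists_nat_gt (1 / min η1 η2)
  have hη : 0 < min η1 η2 := lt_min hη1 hη2
  have hN0 : (0 : ℝ) < N := lt_trans (by positivity) hN
  have hNη : 1 / (N : ℝ) < min η1 η2 := by
    rw [div_lt_iff₀ hN0]
    rw [div_lt_iff₀ hη] at hN
    linarith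
  set pt : ℕ → I := fun i => Set.projIcc 0 1 zero_le_one ((i : ℝ) / N) with hpt
  have hp0 : pt 0 = 0 := by
    rw [hpt]
    simp only [Nat.cast_zero, zero_div]
    exact Set.projIcc_left _
  have hpN : pt N = 1 := by
    rw [hpt]
    simp only [div_self hN0.ne']
    exact Set.projIcc_right _
  have hd : ∀ i i', i ≤ i' → i' ≤ i + 1 → dist (pt i) (pt i') < min η1 η2 := by
    intro i i' hi hi'
    have h3 : dist (pt i) (pt i') ≤ dist ((i : ℝ) / N) ((i' : ℝ) / N) := by
      have := (LipschitzWith.projIcc (zero_le_one (α := ℝ))).dist_le_mul ((i : ℝ) / N) ((i' : ℝ) / N)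
      simpa using this
    have h4 : dist ((i : ℝ) / N) ((i' : ℝ) / N) ≤ 1 / N := by
      rw [Real.dist_eq, ← sub_div, abs_div, abs_of_pos hN0]
      apply div_le_div_of_nonneg_right _ hN0.le
      have h5 : (i : ℝ) ≤ i' := by exact_mod_cast hi
      have h6 : (i' : ℝ) ≤ i + 1 := by exact_mod_cast hi'
      rw [abs_le]
      constructor <;> linarith
    linarith
  have hdd : ∀ i k i' k', i ≤ i' → i' ≤ i + 1 → k ≤ k' → k' ≤ k + 1 →
      dist (pt i, pt k) (pt i', pt k') < min η1 η2 := by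
    intro i k i' k' a b c d
    rw [Prod.dist_eq]
    exact max_lt (hd _ _ a b) (hd _ _ c d)
  obtain ⟨i, k, -, -, h3, h4⟩ := Pool.Agent.Octa.miranda2 N N (fun i k => -F (pt i, pt k))
    (fun i k => H (pt i, pt k)) δ
    (fun k _ => by
      show 0 ≤ -F (pt 0, pt k)
      rw [hp0]; linarith [F0 (pt k)])
    (fun k _ => by
      show -F (pt N, pt k) ≤ 0
      rw [hpN]; linarith [F1 (pt k)])
    (fun i _ => by
      show 0 ≤ H (pt i, pt 0)
      rw [hp0]; exact H0 _)
    (fun i _ => by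
      show H (pt i, pt N) ≤ 0
      rw [hpN]; exact H1 _)
    (fun i k i' k' _ _ _ _ a b c d => by
      have h5 := h1 (lt_of_lt_of_le (hdd i k i' k' a b c d) (min_le_left _ _))
      rw [Real.dist_eq] at h5
      show |-F (pt i, pt k) - -F (pt i', pt k')| ≤ δ
      rw [neg_sub_neg, abs_sub_comm]
      exact h5.le)
    (fun i k i' k' _ _ _ _ a b c d => by
      have h5 := h2 (lt_of_lt_of_le (hdd i k i' k' a b c d) (min_le_right _ _))
      rw [Real.dist_eq] at h5
      exact h5.le)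
  refine ⟨(pt i, pt k), ?_, h4⟩
  have h5 : |-F (pt i, pt k)| ≤ δ := h3
  rwa [abs_neg] at h5

theorem miranda {F H : I × I → ℝ} (hF : Continuous F) (hH : Continuous H)
    (F0 : ∀ t, F (0, t) ≤ 0) (F1 : ∀ t, 0 ≤ F (1, t)) (H0 : ∀ s, 0 ≤ H (s, 0))
    (H1 : ∀ s, H (s, 1) ≤ 0) : ∃ p, F p = 0 ∧ H p = 0 := by
  have hG : Continuous (fun p => |F p| + |H p|) := hF.abs.add hH.abs
  obtain ⟨p, -, hp⟩ := isCompact_univ.exists_isMinOn (univ_nonempty (α := I × I)) hG.continuousOn
  refine ⟨p, ?_⟩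
  by_contra hcon
  have hpos : 0 < |F p| + |H p| := by
    rcases not_and_or.1 hcon with h | h
    · have := abs_pos.2 h
      have := abs_nonneg (H p)
      linarith
    · have := abs_pos.2 h
      have := abs_nonneg (F p)
      linarith
  obtain ⟨q, hq1, hq2⟩ := Miranda_near hF hH F0 F1 H0 H1 (δ := (|F p| + |H p|) / 4) (by positivity)
  have h := hp (mem_univ q)
  have h' : |F p| + |H p| ≤ |F q| + |H q| := h
  linarith

end Pool.Agent.SOC
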