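import Pool.Agent.SOC.Defs

/-! Project SOC, module ModOrder: a linear order of the points of a tournament in which all modules are convex.

ALGORITHM. `closB f L S` : `L.length` times `S := L.filter (fun z => z ∈ S ∨ f z S)`.
`anc T L v` : the points from which `v` can be reached (f z S = some u in S with T z u).
`modc T L x y` : the smallest module of `T` on `L` containing `x` and `y` (f z S = z distinguishes two points of S).
`refine T L` : if `L` has at most one element: `[L]`.  Otherwise let `C` be a shortest of the lists `anc T L v`, v in L;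
if `C` is shorter than `L`: `[C, L without C]`; else (strongly connected) the classes of the equivalence relation
`modc T L x y` shorter than `L`, in the order of first elements.
`modOrder T L` : start with the list of blocks `[L]`, apply `flatMap (refine T)` `L.length` times, flatten.

PROOF. Property P(S, l) for the list `l` produced from `S`: every module of `T` on `S` is convex in `l`, and every source
set M of S (T m z for all m in M, z in S outside M) is an initial segment of `l`. By induction on the size of S.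
Not strongly connected: `C` (smallest nonempty source set) has no proper nonempty source set. Source set M' of S:
M' inter C is a source set of C, so empty or C; empty only if M' is empty; the rest is a source set of S minus C. Module M
meeting C and S minus C: z in C outside M: z -> M inter (S minus C), so z -> M; hence C minus M is a source set of C, so
empty: C subset M; and the rest of M is a source set of S minus C (z outside M: C -> z so M -> z): initial.
Strongly connected, at least 2 points (hence 3): two proper modules M, N which meet have a proper union (if M union N = S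
and neither contains the other: u in M minus N, v in N minus M, say u -> v; then u -> N (N module) for this u, and
M -> v; v arbitrary in N minus M : u -> N gives u -> v, M -> v; so M -> N minus M, and N minus M nonempty: M is a source
set; symmetric if v -> u). So x ~ y iff modc x y is not everything is an equivalence relation, its classes are proper
modules and contain every proper module with at least one point. Source sets: only empty and S. -/

set_option autoImplicit false

namespace Pool.Agent.SOC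

/-- iterated closure inside the list `L` -/
def closB (f : ℕ → List ℕ → Bool) (L : List ℕ) (S : List ℕ) : List ℕ :=
  (fun S => L.filter (fun z => decide (z ∈ S) || f z S))^[L.length] S

/-- points from which `v` can be reached -/
def anc (T : ℕ → ℕ → Bool) (L : List ℕ) (v : ℕ) : List ℕ :=
  closB (fun z S => S.any (fun u => T z u)) L [v]

/-- smallest module containing `x` and `y` -/
def modc (T : ℕ → ℕ → Bool) (L : List ℕ) (x y : ℕ) : List ℕ :=
  closB (fun z S => S.any (fun u => S.any (fun v => T z u != T z v))) L [x, y]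

/-- a shortest list of a list of lists -/
def shortest (Ls : List (List ℕ)) : List ℕ :=
  Ls.foldl (fun m l => if l.length < m.length then l else m) (Ls.headD [])

/-- the classes of the relation `r` on `L` (each class listed at its first element) -/
def classes (r : ℕ → ℕ → Bool) (L : List ℕ) : List (List ℕ) :=
  (L.map (fun x => L.filter (fun y => r x y || decide (x = y)))).dedup

/-- one refinement step -/
def refine (T : ℕ → ℕ → Bool) (L : List ℕ) : List (List ℕ) :=
  if L.length ≤ 1 then [L] else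
    let C := shortest (L.map (anc T L))
    if C.length < L.length then [C, L.filter (fun z => decide (z ∉ C))]
    else classes (fun x y => decide ((modc T L x y).length < L.length)) L

/-- the order -/
def modOrder (T : ℕ → ℕ → Bool) (L : List ℕ) : List ℕ :=
  ((fun bs : List (List ℕ) => bs.flatMap (refine T))^[L.length] [L]).flatten

/-- `X` is a module of the tournament `T` on the points of `L` -/
def IsModule (T : ℕ → ℕ → Bool) (L : List ℕ) (X : Set ℕ) : Prop :=
  ∀ z ∈ L, z ∉ X → ∀ x ∈ L, x ∈ X → ∀ y ∈ L, y ∈ X → T z x = T z y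

/-! ### auxiliary lemmas -/

/-- the members of `X` form a block of consecutive entries -/
def MO_CV (l : List ℕ) (X : Set ℕ) : Prop :=
  ∃ a b c, l = a ++ (b ++ c) ∧ (∀ x ∈ a, x ∉ X) ∧ (∀ x ∈ b, x ∈ X) ∧ ∀ x ∈ c, x ∉ X

/-- the members of `X` form an initial segment -/
def MO_IN (l : List ℕ) (X : Set ℕ) : Prop :=
  ∃ b c, l = b ++ c ∧ (∀ x ∈ b, x ∈ X) ∧ ∀ x ∈ c, x ∉ X

/-- source sets -/
def MO_Src (T : ℕ → ℕ → Bool) (S : List ℕ) (X : Set ℕ) : Prop :=
  ∀ m ∈ S, m ∈ X → ∀ z ∈ S, z ∉ X → T m z = true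

/-- the property proved by induction -/
structure MO_P (T : ℕ → ℕ → Bool) (S l : List ℕ) : Prop where
  nd : l.Nodup
  mem : ∀ x, x ∈ l ↔ x ∈ S
  cv : ∀ X, IsModule T S X → MO_CV l X
  inn : ∀ X, MO_Src T S X → MO_IN l X

theorem MO_closB {f : ℕ → List ℕ → Bool} {L S : List ℕ}
    (hf : ∀ z A B, (∀ x ∈ A, x ∈ B) → f z A = true → f z B = true) (hS : ∀ x ∈ S, x ∈ L) :
    (∀ x ∈ S, x ∈ closB f L S) ∧
    (∀ z ∈ L, f z (closB f L S) = true → z ∈ closB f L S) ∧
    (∀ X : Set ℕ, (∀ x ∈ S, x ∈ X) →
      (∀ z ∈ L, ∀ A : List ℕ, (∀ x ∈ A, x ∈ X ∧ x ∈ L) → f z A = true → z ∈ X) →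
      ∀ x ∈ closB f L S, x ∈ X) := by
  classical
  let g : List ℕ → List ℕ := fun S => L.filter (fun z => decide (z ∈ S) || f z S)
  have hg : ∀ A z, z ∈ g A ↔ z ∈ L ∧ (z ∈ A ∨ f z A = true) := by
    intro A z
    simp [g]
  have hA : closB f L S = g^[L.length] S := rfl
  have hsucc : ∀ k, g^[k + 1] S = g (g^[k] S) := fun k => Function.iterate_succ_apply' g k S
  have hL : ∀ k, ∀ x ∈ g^[k] S, x ∈ L := by
    intro k
    induction k with
    | zero => exact hS
    | succ k ih =>
      intro x hx
      rw [hsucc] at hx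
      exact ((hg _ _).1 hx).1
  have hstep : ∀ k, ∀ x ∈ g^[k] S, x ∈ g^[k + 1] S := by
    intro k x hx
    rw [hsucc]
    exact (hg _ _).2 ⟨hL k x hx, Or.inl hx⟩
  have hstab : ∃ k ≤ L.length, ∀ x ∈ g^[k + 1] S, x ∈ g^[k] S := by
    by_contra hcon
    push Not at hcon
    have hcard : ∀ k ≤ L.length + 1, k ≤ (g^[k] S).toFinset.card := by
      intro k
      induction k with
      | zero => intro _; exact Nat.zero_le _
      | succ k ih =>
        intro hk
        obtain ⟨x, hx1, hx2⟩ := hcon k (by omega)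
        have h1 : (g^[k] S).toFinset ⊂ (g^[k + 1] S).toFinset := by
          rw [Finset.ssubset_iff_of_subset]
          · exact ⟨x, List.mem_toFinset.2 hx1, fun h => hx2 (List.mem_toFinset.1 h)⟩
          · intro y hy
            exact List.mem_toFinset.2 (hstep k y (List.mem_toFinset.1 hy))
        have h2 := Finset.card_lt_card h1
        have h3 := ih (by omega)
        omega
    have h1 := hcard (L.length + 1) le_rfl
    have h2 : (g^[L.length + 1] S).toFinset ⊆ L.toFinset := by
      intro y hy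
      exact List.mem_toFinset.2 (hL _ y (List.mem_toFinset.1 hy))
    have h3 := Finset.card_le_card h2
    have h4 := L.toFinset_card_le
    omega
  have hstab2 : ∀ x ∈ g^[L.length + 1] S, x ∈ g^[L.length] S := by
    obtain ⟨k, hk, hk2⟩ := hstab
    have : ∀ j, ∀ x ∈ g^[k + j + 1] S, x ∈ g^[k + j] S := by
      intro j
      induction j with
      | zero => exact hk2
      | succ j ih =>
        intro x hx
        rw [hsucc] at hx
        obtain ⟨h1, h2⟩ := (hg _ _).1 hx
        rcases h2 with h2 | h2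
        · exact h2
        · show x ∈ g^[k + j + 1] S
          rw [hsucc]
          exact (hg _ _).2 ⟨h1, Or.inr (hf x _ _ ih h2)⟩
    have h1 := this (L.length - k)
    have h2 : k + (L.length - k) = L.length := by omega
    rw [h2] at h1
    exact h1
  rw [hA]
  refine ⟨?_, ?_, ?_⟩
  · have : ∀ k, ∀ x ∈ S, x ∈ g^[k] S := by
      intro k
      induction k with
      | zero => exact fun x hx => hx
      | succ k ih => exact fun x hx => hstep k x (ih x hx)
    exact this _
  · intro z hz h1
    refine hstab2 z ?_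
    rw [hsucc]
    exact (hg _ _).2 ⟨hz, Or.inr h1⟩
  · intro X h1 h2
    have : ∀ k, ∀ x ∈ g^[k] S, x ∈ X := by
      intro k
      induction k with
      | zero => exact h1
      | succ k ih =>
        intro x hx
        rw [hsucc] at hx
        obtain ⟨h3, h4⟩ := (hg _ _).1 hx
        rcases h4 with h4 | h4
        · exact ih x h4
        · exact h2 x h3 _ (fun y hy => ⟨ih y hy, hL k y hy⟩) h4
    exact this _

theorem MO_closB_sub {f : ℕ → List ℕ → Bool} {L S : List ℕ} (hL : L ≠ []) :
    (closB f L S).Sublist L := by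
  obtain ⟨n, hn⟩ : ∃ n, L.length = n + 1 :=
    ⟨L.length - 1, by have := List.length_pos_iff.2 hL; omega⟩
  unfold closB
  rw [hn, Function.iterate_succ_apply']
  exact List.filter_sublist

theorem MO_len {A L : List ℕ} (hL : L.Nodup) (h : A.Sublist L) :
    A.length < L.length ↔ ∃ y ∈ L, y ∉ A := by
  constructor
  · intro h1
    by_contra hcon
    push Not at hcon
    have h2 : L.Subperm A := hL.subperm hcon
    have h3 := h2.length_le
    omega
  · rintro ⟨y, hy, hy2⟩
    by_contra hcon
    have h2 : A = L := h.eq_of_length_le (not_lt.1 hcon)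
    rw [h2] at hy2
    exact hy2 hy

theorem MO_anc {T : ℕ → ℕ → Bool} {S : List ℕ}
    (hT : ∀ x ∈ S, ∀ y ∈ S, x ≠ y → T x y = !T y x) {v : ℕ} (hv : v ∈ S) :
    v ∈ anc T S v ∧ (anc T S v).Sublist S ∧ MO_Src T S {x | x ∈ anc T S v} ∧
      ∀ X : Set ℕ, MO_Src T S X → v ∈ X → ∀ x ∈ anc T S v, x ∈ X := by
  have hne : S ≠ [] := List.ne_nil_of_mem hv
  have hsub : (anc T S v).Sublist S := MO_closB_sub hne
  obtain ⟨h1, h2, h3⟩ := MO_closB (f := fun z S => S.any (fun u => T z u)) (L := S) (S := [v])
    (by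
      intro z A B hAB h
      rw [List.any_eq_true] at h ⊢
      obtain ⟨u, hu, hu2⟩ := h
      exact ⟨u, hAB u hu, hu2⟩)
    (by
      intro x hx
      rw [List.mem_singleton] at hx
      rw [hx]
      exact hv)
  refine ⟨h1 v (List.mem_singleton_self v), hsub, ?_, ?_⟩
  · intro m hm hm2 z hz hz2
    have hm3 : m ∈ anc T S v := hm2
    have hz3 : ¬ z ∈ anc T S v := hz2
    have hmz : m ≠ z := fun h => hz3 (h ▸ hm3)
    rw [hT m hm z hz hmz]
    have h4 : T z m = false := by
      by_contra hcon
      have hcon' : T z m = true := by simpa using hcon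
      refine hz3 (h2 z hz ?_)
      rw [List.any_eq_true]
      exact ⟨m, hm3, hcon'⟩
    rw [h4]
    rfl
  · intro X hX hvX
    refine h3 X ?_ ?_
    · intro x hx
      rw [List.mem_singleton] at hx
      rw [hx]
      exact hvX
    · intro z hz A hA h
      rw [List.any_eq_true] at h
      obtain ⟨u, hu, hu2⟩ := h
      by_contra hzX
      have h4 := hX u (hA u hu).2 (hA u hu).1 z hz hzX
      have huz : z ≠ u := fun h => hzX (h ▸ (hA u hu).1)
      rw [hT z hz u (hA u hu).2 huz, h4] at hu2
      simp at hu2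

theorem MO_modc {T : ℕ → ℕ → Bool} {S : List ℕ} {x y : ℕ} (hx : x ∈ S) (hy : y ∈ S) :
    x ∈ modc T S x y ∧ y ∈ modc T S x y ∧ (modc T S x y).Sublist S ∧
      IsModule T S {w | w ∈ modc T S x y} ∧
      ∀ X : Set ℕ, IsModule T S X → x ∈ X → y ∈ X → ∀ w ∈ modc T S x y, w ∈ X := by
  have hne : S ≠ [] := List.ne_nil_of_mem hx
  have hsub : (modc T S x y).Sublist S := MO_closB_sub hne
  have hany : ∀ z (A : List ℕ), (A.any (fun u => A.any (fun v => T z u != T z v))) = true ↔
      ∃ u ∈ A, ∃ v ∈ A, T z u ≠ T z v := by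
    intro z A
    simp only [List.any_eq_true, bne_iff_ne]
  obtain ⟨h1, h2, h3⟩ := MO_closB
    (f := fun z S => S.any (fun u => S.any (fun v => T z u != T z v))) (L := S) (S := [x, y])
    (by
      intro z A B hAB h
      rw [hany] at h ⊢
      obtain ⟨u, hu, v, hv, huv⟩ := h
      exact ⟨u, hAB u hu, v, hAB v hv, huv⟩)
    (by
      intro w hw
      simp only [List.mem_cons, List.not_mem_nil, or_false] at hw
      rcases hw with rfl | rfl
      · exact hx
      · exact hy)
  refine ⟨h1 x (by simp), h1 y (by simp), hsub, ?_, ?_⟩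
  · intro z hz hz2 u _ hu2 v _ hv2
    by_contra hcon
    exact hz2 (h2 z hz ((hany z _).2 ⟨u, hu2, v, hv2, hcon⟩))
  · intro X hX hxX hyX
    refine h3 X ?_ ?_
    · intro w hw
      simp only [List.mem_cons, List.not_mem_nil, or_false] at hw
      rcases hw with rfl | rfl
      · exact hxX
      · exact hyX
    · intro z hz A hA h
      obtain ⟨u, hu, v, hv, huv⟩ := (hany z A).1 h
      by_contra hzX
      exact huv (hX z hz hzX u (hA u hu).2 (hA u hu).1 v (hA v hv).2 (hA v hv).1)

theorem MO_shortest_aux (Ls : List (List ℕ)) : ∀ m0 : List ℕ,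
    (Ls.foldl (fun m l => if l.length < m.length then l else m) m0 = m0 ∨
      Ls.foldl (fun m l => if l.length < m.length then l else m) m0 ∈ Ls) ∧
    (Ls.foldl (fun m l => if l.length < m.length then l else m) m0).length ≤ m0.length ∧
    ∀ l ∈ Ls, (Ls.foldl (fun m l => if l.length < m.length then l else m) m0).length ≤ l.length := by
  induction Ls with
  | nil => intro m0; simp
  | cons l Ls ih =>
    intro m0
    simp only [List.foldl_cons]
    by_cases h : l.length < m0.length
    · rw [if_pos h]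
      obtain ⟨h1, h2, h3⟩ := ih l
      refine ⟨?_, h2.trans h.le, ?_⟩
      · rcases h1 with h1 | h1
        · right; rw [h1]; exact List.mem_cons_self
        · right; exact List.mem_cons_of_mem _ h1
      · intro l' hl'
        rcases List.mem_cons.1 hl' with rfl | hl'
        · exact h2
        · exact h3 l' hl'
    · rw [if_neg h]
      obtain ⟨h1, h2, h3⟩ := ih m0
      refine ⟨?_, h2, ?_⟩
      · rcases h1 with h1 | h1
        · left; exact h1
        · right; exact List.mem_cons_of_mem _ h1
      · intro l' hl'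
        rcases List.mem_cons.1 hl' with rfl | hl'
        · exact h2.trans (not_lt.1 h)
        · exact h3 l' hl'

theorem MO_shortest {Ls : List (List ℕ)} (h : Ls ≠ []) :
    shortest Ls ∈ Ls ∧ ∀ l ∈ Ls, (shortest Ls).length ≤ l.length := by
  obtain ⟨h1, _, h3⟩ := MO_shortest_aux Ls (Ls.headD [])
  refine ⟨?_, h3⟩
  rcases h1 with h1 | h1
  · unfold shortest
    rw [h1]
    cases Ls with
    | nil => exact absurd rfl h
    | cons l Ls => simp
  · exact h1

/-- the list produced from the block `B` in `k` steps -/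
def MO_G (T : ℕ → ℕ → Bool) (k : ℕ) (B : List ℕ) : List ℕ :=
  ((fun bs : List (List ℕ) => bs.flatMap (refine T))^[k] [B]).flatten

theorem MO_iter (T : ℕ → ℕ → Bool) (k : ℕ) : ∀ bs : List (List ℕ),
    (fun bs : List (List ℕ) => bs.flatMap (refine T))^[k] bs =
      bs.flatMap (fun B => (fun bs : List (List ℕ) => bs.flatMap (refine T))^[k] [B]) := by
  induction k with
  | zero =>
    intro bs
    simp
  | succ k ih =>
    intro bs
    rw [Function.iterate_succ_apply, ih, List.flatMap_assoc]
    congr 1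
    funext B
    rw [Function.iterate_succ_apply, ih ([B].flatMap (refine T))]
    simp

theorem MO_flat (g : List ℕ → List (List ℕ)) (bs : List (List ℕ)) :
    (bs.flatMap g).flatten = bs.flatMap (fun B => (g B).flatten) := by
  induction bs with
  | nil => rfl
  | cons B bs ih => simp [List.flatMap_cons, List.flatten_append, ih]

theorem MO_G_succ (T : ℕ → ℕ → Bool) (k : ℕ) (B : List ℕ) :
    MO_G T (k + 1) B = (refine T B).flatMap (MO_G T k) := by
  unfold MO_G
  rw [Function.iterate_succ_apply, MO_iter, MO_flat]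
  congr 1
  simp

theorem MO_one {T : ℕ → ℕ → Bool} {S : List ℕ} (hS : S.length ≤ 1) (hn : S.Nodup) :
    MO_P T S S := by
  refine ⟨hn, fun _ => Iff.rfl, fun X _ => ?_, fun X _ => ?_⟩
  · match S, hS with
    | [], _ => exact ⟨[], [], [], rfl, by simp, by simp, by simp⟩
    | [x], _ =>
      by_cases hx : x ∈ X
      · exact ⟨[], [x], [], rfl, by simp, by simpa using hx, by simp⟩
      · exact ⟨[x], [], [], rfl, by simpa using hx, by simp, by simp⟩
  · match S, hS with
    | [], _ => exact ⟨[], [], rfl, by simp, by simp⟩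
    | [x], _ =>
      by_cases hx : x ∈ X
      · exact ⟨[x], [], rfl, by simpa using hx, by simp⟩
      · exact ⟨[], [x], rfl, by simp, by simpa using hx⟩

theorem MO_caseA {T : ℕ → ℕ → Bool} {S C l1 l2 : List ℕ}
    (hT : ∀ x ∈ S, ∀ y ∈ S, x ≠ y → T x y = !T y x) (hCS : ∀ x ∈ C, x ∈ S)
    (hsrc : MO_Src T S {x | x ∈ C}) (hne : ∃ x, x ∈ C)
    (hmin : ∀ X, MO_Src T C X → (∃ x ∈ C, x ∈ X) → ∀ x ∈ C, x ∈ X)
    (h1 : MO_P T C l1) (h2 : MO_P T (S.filter (fun z => decide (z ∉ C))) l2) :
    MO_P T S (l1 ++ l2) := by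
  have hR : ∀ z, z ∈ S.filter (fun z => decide (z ∉ C)) ↔ z ∈ S ∧ z ∉ C := by
    intro z
    simp
  have hml1 : ∀ x ∈ l1, x ∈ C := fun x hx => (h1.mem x).1 hx
  have hml2 : ∀ x ∈ l2, x ∈ S ∧ x ∉ C := fun x hx => (hR x).1 ((h2.mem x).1 hx)
  refine ⟨?_, ?_, ?_, ?_⟩
  · rw [List.nodup_append]
    refine ⟨h1.nd, h2.nd, ?_⟩
    intro a ha b hb hab
    exact (hml2 b hb).2 (hab ▸ hml1 a ha)
  · intro x
    rw [List.mem_append, h1.mem, h2.mem, hR]
    constructor
    · rintro (h | h)
      · exact hCS x h
      · exact h.1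
    · intro h
      by_cases hx : x ∈ C
      · exact Or.inl hx
      · exact Or.inr ⟨h, hx⟩
  · intro X hX
    by_cases hc1 : ∃ x ∈ C, x ∈ X
    · by_cases hc2 : ∃ y ∈ S, y ∉ C ∧ y ∈ X
      · obtain ⟨x, hxC, hxX⟩ := hc1
        obtain ⟨y, hyS, hyC, hyX⟩ := hc2
        have hCX : ∀ z ∈ C, z ∈ X := by
          by_contra hcon
          push Not at hcon
          obtain ⟨m, hm, hmX⟩ := hcon
          have h3 : MO_Src T C {z | z ∉ X} := by
            intro m' hm' hm'X z hz hzX
            have hzX' : z ∈ X := not_not.1 hzX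
            have h4 : T m' y = true := hsrc m' (hCS m' hm') hm' y hyS hyC
            rw [hX m' (hCS m' hm') hm'X z (hCS z hz) hzX' y hyS hyX]
            exact h4
          exact hmin _ h3 ⟨m, hm, hmX⟩ x hxC hxX
        have h3 : MO_Src T (S.filter (fun z => decide (z ∉ C))) X := by
          intro m hm hmX z hz hzX
          obtain ⟨hmS, hmC⟩ := (hR m).1 hm
          obtain ⟨hzS, hzC⟩ := (hR z).1 hz
          have h4 : T x z = true := hsrc x (hCS x hxC) hxC z hzS hzC
          have hxz : z ≠ x := fun h => hzX (h ▸ hxX)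
          have h5 : T z x = false := by
            rw [hT z hzS x (hCS x hxC) hxz, h4]
            rfl
          have h6 : T z m = false := by
            rw [hX z hzS hzX m hmS hmX x (hCS x hxC) hxX]
            exact h5
          have hmz : m ≠ z := fun h => hzX (h ▸ hmX)
          rw [hT m hmS z hzS hmz, h6]
          rfl
        obtain ⟨b, c, hbc, hb, hc⟩ := h2.inn X h3
        refine ⟨[], l1 ++ b, c, ?_, by simp, ?_, hc⟩
        · rw [hbc]
          simp
        · intro w hw
          rcases List.mem_append.1 hw with hw | hw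
          · exact hCX w (hml1 w hw)
          · exact hb w hw
      · push Not at hc2
        have h3 : IsModule T C X := fun z hz hzX u hu huX v hv hvX =>
          hX z (hCS z hz) hzX u (hCS u hu) huX v (hCS v hv) hvX
        obtain ⟨a, b, c, habc, ha, hb, hc⟩ := h1.cv X h3
        refine ⟨a, b, c ++ l2, ?_, ha, hb, ?_⟩
        · rw [habc]
          simp
        · intro w hw
          rcases List.mem_append.1 hw with hw | hw
          · exact hc w hw
          · exact hc2 w (hml2 w hw).1 (hml2 w hw).2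
    · push Not at hc1
      have h3 : IsModule T (S.filter (fun z => decide (z ∉ C))) X :=
        fun z hz hzX u hu huX v hv hvX =>
          hX z ((hR z).1 hz).1 hzX u ((hR u).1 hu).1 huX v ((hR v).1 hv).1 hvX
      obtain ⟨a, b, c, habc, ha, hb, hc⟩ := h2.cv X h3
      refine ⟨l1 ++ a, b, c, ?_, ?_, hb, hc⟩
      · rw [habc]
        simp
      · intro w hw
        rcases List.mem_append.1 hw with hw | hw
        · exact hc1 w (hml1 w hw)
        · exact ha w hw
  · intro X hX
    by_cases hc1 : ∃ x ∈ C, x ∈ X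
    · have h3 : MO_Src T C X := fun m hm hmX z hz hzX => hX m (hCS m hm) hmX z (hCS z hz) hzX
      have hCX := hmin X h3 hc1
      have h4 : MO_Src T (S.filter (fun z => decide (z ∉ C))) X := fun m hm hmX z hz hzX =>
        hX m ((hR m).1 hm).1 hmX z ((hR z).1 hz).1 hzX
      obtain ⟨b, c, hbc, hb, hc⟩ := h2.inn X h4
      refine ⟨l1 ++ b, c, ?_, ?_, hc⟩
      · rw [hbc]
        simp
      · intro w hw
        rcases List.mem_append.1 hw with hw | hw
        · exact hCX w (hml1 w hw)
        · exact hb w hw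
    · push Not at hc1
      refine ⟨[], l1 ++ l2, rfl, by simp, ?_⟩
      intro w hw hwX
      rcases List.mem_append.1 hw with hw | hw
      · exact hc1 w (hml1 w hw) hwX
      · obtain ⟨c, hc⟩ := hne
        have hwc : w ≠ c := fun h => (hml2 w hw).2 (h ▸ hc)
        have h3 : T w c = true := hX w (hml2 w hw).1 hwX c (hCS c hc) (hc1 c hc)
        have h4 : T c w = true := hsrc c (hCS c hc) hc w (hml2 w hw).1 (hml2 w hw).2
        rw [hT w (hml2 w hw).1 c (hCS c hc) hwc, h4] at h3
        simp at h3

theorem MO_aux {T : ℕ → ℕ → Bool} {S : List ℕ}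
    (hT : ∀ x ∈ S, ∀ y ∈ S, x ≠ y → T x y = !T y x)
    (hsc : ∀ X, MO_Src T S X → ∀ m ∈ S, m ∈ X → ∀ z ∈ S, z ∈ X) {M N : Set ℕ}
    (hM : IsModule T S M) (hN : IsModule T S N) (hall : ∀ z ∈ S, z ∈ M ∨ z ∈ N)
    (pM : ∃ z ∈ S, z ∉ M) {u v : ℕ} (hu : u ∈ S) (uM : u ∈ M) (uN : u ∉ N) (hv : v ∈ S)
    (vN : v ∈ N) (huv : T u v = true) : False := by
  have hsrc : MO_Src T S M := by
    intro m hm mM z hz zM
    have zN : z ∈ N := (hall z hz).resolve_left zM
    have h1 : T u z = true := by
      rw [hN u hu uN z hz zN v hv vN]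
      exact huv
    have hzu : z ≠ u := fun h => zM (h ▸ uM)
    have h2 : T z u = false := by
      rw [hT z hz u hu hzu, h1]
      rfl
    have h3 : T z m = false := by
      rw [hM z hz zM m hm mM u hu uM]
      exact h2
    have hmz : m ≠ z := fun h => zM (h ▸ mM)
    rw [hT m hm z hz hmz, h3]
    rfl
  obtain ⟨z, hz, hz2⟩ := pM
  exact hz2 (hsc M hsrc u hu uM z hz)

theorem MO_union {T : ℕ → ℕ → Bool} {S : List ℕ}
    (hT : ∀ x ∈ S, ∀ y ∈ S, x ≠ y → T x y = !T y x)
    (hsc : ∀ X, MO_Src T S X → ∀ m ∈ S, m ∈ X → ∀ z ∈ S, z ∈ X) {M N : Set ℕ}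
    (hM : IsModule T S M) (hN : IsModule T S N) (pM : ∃ z ∈ S, z ∉ M) (pN : ∃ z ∈ S, z ∉ N)
    {w : ℕ} (hw : w ∈ S) (wM : w ∈ M) (wN : w ∈ N) :
    IsModule T S (M ∪ N) ∧ ∃ z ∈ S, z ∉ M ∪ N := by
  constructor
  · intro z hz hzMN x hx hxMN y hy hyMN
    have hzM : z ∉ M := fun h => hzMN (Or.inl h)
    have hzN : z ∉ N := fun h => hzMN (Or.inr h)
    have key : ∀ x ∈ S, x ∈ M ∪ N → T z x = T z w := by
      intro x hx hxMN
      rcases hxMN with h | h
      · exact hM z hz hzM x hx h w hw wM
      · exact hN z hz hzN x hx h w hw wN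
    rw [key x hx hxMN, key y hy hyMN]
  · by_contra hcon
    push Not at hcon
    have hall : ∀ z ∈ S, z ∈ M ∨ z ∈ N := fun z hz => hcon z hz
    have hall' : ∀ z ∈ S, z ∈ N ∨ z ∈ M := fun z hz => (hall z hz).symm
    obtain ⟨u, hu, uN⟩ := pN
    have uM : u ∈ M := (hall u hu).resolve_right uN
    obtain ⟨v, hv, vM⟩ := pM
    have vN : v ∈ N := (hall v hv).resolve_left vM
    by_cases huv : T u v = true
    · exact MO_aux hT hsc hM hN hall ⟨v, hv, vM⟩ hu uM uN hv vN huv
    · have huv' : T u v = false := by simpa using huv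
      have hne : v ≠ u := fun h => vM (h ▸ uM)
      have hvu : T v u = true := by
        rw [hT v hv u hu hne, huv']
        rfl
      exact MO_aux hT hsc hN hM hall' ⟨u, hu, uN⟩ hv vN vM hu uM hvu

/-- `x` and `y` are in a common proper module -/
def MO_Rel (T : ℕ → ℕ → Bool) (S : List ℕ) (x y : ℕ) : Prop :=
  ∃ X : Set ℕ, IsModule T S X ∧ x ∈ X ∧ y ∈ X ∧ ∃ z ∈ S, z ∉ X

theorem MO_Rel.symm {T : ℕ → ℕ → Bool} {S : List ℕ} {x y : ℕ} (h : MO_Rel T S x y) :
    MO_Rel T S y x := by
  obtain ⟨X, h1, h2, h3, h4⟩ := h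
  exact ⟨X, h1, h3, h2, h4⟩

theorem MO_Rel.trans {T : ℕ → ℕ → Bool} {S : List ℕ}
    (hT : ∀ x ∈ S, ∀ y ∈ S, x ≠ y → T x y = !T y x)
    (hsc : ∀ X, MO_Src T S X → ∀ m ∈ S, m ∈ X → ∀ z ∈ S, z ∈ X) {x y z : ℕ} (hy : y ∈ S)
    (h : MO_Rel T S x y) (h' : MO_Rel T S y z) : MO_Rel T S x z := by
  obtain ⟨X, h1, h2, h3, h4⟩ := h
  obtain ⟨Y, k1, k2, k3, k4⟩ := h'
  obtain ⟨m1, m2⟩ := MO_union hT hsc h1 k1 h4 k4 hy h3 k2
  exact ⟨X ∪ Y, m1, Or.inl h2, Or.inr k3, m2⟩

theorem MO_Rel_refl {T : ℕ → ℕ → Bool} {S : List ℕ} (hn : S.Nodup) (hlen : ¬ S.length ≤ 1)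
    (x : ℕ) : MO_Rel T S x x := by
  refine ⟨{x}, ?_, rfl, rfl, ?_⟩
  · intro z _ _ u _ hu v _ hv
    rw [Set.mem_singleton_iff] at hu hv
    rw [hu, hv]
  · by_contra hcon
    push Not at hcon
    have h1 : S.toFinset ⊆ {x} := by
      intro y hy
      rw [Finset.mem_singleton]
      exact hcon y (List.mem_toFinset.1 hy)
    have h2 := Finset.card_le_card h1
    rw [List.toFinset_card_of_nodup hn, Finset.card_singleton] at h2
    exact hlen h2

theorem MO_notall {T : ℕ → ℕ → Bool} {S : List ℕ}
    (hT : ∀ x ∈ S, ∀ y ∈ S, x ≠ y → T x y = !T y x)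
    (hsc : ∀ X, MO_Src T S X → ∀ m ∈ S, m ∈ X → ∀ z ∈ S, z ∈ X) {x : ℕ} (hx : x ∈ S) :
    ∃ y ∈ S, ¬ MO_Rel T S x y := by
  by_contra hcon
  push Not at hcon
  have key : ∀ ys : List ℕ, (∀ y ∈ ys, y ∈ S) → ∃ X : Set ℕ, IsModule T S X ∧ x ∈ X ∧
      (∀ y ∈ ys, y ∈ X) ∧ ∃ z ∈ S, z ∉ X := by
    intro ys
    induction ys with
    | nil =>
      intro _
      obtain ⟨X, h1, h2, _, h4⟩ := hcon x hx
      exact ⟨X, h1, h2, by simp, h4⟩
    | cons y ys ih =>
      intro hys
      obtain ⟨X, h1, h2, h3, h4⟩ := ih (fun y' hy' => hys y' (List.mem_cons_of_mem _ hy'))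
      obtain ⟨Y, k1, k2, k3, k4⟩ := hcon y (hys y List.mem_cons_self)
      obtain ⟨m1, m2⟩ := MO_union hT hsc h1 k1 h4 k4 hx h2 k2
      refine ⟨X ∪ Y, m1, Or.inl h2, ?_, m2⟩
      intro y' hy'
      rcases List.mem_cons.1 hy' with rfl | hy'
      · exact Or.inr k3
      · exact Or.inl (h3 y' hy')
  obtain ⟨X, _, _, h3, z, hz, hz2⟩ := key S (fun y hy => hy)
  exact hz2 (h3 z hz)

theorem MO_caseB {T : ℕ → ℕ → Bool} {S : List ℕ} (hn : S.Nodup) (hlen : ¬ S.length ≤ 1)
    (hT : ∀ x ∈ S, ∀ y ∈ S, x ≠ y → T x y = !T y x)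
    (hsc : ∀ X, MO_Src T S X → ∀ m ∈ S, m ∈ X → ∀ z ∈ S, z ∈ X) {G : List ℕ → List ℕ}
    (hG : ∀ B : List ℕ, B.Sublist S → B.length < S.length → MO_P T B (G B)) :
    MO_P T S ((classes (fun x y => decide ((modc T S x y).length < S.length)) S).flatMap G) := by
  have hrel : ∀ x ∈ S, ∀ y ∈ S, ((fun x y => decide ((modc T S x y).length < S.length)) x y ||
      decide (x = y)) = true ↔ MO_Rel T S x y := by
    intro x hx y hy
    obtain ⟨m1, m2, m3, m4, m5⟩ := MO_modc (T := T) hx hy
    simp only [Bool.or_eq_true, decide_eq_true_eq]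
    constructor
    · rintro (h | h)
      · exact ⟨{w | w ∈ modc T S x y}, m4, m1, m2, (MO_len hn m3).1 h⟩
      · rw [← h]
        exact MO_Rel_refl hn hlen x
    · rintro ⟨X, h1, h2, h3, z, hz, hz2⟩
      left
      exact (MO_len hn m3).2 ⟨z, hz, fun h => hz2 (m5 X h1 h2 h3 z h)⟩
  set cls : ℕ → List ℕ := fun x => S.filter (fun y =>
    (fun x y => decide ((modc T S x y).length < S.length)) x y || decide (x = y)) with hcls
  have hclsm : ∀ x ∈ S, ∀ y, y ∈ cls x ↔ y ∈ S ∧ MO_Rel T S x y := by
    intro x hx y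
    rw [hcls, List.mem_filter]
    constructor
    · rintro ⟨h1, h2⟩
      exact ⟨h1, (hrel x hx y h1).1 h2⟩
    · rintro ⟨h1, h2⟩
      exact ⟨h1, (hrel x hx y h1).2 h2⟩
  have hBs : classes (fun x y => decide ((modc T S x y).length < S.length)) S =
      (S.map cls).dedup := rfl
  rw [hBs]
  have hmemBs : ∀ B, B ∈ (S.map cls).dedup ↔ ∃ x ∈ S, cls x = B := by
    intro B
    rw [List.mem_dedup, List.mem_map]
  have heq : ∀ x ∈ S, ∀ x' ∈ S, MO_Rel T S x x' → cls x = cls x' := by
    intro x hx x' hx' h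
    refine List.filter_congr ?_
    intro y hy
    rw [Bool.eq_iff_iff, hrel x hx y hy, hrel x' hx' y hy]
    exact ⟨fun h1 => (h.symm).trans hT hsc hx h1, fun h1 => h.trans hT hsc hx' h1⟩
  have hdisj : ∀ B ∈ (S.map cls).dedup, ∀ B' ∈ (S.map cls).dedup, ∀ y, y ∈ B → y ∈ B' →
      B = B' := by
    intro B hB B' hB' y hy hy'
    obtain ⟨x, hx, rfl⟩ := (hmemBs B).1 hB
    obtain ⟨x', hx', rfl⟩ := (hmemBs B').1 hB'
    obtain ⟨h1, h2⟩ := (hclsm x hx y).1 hy
    obtain ⟨_, h3⟩ := (hclsm x' hx' y).1 hy'
    exact heq x hx x' hx' (h2.trans hT hsc h1 h3.symm)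
  have hP : ∀ B ∈ (S.map cls).dedup, MO_P T B (G B) := by
    intro B hB
    obtain ⟨x, hx, rfl⟩ := (hmemBs B).1 hB
    have hsub : (cls x).Sublist S := List.filter_sublist
    refine hG _ hsub ?_
    obtain ⟨y, hy, hy2⟩ := MO_notall hT hsc hx
    exact (MO_len hn hsub).2 ⟨y, hy, fun h => hy2 ((hclsm x hx y).1 h).2⟩
  have hmem : ∀ x, x ∈ (S.map cls).dedup.flatMap G ↔ x ∈ S := by
    intro x
    rw [List.mem_flatMap]
    constructor
    · rintro ⟨B, hB, hx⟩
      have hx' := ((hP B hB).mem x).1 hx
      obtain ⟨x', hx'', rfl⟩ := (hmemBs B).1 hB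
      exact ((hclsm x' hx'' x).1 hx').1
    · intro hx
      refine ⟨cls x, (hmemBs _).2 ⟨x, hx, rfl⟩, ?_⟩
      rw [(hP _ ((hmemBs _).2 ⟨x, hx, rfl⟩)).mem x]
      exact (hclsm x hx x).2 ⟨hx, MO_Rel_refl hn hlen x⟩
  refine ⟨?_, hmem, ?_, ?_⟩
  · rw [List.nodup_flatMap]
    refine ⟨fun B hB => (hP B hB).nd, ?_⟩
    have h1 : ((S.map cls).dedup).Pairwise (fun a b => a ≠ b) := List.nodup_dedup _
    refine List.Pairwise.imp_of_mem ?_ h1
    intro B B' hB hB' hne
    show List.Disjoint (G B) (G B')
    intro y hy hy'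
    exact hne (hdisj B hB B' hB' y (((hP B hB).mem y).1 hy) (((hP B' hB').mem y).1 hy'))
  · intro X hX
    by_cases hc1 : ∃ z ∈ S, z ∉ X
    · by_cases hc2 : ∃ x ∈ S, x ∈ X
      · obtain ⟨x, hx, hxX⟩ := hc2
        have hxB : ∀ y ∈ S, y ∈ X → y ∈ cls x := fun y hy hyX =>
          (hclsm x hx y).2 ⟨hy, X, hX, hxX, hyX, hc1⟩
        have hB : cls x ∈ (S.map cls).dedup := (hmemBs _).2 ⟨x, hx, rfl⟩
        have hBS : ∀ y ∈ cls x, y ∈ S := fun y hy => ((hclsm x hx y).1 hy).1
        obtain ⟨a, b, c, habc, ha, hb, hc⟩ := (hP _ hB).cv X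
          (fun z hz hzX u hu huX v hv hvX =>
            hX z (hBS z hz) hzX u (hBS u hu) huX v (hBS v hv) hvX)
        obtain ⟨Bs1, Bs2, hsplit⟩ := List.append_of_mem hB
        have hnd : (Bs1 ++ cls x :: Bs2).Nodup := by
          rw [← hsplit]
          exact List.nodup_dedup _
        have hnd2 := List.nodup_append.1 hnd
        have hout : ∀ B' ∈ (S.map cls).dedup, B' ≠ cls x → ∀ y ∈ G B', y ∉ X := by
          intro B' hB' hne y hy hyX
          have hy1 := ((hP B' hB').mem y).1 hy
          have hyS : y ∈ S := (hmem y).1 (List.mem_flatMap.2 ⟨B', hB', hy⟩)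
          exact hne (hdisj B' hB' _ hB y hy1 (hxB y hyS hyX))
        have h1in : ∀ B' ∈ Bs1, B' ∈ (S.map cls).dedup := fun B' h => by
          rw [hsplit]
          exact List.mem_append_left _ h
        have h2in : ∀ B' ∈ Bs2, B' ∈ (S.map cls).dedup := fun B' h => by
          rw [hsplit]
          exact List.mem_append_right _ (List.mem_cons_of_mem _ h)
        refine ⟨Bs1.flatMap G ++ a, b, c ++ Bs2.flatMap G, ?_, ?_, hb, ?_⟩
        · rw [hsplit, List.flatMap_append, List.flatMap_cons, habc]
          simp [List.append_assoc]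
        · intro y hy
          rcases List.mem_append.1 hy with hy | hy
          · obtain ⟨B', hB', hy⟩ := List.mem_flatMap.1 hy
            exact hout B' (h1in B' hB') (hnd2.2.2 B' hB' (cls x) List.mem_cons_self) y hy
          · exact ha y hy
        · intro y hy
          rcases List.mem_append.1 hy with hy | hy
          · exact hc y hy
          · obtain ⟨B', hB', hy⟩ := List.mem_flatMap.1 hy
            refine hout B' (h2in B' hB') ?_ y hy
            rintro rfl
            exact (List.nodup_cons.1 hnd2.2.1).1 hB'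
      · push Not at hc2
        refine ⟨(S.map cls).dedup.flatMap G, [], [], by simp, ?_, by simp, by simp⟩
        intro y hy
        exact hc2 y ((hmem y).1 hy)
    · push Not at hc1
      refine ⟨[], (S.map cls).dedup.flatMap G, [], by simp, by simp, ?_, by simp⟩
      intro y hy
      exact hc1 y ((hmem y).1 hy)
  · intro X hX
    by_cases hc : ∃ m ∈ S, m ∈ X
    · obtain ⟨m, hm, hmX⟩ := hc
      refine ⟨(S.map cls).dedup.flatMap G, [], by simp, ?_, by simp⟩
      intro y hy
      exact hsc X hX m hm hmX y ((hmem y).1 hy)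
    · push Not at hc
      refine ⟨[], (S.map cls).dedup.flatMap G, by simp, by simp, ?_⟩
      intro y hy
      exact hc y ((hmem y).1 hy)

theorem MO_main (T : ℕ → ℕ → Bool) : ∀ (k : ℕ) (S : List ℕ), S.length ≤ k + 1 → S.Nodup →
    (∀ x ∈ S, ∀ y ∈ S, x ≠ y → T x y = !T y x) → MO_P T S (MO_G T k S) := by
  intro k
  induction k with
  | zero =>
    intro S hS hn _
    have h : MO_G T 0 S = S := by
      unfold MO_G
      simp
    rw [h]
    exact MO_one hS hn
  | succ k ih =>
    intro S hS hn hT
    rw [MO_G_succ]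
    by_cases hlen : S.length ≤ 1
    · have h : refine T S = [S] := by
        unfold refine
        rw [if_pos hlen]
      rw [h, List.flatMap_cons, List.flatMap_nil, List.append_nil]
      exact ih S (by omega) hn hT
    · have hne : S ≠ [] := by
        rintro rfl
        simp at hlen
      have hmapne : S.map (anc T S) ≠ [] := by
        intro h
        exact hne (List.map_eq_nil_iff.1 h)
      obtain ⟨hs1, hs2⟩ := MO_shortest hmapne
      obtain ⟨v, hv, hvC⟩ := List.mem_map.1 hs1
      obtain ⟨a1, a2, a3, a4⟩ := MO_anc hT hv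
      have hT' : ∀ B : List ℕ, B.Sublist S → ∀ x ∈ B, ∀ y ∈ B, x ≠ y → T x y = !T y x :=
        fun B hB x hx y hy hxy => hT x (hB.subset hx) y (hB.subset hy) hxy
      by_cases hC : (shortest (S.map (anc T S))).length < S.length
      · have h : refine T S = [shortest (S.map (anc T S)),
            S.filter (fun z => decide (z ∉ shortest (S.map (anc T S))))] := by
          unfold refine
          rw [if_neg hlen, if_pos hC]
        rw [h, ← hvC, List.flatMap_cons, List.flatMap_cons, List.flatMap_nil, List.append_nil]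
        rw [← hvC] at hC hs2
        have hfs : (S.filter (fun z => decide (z ∉ anc T S v))).Sublist S := List.filter_sublist
        have hfl : (S.filter (fun z => decide (z ∉ anc T S v))).length < S.length := by
          refine (MO_len hn hfs).2 ⟨v, hv, ?_⟩
          intro h2
          have := (List.mem_filter.1 h2).2
          simp only [decide_eq_true_eq] at this
          exact this a1
        refine MO_caseA hT (fun x hx => a2.subset hx) a3 ⟨v, a1⟩ ?_
          (ih _ (by omega) (hn.sublist a2) (hT' _ a2))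
          (ih _ (by omega) (hn.sublist hfs) (hT' _ hfs))
        rintro X hX ⟨w, hw, hwX⟩
        have hwS : w ∈ S := a2.subset hw
        obtain ⟨b1, b2, b3, b4⟩ := MO_anc hT hwS
        have hsub : ∀ x ∈ anc T S w, x ∈ anc T S v := b4 {x | x ∈ anc T S v} a3 hw
        have hlen2 : (anc T S v).length ≤ (anc T S w).length :=
          hs2 _ (List.mem_map.2 ⟨w, hwS, rfl⟩)
        have hXS : MO_Src T S {x | x ∈ X ∧ x ∈ anc T S v} := by
          rintro m hm ⟨hmX, hmC⟩ z hz hz2
          by_cases hzC : z ∈ anc T S v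
          · exact hX m hmC hmX z hzC (fun h3 => hz2 ⟨h3, hzC⟩)
          · exact a3 m hm hmC z hz hzC
        have hwX2 := b4 _ hXS ⟨hwX, hw⟩
        -- the two sets agree
        have hall : ∀ x ∈ anc T S v, x ∈ anc T S w := by
          have h5 : (anc T S w).Nodup := hn.sublist b2
          have h6 : (anc T S w).Subperm (anc T S v) := h5.subperm hsub
          have h7 := h6.perm_of_length_le hlen2
          intro x hx
          exact h7.mem_iff.2 hx
        intro x hx
        exact (hwX2 x (hall x hx)).1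
      · have h : refine T S =
            classes (fun x y => decide ((modc T S x y).length < S.length)) S := by
          unfold refine
          rw [if_neg hlen, if_neg hC]
        rw [h]
        refine MO_caseB hn hlen hT ?_ ?_
        · intro X hX m hm hmX z hz
          obtain ⟨b1, b2, b3, b4⟩ := MO_anc hT hm
          have h5 : ¬ (anc T S m).length < S.length := by
            intro h6
            have := hs2 _ (List.mem_map.2 ⟨m, hm, rfl⟩)
            omega
          have h7 : z ∈ anc T S m := by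
            by_contra hcon
            exact h5 ((MO_len hn b2).2 ⟨z, hz, hcon⟩)
          exact b4 X hX hmX z h7
        · intro B hB hBl
          exact ih B (by omega) (hn.sublist hB) (hT' B hB)

theorem MO_P_modOrder (T : ℕ → ℕ → Bool) {L : List ℕ} (hL : L.Nodup)
    (hT : ∀ x ∈ L, ∀ y ∈ L, x ≠ y → T x y = !T y x) : MO_P T L (modOrder T L) :=
  MO_main T L.length L (Nat.le_succ _) hL hT

theorem MO_convex {l : List ℕ} {X : Set ℕ} (h : MO_CV l X) (hX : ∀ x ∈ X, x ∈ l) :
    Convex l X := by
  obtain ⟨a, b, c, habc, ha, hb, hc⟩ := h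
  intro x hx z hz y hy hxy hyz
  have hxa : x ∉ a := fun h => ha x h hx
  have hza : z ∉ a := fun h => ha z h hz
  have hzb : z ∈ b := by
    have h1 := hX z hz
    rw [habc, List.mem_append, List.mem_append] at h1
    rcases h1 with h1 | h1 | h1
    · exact absurd h1 hza
    · exact h1
    · exact absurd hz (hc z h1)
  by_cases hya : y ∈ a
  · exfalso
    rw [habc, List.idxOf_append_of_mem hya, List.idxOf_append_of_notMem hxa] at hxy
    have := List.idxOf_lt_length_of_mem hya
    omega
  · by_cases hyb : y ∈ b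
    · exact hb y hyb
    · exfalso
      rw [habc, List.idxOf_append_of_notMem hya, List.idxOf_append_of_notMem hza,
        List.idxOf_append_of_notMem hyb, List.idxOf_append_of_mem hzb] at hyz
      have := List.idxOf_lt_length_of_mem hzb
      omega

theorem modOrder_perm (T : ℕ → ℕ → Bool) {L : List ℕ} (hL : L.Nodup)
    (hT : ∀ x ∈ L, ∀ y ∈ L, x ≠ y → T x y = !T y x) : (modOrder T L).Perm L := by
  have h := MO_P_modOrder T hL hT
  exact (List.perm_ext_iff_of_nodup h.nd hL).2 h.mem

theorem modOrder_convex (T : ℕ → ℕ → Bool) {L : List ℕ} (hL : L.Nodup)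
    (hT : ∀ x ∈ L, ∀ y ∈ L, x ≠ y → T x y = !T y x) {X : Set ℕ} (hX : IsModule T L X)
    (hXL : ∀ x ∈ X, x ∈ L) : Convex (modOrder T L) X := by
  have h := MO_P_modOrder T hL hT
  exact MO_convex (h.cv X hX) (fun x hx => (h.mem x).2 (hXL x hx))

end Pool.Agent.SOC
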