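import Pool.Agent.SOC.ThmA

/-! Project SOC, module Strong: a symmetric function with a nontrivial split is constant (after switching) or has a
nontrivial split which no other split crosses; such a split is a P-cut. -/

set_option autoImplicit false

namespace Pool.Agent.SOC

variable {V : Type*}

/-- the normalised function at the base point `v` -/
def nrm (w : V → V → ZMod 2) (v x y : V) : ZMod 2 := w x y + w v x + w v y

/-- the bipartitions of `X` and `U` cross -/
def Crossing (X U : Set V) : Prop :=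
  (∃ p, p ∈ X ∧ p ∈ U) ∧ (∃ p, p ∈ X ∧ p ∉ U) ∧ (∃ p, p ∉ X ∧ p ∈ U) ∧ (∃ p, p ∉ X ∧ p ∉ U)

theorem zadd_self (t : ZMod 2) : t + t = 0 := by revert t; decide

theorem zadd_eq_zero {s t : ZMod 2} (h : s + t = 0) : s = t := by
  revert s t; decide

/-- complement of a split -/
theorem IsSplit.compl {e : ZMod 2} {w : V → V → ZMod 2} (hw : Skew e w) {X : Set V}
    (h : IsSplit w X) : IsSplit w Xᶜ := by
  intro x hx x' hx' y hy y' hy'
  have hy1 : y ∈ X := not_not.1 hy
  have hy2 : y' ∈ X := not_not.1 hy'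
  have ne : ∀ p q, p ∉ X → q ∈ X → p ≠ q := fun p q hp hq e => hp (e ▸ hq)
  rw [sep_comm hw (ne x y hx hy1) (ne x y' hx hy2) (ne x' y hx' hy1) (ne x' y' hx' hy2)]
  exact h y hy1 y' hy2 x hx x' hx'

/-- the module condition for the normalised function -/
def NMod (w : V → V → ZMod 2) (v : V) (X : Set V) : Prop :=
  v ∉ X ∧ ∀ x ∈ X, ∀ x' ∈ X, ∀ y, y ∉ X → y ≠ v → nrm w v x y = nrm w v x' y

theorem nmod_of_split {w : V → V → ZMod 2} (hw : Skew 0 w) {v : V} {X : Set V}
    (h : IsSplit w X) (hv : v ∉ X) : NMod w v X := by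
  refine ⟨hv, fun x hx x' hx' y hy _ => ?_⟩
  have h1 := h x hx x' hx' y hy v hv
  have ne : ∀ q, q ∈ X → v ≠ q := fun q hq e => hv (e ▸ hq)
  have e1 := zadd_eq_zero (hw v x (ne x hx))
  have e2 := zadd_eq_zero (hw v x' (ne x' hx'))
  unfold sep at h1
  unfold nrm
  apply zadd_eq_zero
  rw [e1, e2]
  have := zadd_self (w v y)
  linear_combination h1 + this

theorem split_of_nmod {w : V → V → ZMod 2} (hw : Skew 0 w) {v : V} {X : Set V}
    (h : NMod w v X) : IsSplit w X := by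
  have ne : ∀ q, q ∈ X → v ≠ q := fun q hq e => h.1 (e ▸ hq)
  have key : ∀ x ∈ X, ∀ x' ∈ X, ∀ y, y ∉ X → sep w x x' y v = 0 := by
    intro x hx x' hx' y hy
    by_cases hyv : y = v
    · subst hyv; exact sep_self_right w _ _ _
    have h1 := h.2 x hx x' hx' y hy hyv
    have e1 := zadd_eq_zero (hw v x (ne x hx))
    have e2 := zadd_eq_zero (hw v x' (ne x' hx'))
    unfold nrm at h1
    unfold sep
    rw [← e1, ← e2]
    have := zadd_self (w v y)
    have t1 := zadd_self (w x' y)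
    have t2 := zadd_self (w v x')
    linear_combination h1 + t1 + t2
  intro x hx x' hx' y hy y' hy'
  rw [← sep_add_right w x x' y v y', key x hx x' hx' y hy, sep_swap_right,
    key x hx x' hx' y' hy', add_zero]

theorem nrm_symm {w : V → V → ZMod 2} (hw : Skew 0 w) {v x y : V} (h : x ≠ y) :
    nrm w v x y = nrm w v y x := by
  unfold nrm
  rw [zadd_eq_zero (hw x y h)]
  ring

theorem rtg_symm {r : V → V → Prop} (h : ∀ x y, r x y → r y x) {a b : V}
    (hab : Relation.ReflTransGen r a b) : Relation.ReflTransGen r b a := by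
  induction hab with
  | refl => exact Relation.ReflTransGen.refl
  | tail _ h2 ih => exact Relation.ReflTransGen.head (h _ _ h2) ih

/-- reachability through pairs with value different from `c` -/
def Conn (w : V → V → ZMod 2) (v : V) (c : ZMod 2) : V → V → Prop :=
  Relation.ReflTransGen (fun x y => x ≠ v ∧ y ≠ v ∧ x ≠ y ∧ nrm w v x y ≠ c)

theorem conn_nmod {w : V → V → ZMod 2} {v : V} {c : ZMod 2} {x : V}
    (hx : x ≠ v) : NMod w v {y | Conn w v c x y} := by
  have hne : ∀ y, Conn w v c x y → y ≠ v := by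
    intro y hy
    rcases Relation.ReflTransGen.cases_tail hy with h | ⟨z, _, h⟩
    · exact h ▸ hx
    · exact h.2.1
  refine ⟨fun h => hne v h rfl, ?_⟩
  have key : ∀ p, Conn w v c x p → ∀ y, ¬ Conn w v c x y → y ≠ v → nrm w v p y = c := by
    intro p hp y hy hyv
    by_contra hc
    refine hy (Relation.ReflTransGen.tail hp ⟨hne p hp, hyv, ?_, hc⟩)
    intro e
    exact hy (e ▸ hp)
  intro p hp p' hp' y hy hyv
  rw [key p hp y hy hyv, key p' hp' y hy hyv]

theorem conn_strong {w : V → V → ZMod 2} (hw : Skew 0 w) {v : V} {c : ZMod 2} {x : V}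
    (hx : x ≠ v) {N : Set V} (hN : NMod w v N) : ¬ Crossing {y | Conn w v c x y} N := by
  rintro ⟨⟨p, hp, hpN⟩, ⟨q, hq, hqN⟩, ⟨m, hm, hmN⟩, -⟩
  -- symmetric relation
  have hsym : ∀ x y, (x ≠ v ∧ y ≠ v ∧ x ≠ y ∧ nrm w v x y ≠ c) →
      (y ≠ v ∧ x ≠ v ∧ y ≠ x ∧ nrm w v y x ≠ c) := by
    intro x y h
    exact ⟨h.2.1, h.1, h.2.2.1.symm, by rw [nrm_symm hw h.2.2.1.symm]; exact h.2.2.2⟩
  have hpq : Conn w v c p q := by
    have h1 : Conn w v c p x := rtg_symm hsym hp
    exact h1.trans hq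
  have hne : ∀ y, Conn w v c x y → y ≠ v := by
    intro y hy
    rcases Relation.ReflTransGen.cases_tail hy with h | ⟨z, _, h⟩
    · exact h ▸ hx
    · exact h.2.1
  have hmv : m ≠ v := fun e => hN.1 (e ▸ hmN)
  -- a step leaving N
  have hstep : ∀ z, Conn w v c p z → z ∉ N → ∃ s t, Conn w v c p s ∧ s ∈ N ∧ t ∉ N ∧
      (s ≠ v ∧ t ≠ v ∧ s ≠ t ∧ nrm w v s t ≠ c) := by
    intro z hz
    induction hz with
    | refl => exact fun h => absurd hpN h
    | tail h1 h2 ih =>
      rename_i b c'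
      intro hc
      by_cases hb : b ∈ N
      · exact ⟨b, c', h1, hb, hc, h2⟩
      · exact ih hb
  obtain ⟨s, t, hs1, hsN, htN, hs2, ht2, hst, hval⟩ := hstep q hpq hqN
  have hxs : Conn w v c x s := Relation.ReflTransGen.trans hp hs1
  have hxt : Conn w v c x t := Relation.ReflTransGen.tail hxs ⟨hs2, ht2, hst, hval⟩
  have h1 := hN.2 s hsN m hmN t htN ht2
  have h2 : nrm w v t m = c := by
    by_contra hc
    exact hm (Relation.ReflTransGen.tail hxt ⟨ht2, hmv, fun e => htN (by rw [e]; exact hmN), hc⟩)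
  have h3 : nrm w v m t = c := by
    have hne' : m ≠ t := by
      intro e
      rw [e] at hmN
      exact htN hmN
    rw [nrm_symm hw hne']; exact h2
  exact hval (h1.trans h3)

theorem NMod.union {w : V → V → ZMod 2} {v : V} {M N : Set V} (hM : NMod w v M)
    (hN : NMod w v N) (h : ∃ p, p ∈ M ∧ p ∈ N) : NMod w v (M ∪ N) := by
  obtain ⟨p, hp1, hp2⟩ := h
  refine ⟨fun h => h.elim hM.1 hN.1, ?_⟩
  have key : ∀ x ∈ M ∪ N, ∀ y, y ∉ M ∪ N → y ≠ v → nrm w v x y = nrm w v p y := by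
    intro x hx y hy hyv
    rcases hx with hx | hx
    · exact hM.2 x hx p hp1 y (fun t => hy (Or.inl t)) hyv
    · exact hN.2 x hx p hp2 y (fun t => hy (Or.inr t)) hyv
  intro x hx x' hx' y hy hyv
  rw [key x hx y hy hyv, key x' hx' y hy hyv]

theorem strong_or_const [Finite V] {w : V → V → ZMod 2} (hw : Skew 0 w) (v : V)
    (hex : ∃ X : Set V, Nontriv X ∧ IsSplit w X) :
    (∃ c, ∀ x y, x ≠ v → y ≠ v → x ≠ y → nrm w v x y = c) ∨
    ∃ X : Set V, Nontriv X ∧ IsSplit w X ∧ ∀ U, IsSplit w U → ¬ Crossing X U := by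
  classical
  -- nontrivial modules
  let P : Set (Set V) := {M | NMod w v M ∧ Nontriv M}
  have hP : P.Nonempty := by
    obtain ⟨X, hX1, hX2⟩ := hex
    by_cases hv : v ∈ X
    · refine ⟨Xᶜ, nmod_of_split hw (hX2.compl hw) (fun h => h hv), ?_⟩
      obtain ⟨⟨x, hx, x', hx', h1⟩, ⟨y, hy, y', hy', h2⟩⟩ := hX1
      exact ⟨⟨y, hy, y', hy', h2⟩, ⟨x, fun h => h hx, x', fun h => h hx', h1⟩⟩
    · exact ⟨X, nmod_of_split hw hX2 hv, hX1⟩
  obtain ⟨M, hM⟩ := (Set.toFinite P).exists_maximal hP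
  obtain ⟨hMm, hMn⟩ := hM.prop
  -- crossing with a split = crossing with a module
  have hred : ∀ X : Set V, v ∉ X → (∀ N, NMod w v N → ¬ Crossing X N) →
      ∀ U, IsSplit w U → ¬ Crossing X U := by
    intro X hX h U hU hc
    by_cases hv : v ∈ U
    · refine h Uᶜ (nmod_of_split hw (hU.compl hw) (fun h => h hv)) ?_
      obtain ⟨h1, h2, h3, h4⟩ := hc
      refine ⟨h2, ?_, h4, ?_⟩
      · obtain ⟨p, hp1, hp2⟩ := h1
        exact ⟨p, hp1, fun t => t hp2⟩
      · obtain ⟨p, hp1, hp2⟩ := h3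
        exact ⟨p, hp1, fun t => t hp2⟩
    · exact h U (nmod_of_split hw hU hv) hc
  by_cases hstr : ∀ N, NMod w v N → ¬ Crossing M N
  · exact Or.inr ⟨M, hMn, split_of_nmod hw hMm, hred M hMm.1 hstr⟩
  push Not at hstr
  obtain ⟨N, hN, ⟨p, hpM, hpN⟩, ⟨q, hqM, hqN⟩, ⟨r, hrM, hrN⟩, -⟩ := hstr
  -- the union is everything except v
  have hun : ∀ z, z ≠ v → z ∈ M ∪ N := by
    intro z hz
    by_contra hzn
    have h1 : M ∪ N ∈ P := by
      refine ⟨hMm.union hN ⟨p, hpM, hpN⟩, ?_, ?_⟩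
      · exact ⟨q, Or.inl hqM, r, Or.inr hrN, fun e => hrM (e ▸ hqM)⟩
      · exact ⟨v, fun t => t.elim hMm.1 hN.1, z, hzn, hz.symm⟩
    have h2 := hM.le_of_ge h1 Set.subset_union_left
    exact hrM (h2 (Or.inr hrN))
  -- the constant
  have hrv : r ≠ v := fun e => hN.1 (e ▸ hrN)
  have hqv : q ≠ v := fun e => hMm.1 (e ▸ hqM)
  set c := nrm w v q r with hc
  have hcross : ∀ x ∈ M, ∀ y, y ∉ M → y ≠ v → nrm w v x y = c := by
    intro x hx y hy hyv
    have hyN : y ∈ N := (hun y hyv).resolve_left hy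
    rw [hMm.2 x hx q hqM y hy hyv]
    have hqy : q ≠ y := fun e => hy (e ▸ hqM)
    have hqr : q ≠ r := fun e => hrM (e ▸ hqM)
    rw [nrm_symm hw hqy, hN.2 y hyN r hrN q hqN hqv, nrm_symm hw hqr.symm]
  -- components
  by_cases hall : ∀ x y, x ≠ v → y ≠ v → x ≠ y → nrm w v x y = c
  · exact Or.inl ⟨c, hall⟩
  push Not at hall
  obtain ⟨x, y, hx, hy, hxy, hval⟩ := hall
  refine Or.inr ⟨{z | Conn w v c x z}, ?_, split_of_nmod hw (conn_nmod hx),
    hred _ (conn_nmod hx).1 (fun N hN => conn_strong hw hx hN)⟩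
  have hcxy : Conn w v c x y := Relation.ReflTransGen.single ⟨hx, hy, hxy, hval⟩
  -- a reachable point stays on its side of M
  have hside : ∀ z, Conn w v c x z → (x ∈ M ↔ z ∈ M) := by
    intro z hz
    induction hz with
    | refl => exact Iff.rfl
    | tail h1 h2 ih =>
      rename_i b d
      rw [ih]
      constructor
      · intro hb
        by_contra hd
        exact h2.2.2.2 (hcross b hb d hd h2.2.1)
      · intro hd
        by_contra hb
        exact h2.2.2.2 (by rw [nrm_symm hw h2.2.2.1]; exact hcross d hd b hb h2.1)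
  refine ⟨⟨x, Relation.ReflTransGen.refl, y, hcxy, hxy⟩, ?_⟩
  refine ⟨v, fun h => (conn_nmod (w := w) (c := c) hx).1 h, ?_⟩
  by_cases hxM : x ∈ M
  · exact ⟨r, fun h => hrM ((hside r h).1 hxM), hrv.symm⟩
  · exact ⟨q, fun h => hxM ((hside q h).2 hqM), hqv.symm⟩

/-- an uncrossed split of a solution is a P-cut -/
theorem pcut_of_strong {G : SimpleGraph V} (hG : G.Preconnected) {w : V → V → ZMod 2}
    (hs : IsSol G w) {X : Set V} (h : ∀ U, IsSplit w U → ¬ Crossing X U) : IsPCut G X := by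
  intro x hx x' hx' y hy y' hy' hr
  obtain ⟨U, h1, h2, h3, h4, h5⟩ := thmA hG hs hr
  exact h U h5 ⟨⟨x, hx, h1⟩, ⟨x', hx', h3⟩, ⟨y, hy, h2⟩, ⟨y', hy', h4⟩⟩

end Pool.Agent.SOC
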