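import Pool.Agent.SOC.Defs

/-! Project SOC, module ThmA: every rigid pair is separated by a split of a solution. -/

set_option autoImplicit false

namespace Pool.Agent.SOC

variable {V : Type*}

theorem sep_add_left (w : V → V → ZMod 2) (x y z p q : V) :
    sep w x y p q + sep w y z p q = sep w x z p q := by
  unfold sep
  have h : ∀ t : ZMod 2, t + t = 0 := by decide
  linear_combination h (w y p) + h (w y q)

theorem sep_add_right (w : V → V → ZMod 2) (x y p q r : V) :
    sep w x y p q + sep w x y q r = sep w x y p r := by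
  unfold sep
  have h : ∀ t : ZMod 2, t + t = 0 := by decide
  linear_combination h (w x q) + h (w y q)

theorem sep_swap_left (w : V → V → ZMod 2) (x y p q : V) : sep w x y p q = sep w y x p q := by
  unfold sep; ring

theorem sep_swap_right (w : V → V → ZMod 2) (x y p q : V) : sep w x y p q = sep w x y q p := by
  unfold sep; ring

/-- for different points, `sep` is symmetric in the two pairs -/
theorem sep_comm {e : ZMod 2} {w : V → V → ZMod 2} (hw : Skew e w) {a b c d : V} (h1 : a ≠ c)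
    (h2 : a ≠ d) (h3 : b ≠ c) (h4 : b ≠ d) : sep w a b c d = sep w c d a b := by
  unfold sep
  have e1 := hw a c h1
  have e2 := hw a d h2
  have e3 := hw b c h3
  have e4 := hw b d h4
  have h : ∀ t : ZMod 2, t + t = 0 := by decide
  linear_combination e1 + e2 + e3 + e4 + h (e + e) - h (w c a) - h (w d a) - h (w c b) - h (w d b)

theorem sep_self_left (w : V → V → ZMod 2) (x p q : V) : sep w x x p q = 0 := by
  unfold sep
  have h : ∀ t : ZMod 2, t + t = 0 := by decide
  linear_combination h (w x p) + h (w x q)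

theorem sep_self_right (w : V → V → ZMod 2) (x y p : V) : sep w x y p p = 0 := by
  unfold sep
  have h : ∀ t : ZMod 2, t + t = 0 := by decide
  linear_combination h (w x p) + h (w y p)

theorem zmod2_cases (t : ZMod 2) : t = 0 ∨ t = 1 := by
  revert t; decide

theorem Rigid.symm {G : SimpleGraph V} {a b c d : V} (h : Rigid G a b c d) : Rigid G c d a b :=
  ⟨h.cd, h.ab, h.ac.symm, h.bc.symm, h.ad.symm, h.bd.symm,
    fun k => h.n1 ⟨k.1.symm, k.2.symm⟩, fun k => h.n2 ⟨k.2.symm, k.1.symm⟩⟩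

theorem Rigid.swap {G : SimpleGraph V} {a b c d : V} (h : Rigid G a b c d) : Rigid G b a c d :=
  ⟨h.ab.symm, h.cd, h.bc, h.bd, h.ac, h.ad, fun k => h.n2 ⟨k.2, k.1⟩, fun k => h.n1 ⟨k.2, k.1⟩⟩

theorem Rigid.swap' {G : SimpleGraph V} {a b c d : V} (h : Rigid G a b c d) : Rigid G a b d c :=
  ⟨h.ab, h.cd.symm, h.ad, h.ac, h.bd, h.bc, fun k => h.n2 k, fun k => h.n1 k⟩

/-- the levels of the forcing relation -/
def Lev (w : V → V → ZMod 2) (a c d : V) : ℕ → V → Prop
  | 0, y => y ≠ a ∧ y ≠ c ∧ y ≠ d ∧ sep w y a c d = 1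
  | k + 1, y => y ≠ a ∧ y ≠ c ∧ y ≠ d ∧ ∃ y', Lev w a c d k y' ∧ y' ≠ y ∧ sep w y a y' c = 1

theorem Lev.ne {w : V → V → ZMod 2} {a c d : V} {k : ℕ} {y : V} (h : Lev w a c d k y) :
    y ≠ a ∧ y ≠ c ∧ y ≠ d := by
  cases k with
  | zero => exact ⟨h.1, h.2.1, h.2.2.1⟩
  | succ k => exact ⟨h.1, h.2.1, h.2.2.1⟩

theorem Lev.mk_succ {w : V → V → ZMod 2} {a c d : V} {k : ℕ} {y y' : V} (h1 : y ≠ a) (h2 : y ≠ c)
    (h3 : y ≠ d) (h : Lev w a c d k y') (h4 : y' ≠ y) (h5 : sep w y a y' c = 1) :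
    Lev w a c d (k + 1) y := ⟨h1, h2, h3, y', h, h4, h5⟩

/-- change of the base point -/
theorem Lev.base {w : V → V → ZMod 2} {a c d p : V} {M : ℕ} (h0 : sep w a p c d = 0)
    (h1 : ∀ j, j < M → ∀ y, Lev w a c d j y → sep w a p y c = 0)
    (h2 : ∀ j, j ≤ M → ∀ y, Lev w a c d j y → y ≠ p) :
    ∀ j, j ≤ M → ∀ y, Lev w a c d j y → Lev w p c d j y := by
  intro j
  induction j with
  | zero =>
    intro hj y hy
    refine ⟨h2 0 hj y hy, hy.2.1, hy.2.2.1, ?_⟩
    rw [← sep_add_left w y a p c d, hy.2.2.2, h0, add_zero]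
  | succ j ih =>
    intro hj y hy
    obtain ⟨_, e2, e3, y', e4, e5, e6⟩ := id hy
    refine ⟨h2 (j + 1) hj y hy, e2, e3, y', ih (by omega) y' e4, e5, ?_⟩
    rw [← sep_add_left w y a p y' c, e6, h1 j (by omega) y' e4, add_zero]

theorem not_lev {G : SimpleGraph V} (hG : G.Preconnected) {w : V → V → ZMod 2}
    (hs : IsSol G w) (k : ℕ) :
    ∀ a b c d, Rigid G a b c d → ¬ Lev w a c d k b := by
  induction k using Nat.strong_induction_on with
  | _ k ih =>
  intro a b c d h hb
  have hab0 : sep w a b c d = 0 := hs a b c d h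
  have hba0 : sep w b a c d = 0 := by rw [sep_swap_left]; exact hab0
  have ne01 : (0 : ZMod 2) ≠ 1 := by decide
  cases k with
  | zero =>
    have := hb.2.2.2
    rw [hba0] at this
    exact ne01 this
  | succ m =>
  obtain ⟨b1, b2, b3, z0, hz0, hz0b, hz0s⟩ := hb
  -- minimality
  have hmin : ∀ j, j ≤ m → ¬ Lev w a c d j b := fun j hj => ih j (by omega) a b c d h
  have hmin2 : ∀ j, j < m → ∀ y, Lev w a c d j y → sep w b a y c = 0 := by
    intro j hj y hy
    rcases zmod2_cases (sep w b a y c) with h' | h'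
    · exact h'
    · exact absurd (Lev.mk_succ b1 b2 b3 hy (fun e => hmin j hj.le (e ▸ hy)) h')
        (hmin (j + 1) hj)
  -- the set W
  let W : V → Prop := fun z => Lev w a c d m z ∧ z ≠ b ∧ sep w b a z c = 1
  have hWd : ∀ z, W z → sep w b a z d = 1 := by
    intro z hz
    rw [← sep_add_right w b a z c d, hz.2.2, hba0, add_zero]
  -- z in W and a level j < m : different from z
  have hWne : ∀ z, W z → ∀ j, j < m → ∀ y, Lev w a c d j y → y ≠ z := by
    intro z hz j hj y hy e
    subst e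
    exact ne01 ((hmin2 j hj y hy).symm.trans hz.2.2)
  have hWlev : ∀ z, W z → ∀ j, j < m → ¬ Lev w a c d j z := fun z hz j hj hy =>
    hWne z hz j hj z hy rfl
  -- (gamma)
  have hgc : ∀ z, W z → ¬ Rigid G a b z c := by
    intro z hz hr
    have := hs _ _ _ _ hr
    rw [sep_swap_left, hz.2.2] at this
    exact ne01 this.symm
  have hgd : ∀ z, W z → ¬ Rigid G a b z d := by
    intro z hz hr
    have := hs _ _ _ _ hr
    rw [sep_swap_left, hWd z hz] at this
    exact ne01 this.symm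
  -- (alpha)
  have halpha : ∀ z, W z → ¬ G.Adj a z → ¬ G.Adj b z → ∀ z', G.Adj z z' → W z' := by
    intro z hz haz hbz z' hzz'
    obtain ⟨za, zc, zd⟩ := hz.1.ne
    have zb := hz.2.1
    have z'a : z' ≠ a := fun e => haz (e ▸ hzz'.symm)
    have z'b : z' ≠ b := fun e => hbz (e ▸ hzz'.symm)
    have hzc : ¬ G.Adj z c := fun k => hgc z hz
      ⟨h.ab, k, za.symm, h.ac, zb.symm, h.bc, fun t => haz t.1, fun t => hbz t.2⟩
    have hzd : ¬ G.Adj z d := fun k => hgd z hz
      ⟨h.ab, k, za.symm, h.ad, zb.symm, h.bd, fun t => haz t.1, fun t => hbz t.2⟩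
    have z'c : z' ≠ c := fun e => hzc (e ▸ hzz')
    have z'd : z' ≠ d := fun e => hzd (e ▸ hzz')
    have r1 : Rigid G a b z z' := ⟨h.ab, hzz', za.symm, z'a.symm, zb.symm, z'b.symm,
      fun t => haz t.1, fun t => hbz t.2⟩
    have r2 : Rigid G z z' c d := ⟨hzz', h.cd, zc, zd, z'c, z'd, fun t => hzc t.1,
      fun t => hzd t.1⟩
    have s1 : sep w b a z' c = 1 := by
      rw [← sep_add_right w b a z' z c, hz.2.2, sep_swap_right, sep_swap_left, hs _ _ _ _ r1,
        zero_add]
    refine ⟨?_, z'b, s1⟩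
    cases m with
    | zero =>
      refine ⟨z'a, z'c, z'd, ?_⟩
      rw [← sep_add_left w z' z a c d, sep_swap_left, hs _ _ _ _ r2, hz.1.2.2.2, zero_add]
    | succ n =>
      obtain ⟨_, _, _, y, hy, hyz, hys⟩ := hz.1
      have hyz' : y ≠ z' := by
        intro e
        subst e
        exact ne01 ((hmin2 n (by omega) _ hy).symm.trans s1)
      refine Lev.mk_succ z'a z'c z'd hy hyz' ?_
      rw [← sep_add_left w z' z a y c, hys]
      rcases zmod2_cases (sep w z' z y c) with h' | h'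
      · rw [h', zero_add]
      · exfalso
        -- base change to z
        have hb1 : Lev w z c d n y := by
          refine Lev.base (M := n) ?_ ?_ ?_ n le_rfl y hy
          · rcases zmod2_cases (sep w a z c d) with t | t
            · exact t
            · exfalso
              exact hWlev z hz 0 (by omega) ⟨za, zc, zd, by rw [sep_swap_left]; exact t⟩
          · intro j hj x hx
            rcases zmod2_cases (sep w a z x c) with t | t
            · exact t
            · exfalso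
              exact hWlev z hz (j + 1) (by omega) (Lev.mk_succ za zc zd hx
                (hWne z hz j (by omega) x hx) (by rw [sep_swap_left]; exact t))
          · intro j hj x hx
            exact hWne z hz j (by omega) x hx
        exact ih (n + 1) (by omega) z z' c d r2
          (Lev.mk_succ hzz'.ne' z'c z'd hb1 hyz' h')
  -- (conn)
  have hconn : ∃ z, W z ∧ (G.Adj a z ∨ G.Adj b z) := by
    by_contra hcon
    push Not at hcon
    have hcl : ∀ z z', W z → G.Adj z z' → W z' := fun z z' hz hzz' =>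
      halpha z hz (hcon z hz).1 (hcon z hz).2 z' hzz'
    have hall : ∀ z x, G.Reachable z x → W z → W x := by
      intro z x ⟨p⟩
      induction p with
      | nil => exact id
      | cons hadj p ih' => exact fun hz => ih' (hcl _ _ hz hadj)
    exact (hall z0 a (hG z0 a) ⟨hz0, hz0b, hz0s⟩).1.ne.1 rfl
  -- (beta)
  have hba : ∀ z, W z → ¬ Rigid G a z c d := fun z hz hr =>
    ih m (by omega) a z c d hr hz.1
  have hbb : ∀ z, W z → ¬ Rigid G b z c d := by
    intro z hz hr
    refine ih m (by omega) b z c d hr ?_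
    refine Lev.base (M := m) hab0 ?_ ?_ m le_rfl z hz.1
    · intro j hj y hy
      rw [sep_swap_left]
      exact hmin2 j hj y hy
    · intro j hj y hy e
      exact hmin j hj (e ▸ hy)
  obtain ⟨z, hz, hadj⟩ := hconn
  obtain ⟨za, zc, zd⟩ := hz.1.ne
  have zb := hz.2.1
  have f1 : G.Adj a z → (G.Adj a c ∧ G.Adj z d) ∨ (G.Adj a d ∧ G.Adj z c) := by
    intro t
    by_contra hc
    push Not at hc
    exact hba z hz ⟨t, h.cd, h.ac, h.ad, zc, zd, fun u => hc.1 u.1 u.2, fun u => hc.2 u.1 u.2⟩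
  have f2 : G.Adj b z → (G.Adj b c ∧ G.Adj z d) ∨ (G.Adj b d ∧ G.Adj z c) := by
    intro t
    by_contra hc
    push Not at hc
    exact hbb z hz ⟨t, h.cd, h.bc, h.bd, zc, zd, fun u => hc.1 u.1 u.2, fun u => hc.2 u.1 u.2⟩
  have f3 : G.Adj z c → (G.Adj a z ∧ G.Adj b c) ∨ (G.Adj a c ∧ G.Adj b z) := by
    intro t
    by_contra hc
    push Not at hc
    exact hgc z hz ⟨h.ab, t, za.symm, h.ac, zb.symm, h.bc, fun u => hc.1 u.1 u.2,
      fun u => hc.2 u.1 u.2⟩
  have f4 : G.Adj z d → (G.Adj a z ∧ G.Adj b d) ∨ (G.Adj a d ∧ G.Adj b z) := by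
    intro t
    by_contra hc
    push Not at hc
    exact hgd z hz ⟨h.ab, t, za.symm, h.ad, zb.symm, h.bd, fun u => hc.1 u.1 u.2,
      fun u => hc.2 u.1 u.2⟩
  have n1 := h.n1
  have n2 := h.n2
  rcases hadj with ha | hb
  · rcases f1 ha with ⟨u1, u2⟩ | ⟨u1, u2⟩
    · rcases f4 u2 with ⟨_, v2⟩ | ⟨v1, v2⟩
      · exact n1 ⟨u1, v2⟩
      · rcases f2 v2 with ⟨t1, _⟩ | ⟨t1, _⟩
        · exact n2 ⟨v1, t1⟩
        · exact n1 ⟨u1, t1⟩
    · rcases f3 u2 with ⟨_, v2⟩ | ⟨v1, v2⟩
      · exact n2 ⟨u1, v2⟩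
      · rcases f2 v2 with ⟨t1, _⟩ | ⟨t1, _⟩
        · exact n2 ⟨u1, t1⟩
        · exact n1 ⟨v1, t1⟩
  · rcases f2 hb with ⟨u1, u2⟩ | ⟨u1, u2⟩
    · rcases f4 u2 with ⟨v1, v2⟩ | ⟨v1, _⟩
      · rcases f1 v1 with ⟨t1, _⟩ | ⟨t1, _⟩
        · exact n1 ⟨t1, v2⟩
        · exact n2 ⟨t1, u1⟩
      · exact n2 ⟨v1, u1⟩
    · rcases f3 u2 with ⟨v1, v2⟩ | ⟨v1, _⟩
      · rcases f1 v1 with ⟨t1, _⟩ | ⟨t1, _⟩
        · exact n1 ⟨t1, u1⟩
        · exact n2 ⟨t1, v2⟩
      · exact n1 ⟨v1, u1⟩

/-- **Theorem A.** In a connected graph every rigid pair of edges is separated by a split of any solution of the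
linear equations (symmetric function or tournament). -/
theorem thmA {G : SimpleGraph V} (hG : G.Preconnected) {w : V → V → ZMod 2}
    (hs : IsSol G w) {a b c d : V} (h : Rigid G a b c d) :
    ∃ X : Set V, a ∈ X ∧ b ∈ X ∧ c ∉ X ∧ d ∉ X ∧ IsSplit w X := by
  have hk := fun k => not_lev hG hs k a b c d h
  refine ⟨{x | x ≠ c ∧ x ≠ d ∧ ∀ k, ¬ Lev w a c d k x}, ?_, ?_, ?_, ?_, ?_⟩
  · exact ⟨h.ac, h.ad, fun k hk' => hk'.ne.1 rfl⟩
  · exact ⟨h.bc, h.bd, hk⟩
  · exact fun t => t.1 rfl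
  · exact fun t => t.2.1 rfl
  · have key : ∀ x, (x ≠ c ∧ x ≠ d ∧ ∀ k, ¬ Lev w a c d k x) →
        ∀ y, ¬ (y ≠ c ∧ y ≠ d ∧ ∀ k, ¬ Lev w a c d k y) → sep w x a y c = 0 := by
      intro x hx y hy
      by_cases hxa : x = a
      · subst hxa; exact sep_self_left w _ _ _
      by_cases hyc : y = c
      · subst hyc; exact sep_self_right w _ _ _
      rcases zmod2_cases (sep w x a y c) with t | t
      · exact t
      exfalso
      by_cases hyd : y = d
      · subst hyd
        exact hx.2.2 0 ⟨hxa, hx.1, hx.2.1, by rw [sep_swap_right]; exact t⟩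
      · have : ∃ k, Lev w a c d k y := by
          by_contra hc
          push Not at hc
          exact hy ⟨hyc, hyd, hc⟩
        obtain ⟨k, hk1⟩ := this
        refine hx.2.2 (k + 1) (Lev.mk_succ hxa hx.1 hx.2.1 hk1 ?_ t)
        intro e
        subst e
        exact hx.2.2 k hk1
    intro x hx x' hx' y hy y' hy'
    have k1 := key x hx y hy
    have k2 := key x hx y' hy'
    have k3 := key x' hx' y hy
    have k4 := key x' hx' y' hy'
    rw [← sep_add_left w x a x' y y', sep_swap_left w a x', ← sep_add_right w x a y c y',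
      ← sep_add_right w x' a y c y', k1, k3, sep_swap_right w x a c y', sep_swap_right w x' a c y',
      k2, k4]
    decide

end Pool.Agent.SOC
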