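import Pool.Agent.SOC.Drawing

/-! Project SOC, module Walk: combinatorics and geometry of smooth paths. -/

set_option autoImplicit false

open Set

namespace Pool.Agent.SOC

namespace Drawing

variable {V : Type} {D : Drawing V}

/-- the reversed dart -/
def Walk_rv (d : D.Dart) : D.Dart := (d.1, !d.2)

theorem Walk_beg_rv (d : D.Dart) : beg (Walk_rv d) = fin d := by
  obtain ⟨a, b⟩ := d
  cases b <;> rfl

theorem Walk_fin_rv (d : D.Dart) : fin (Walk_rv d) = beg d := by
  obtain ⟨a, b⟩ := d
  cases b <;> rfl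

theorem Walk_vout_rv (d : D.Dart) : vout (Walk_rv d) = - vin d := by
  obtain ⟨a, b⟩ := d
  cases b
  · change derivWithin (D.curve a) (Icc 0 1) 0 = - - derivWithin (D.curve a) (Icc 0 1) 0
    rw [neg_neg]
  · rfl

theorem Walk_vin_rv (d : D.Dart) : vin (Walk_rv d) = - vout d := by
  obtain ⟨a, b⟩ := d
  cases b
  · change derivWithin (D.curve a) (Icc 0 1) 1 = - - derivWithin (D.curve a) (Icc 0 1) 1
    rw [neg_neg]
  · rfl

theorem Walk_follows_rv {d e : D.Dart} (h : Follows d e) : Follows (Walk_rv e) (Walk_rv d) := by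
  obtain ⟨h1, ⟨j, h2⟩, h3⟩ := h
  refine ⟨?_, ⟨j, ?_⟩, ?_⟩
  · rw [Walk_beg_rv, Walk_fin_rv, h1]
  · rw [Walk_beg_rv, h1, h2]
  · rw [Walk_vin_rv, Walk_vout_rv, sameRay_neg_iff]
    exact h3.symm

theorem Walk_map_eq : ∀ {p : List D.Dart}, p.IsChain Follows → p.dropLast.map fin = p.tail.map beg
  | [], _ => rfl
  | [_], _ => rfl
  | x :: y :: l, h => by
    rw [List.isChain_cons_cons] at h
    have ih := Walk_map_eq h.2
    rw [List.dropLast_cons_cons, List.map_cons, ih, h.1.1]
    rfl

/-- the reversed list -/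
def Walk_rev (p : List D.Dart) : List D.Dart := (p.map Walk_rv).reverse

theorem Walk_rev_chain {p : List D.Dart} (h : p.IsChain Follows) : (Walk_rev p).IsChain Follows := by
  unfold Walk_rev
  rw [List.isChain_reverse, List.isChain_map]
  exact h.imp fun _ _ hab => Walk_follows_rv hab

theorem Walk_rev_head (p : List D.Dart) : (Walk_rev p).head?.map beg = p.getLast?.map fin := by
  unfold Walk_rev
  rw [List.head?_reverse, List.getLast?_map, Option.map_map]
  congr 1
  funext d
  exact Walk_beg_rv d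

theorem Walk_rev_last (p : List D.Dart) : (Walk_rev p).getLast?.map fin = p.head?.map beg := by
  unfold Walk_rev
  rw [List.getLast?_reverse, List.head?_map, Option.map_map]
  congr 1
  funext d
  exact Walk_fin_rv d

theorem Walk_rev_map (p : List D.Dart) : (Walk_rev p).map beg = (p.map fin).reverse := by
  unfold Walk_rev
  rw [List.map_reverse, List.map_map]
  congr 2
  funext d
  exact Walk_beg_rv d

theorem Walk_rev_tail (p : List D.Dart) : (Walk_rev p).tail.map beg = (p.dropLast.map fin).reverse := by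
  unfold Walk_rev
  rw [List.tail_reverse, ← List.map_dropLast]
  exact Walk_rev_map p.dropLast

theorem Walk_first {α : Type*} (P : α → Prop) : ∀ (l : List α), (∃ x ∈ l, P x) →
    ∃ l1 x l2, l = l1 ++ x :: l2 ∧ P x ∧ ∀ y ∈ l1, ¬ P y
  | [], h => by
    obtain ⟨x, hx, _⟩ := h
    exact absurd hx (List.not_mem_nil)
  | y :: l, h => by
    by_cases hy : P y
    · exact ⟨[], y, l, rfl, hy, fun z hz => absurd hz (List.not_mem_nil)⟩
    · obtain ⟨x, hx, hPx⟩ := h
      have hx' : x ∈ l := by
        rcases List.mem_cons.1 hx with rfl | h1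
        · exact absurd hPx hy
        · exact h1
      obtain ⟨l1, x', l2, h1, h2, h3⟩ := Walk_first P l ⟨x, hx', hPx⟩
      refine ⟨y :: l1, x', l2, by rw [h1]; rfl, h2, fun z hz => ?_⟩
      rcases List.mem_cons.1 hz with rfl | h4
      · exact hy
      · exact h3 z h4

theorem Walk_vin {d : D.Dart} {j : D.J} (h : fin d = Sum.inr j) :
    vin d ≠ 0 ∧ ∃ r : ℝ, vin d = r • D.line j := by
  obtain ⟨a, b⟩ := d
  cases b
  · have h' : D.src a = Sum.inr j := h
    refine ⟨?_, ?_⟩
    · change - derivWithin (D.curve a) (Icc 0 1) 0 ≠ 0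
      rw [neg_ne_zero]
      exact D.regular a 0 ⟨le_rfl, zero_le_one⟩
    · obtain ⟨r, hr⟩ := D.tangent_src a j h'
      refine ⟨-r, ?_⟩
      change - derivWithin (D.curve a) (Icc 0 1) 0 = (-r) • D.line j
      rw [hr, neg_smul]
  · have h' : D.tgt a = Sum.inr j := h
    refine ⟨?_, ?_⟩
    · change derivWithin (D.curve a) (Icc 0 1) 1 ≠ 0
      exact D.regular a 1 ⟨zero_le_one, le_rfl⟩
    · obtain ⟨r, hr⟩ := D.tangent_tgt a j h'
      exact ⟨r, hr⟩

theorem Walk_vout {d : D.Dart} {j : D.J} (h : beg d = Sum.inr j) :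
    vout d ≠ 0 ∧ ∃ r : ℝ, vout d = r • D.line j := by
  have h1 := Walk_vin (d := Walk_rv d) (j := j) (by rw [Walk_fin_rv]; exact h)
  rw [Walk_vin_rv] at h1
  refine ⟨neg_ne_zero.1 h1.1, ?_⟩
  obtain ⟨r, hr⟩ := h1.2
  exact ⟨-r, by rw [neg_smul, ← hr, neg_neg]⟩

theorem Walk_ray {d e : D.Dart} {j : D.J} (hd : fin d = Sum.inr j) (he : beg e = Sum.inr j) :
    SameRay ℝ (vin d) (vout e) ∨ SameRay ℝ (vin d) (- vout e) := by
  obtain ⟨h1, r, hr⟩ := Walk_vin hd
  obtain ⟨h2, s, hs⟩ := Walk_vout he
  rw [hr] at h1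
  rw [hs] at h2
  have hr0 : r ≠ 0 := fun h => h1 (by rw [h, zero_smul])
  have hs0 : s ≠ 0 := fun h => h2 (by rw [h, zero_smul])
  rw [hr, hs]
  have key : ∀ {r s : ℝ}, 0 < r * s → SameRay ℝ (r • D.line j) (s • D.line j) := by
    intro r s h
    rcases (mul_pos_iff.1 h) with ⟨h3, h4⟩ | ⟨h3, h4⟩
    · exact ((SameRay.refl (R := ℝ) (D.line j)).pos_smul_left h3).pos_smul_right h4
    · have h5 := ((SameRay.refl (R := ℝ) (D.line j)).pos_smul_left (neg_pos.2 h3)).pos_smul_right (neg_pos.2 h4)
      rw [neg_smul, neg_smul, sameRay_neg_iff] at h5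
      exact h5
  rcases lt_or_gt_of_ne (mul_ne_zero hr0 hs0) with h | h
  · right
    rw [← neg_smul]
    exact key (by rw [mul_neg]; exact neg_pos.2 h)
  · left
    exact key h

theorem Walk_inr : ∀ {p : List D.Dart}, p.IsChain Follows → ∀ x ∈ p.tail.map beg, ∃ j, x = Sum.inr j
  | [], _, x, hx => absurd hx (by simp)
  | [_], _, x, hx => absurd hx (by simp)
  | d :: e :: l, h, x, hx => by
    rw [List.isChain_cons_cons] at h
    change x ∈ (e :: l).map beg at hx
    rw [List.map_cons, List.mem_cons] at hx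
    rcases hx with rfl | hx
    · exact h.1.2.1
    · exact Walk_inr h.2 x hx

theorem Walk_beg {u v : V} {p : List D.Dart} (h : IsSmoothPath u v p) {e : D.Dart} (he : e ∈ p) :
    beg e = Sum.inl u ∨ beg e ∈ p.tail.map beg := by
  obtain ⟨_, h2, _, _⟩ := h
  cases p with
  | nil => exact absurd he (List.not_mem_nil)
  | cons d l =>
    rcases List.mem_cons.1 he with rfl | h4
    · left
      have h5 : some (beg e) = some (Sum.inl u) := h2
      exact Option.some_injective _ h5
    · right
      exact List.mem_map_of_mem h4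

theorem Walk_rev_smooth {u v : V} {p : List D.Dart} (h : IsSmoothPath u v p) :
    IsSmoothPath v u (Walk_rev p) := by
  obtain ⟨h1, h2, h3, h4⟩ := h
  refine ⟨Walk_rev_chain h1, ?_, ?_, ?_⟩
  · rw [Walk_rev_head]; exact h3
  · rw [Walk_rev_last]; exact h2
  · rw [Walk_rev_tail, Walk_map_eq h1, List.nodup_reverse]
    exact h4

theorem Walk_fin {u v : V} {p : List D.Dart} (h : IsSmoothPath u v p) {e : D.Dart} (he : e ∈ p) :
    fin e = Sum.inl v ∨ fin e ∈ p.tail.map beg := by
  have he' : Walk_rv e ∈ Walk_rev p := by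
    unfold Walk_rev
    rw [List.mem_reverse]
    exact List.mem_map_of_mem he
  have h1 := Walk_beg (Walk_rev_smooth h) he'
  rw [Walk_beg_rv, Walk_rev_tail, Walk_map_eq h.1, List.mem_reverse] at h1
  exact h1

/-- the path of a dart -/
theorem Walk_dart (d : D.Dart) : ∃ g : Path (D.pos (beg d)) (D.pos (fin d)),
    ∀ t, ∃ x ∈ Icc (0 : ℝ) 1, g t = D.curve d.1 x := by
  obtain ⟨a, b⟩ := d
  have hc : ContinuousOn (D.curve a) (Icc 0 1) := (D.smooth a).continuousOn
  have key : ∃ g : Path (D.pos (D.src a)) (D.pos (D.tgt a)), ∀ t, ∃ x ∈ Icc (0 : ℝ) 1, g t = D.curve a x :=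
    ⟨{ toFun := fun t => D.curve a t
       continuous_toFun := continuousOn_iff_continuous_domRestrict.1 hc
       source' := D.start a
       target' := D.finish a }, fun t => ⟨t, t.2, rfl⟩⟩
  obtain ⟨g, hg⟩ := key
  cases b
  · exact ⟨g.symm, fun t => hg (unitInterval.symm t)⟩
  · exact ⟨g, hg⟩

theorem Walk_path : ∀ (p : List D.Dart) (x y : V ⊕ D.J), p.IsChain Follows → p.head?.map beg = some x →
    p.getLast?.map fin = some y → ∃ g : Path (D.pos x) (D.pos y),
      ∀ t, ∃ e ∈ p, ∃ z ∈ Icc (0 : ℝ) 1, g t = D.curve e.1 z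
  | [], x, y, _, h, _ => by
    exact absurd h (by simp)
  | [d], x, y, _, hx, hy => by
    have hx' : beg d = x := Option.some_injective _ hx
    have hy' : fin d = y := Option.some_injective _ hy
    subst hx' hy'
    obtain ⟨g, hg⟩ := Walk_dart d
    exact ⟨g, fun t => ⟨d, List.mem_singleton.2 rfl, hg t⟩⟩
  | d :: e :: l, x, y, h, hx, hy => by
    rw [List.isChain_cons_cons] at h
    have hx' : beg d = x := Option.some_injective _ hx
    subst hx'
    have hy' : (e :: l).getLast?.map fin = some y := by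
      rw [List.getLast?_cons_cons] at hy
      exact hy
    obtain ⟨g2, hg2⟩ := Walk_path (e :: l) (beg e) y h.2 rfl hy'
    obtain ⟨g1, hg1⟩ : ∃ g : Path (D.pos (beg d)) (D.pos (beg e)),
        ∀ t, ∃ x ∈ Icc (0 : ℝ) 1, g t = D.curve d.1 x := by
      have h5 := Walk_dart d
      rwa [h.1.1] at h5
    refine ⟨g1.trans g2, fun t => ?_⟩
    have ht : (g1.trans g2) t ∈ range (g1.trans g2) := mem_range_self t
    rw [Path.trans_range] at ht
    rcases ht with ⟨s, hs⟩ | ⟨s, hs⟩
    · rw [← hs]
      exact ⟨d, List.mem_cons_self, hg1 s⟩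
    · rw [← hs]
      obtain ⟨e', he', h5⟩ := hg2 s
      exact ⟨e', List.mem_cons_of_mem _ he', h5⟩

/-- a smooth path can be traversed backwards: reverse the list and every dart (vout of the reversed dart is -vin) -/
theorem exists_reverse {u v : V} {p : List D.Dart} (h : IsSmoothPath u v p) :
    ∃ q : List D.Dart, IsSmoothPath v u q :=
  ⟨_, Walk_rev_smooth h⟩

/-- the junctions passed by a list of darts -/
def junctions (p : List D.Dart) : List (V ⊕ D.J) := p.tail.map beg

/-- two smooth paths with a common junction: from the start `a` of the first there is a smooth path to one of the ends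
of the second. PROOF: follow p until its first junction j which is also a junction of q (j = beg of some dart e of q,
e' the dart before e in q). The last dart d of this initial piece of p satisfies Follows d e or Follows d (e' reversed):
vin d, vin e', vout e are nonzero real multiples of line j (tangent_src/tangent_tgt and regular), vin e' and vout e are
on the same ray; so vin d is on the ray of vout e or on the ray of - vin e' = vout (rev e'). Continue along q to its end,
or backwards along q to its start. The junctions are different because j was the first common one. -/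
theorem hit {a b c d : V} {p q : List D.Dart} (hp : IsSmoothPath a c p) (hq : IsSmoothPath b d q)
    (h : ∃ x ∈ junctions p, x ∈ junctions q) :
    (∃ r : List D.Dart, IsSmoothPath a b r) ∨ (∃ r : List D.Dart, IsSmoothPath a d r) := by
  obtain ⟨dd, hdd⟩ : ∃ dd, dd = d := ⟨_, rfl⟩
  rw [← hdd] at hq ⊢
  obtain ⟨hp1, hp2, _, hp4⟩ := hp
  obtain ⟨hq1, hq2, hq3, hq4⟩ := hq
  obtain ⟨d0, p', rfl⟩ : ∃ d0 p', p = d0 :: p' := by
    cases p with
    | nil => exact absurd hp2 (by simp)
    | cons d0 p' => exact ⟨d0, p', rfl⟩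
  obtain ⟨q0, q', rfl⟩ : ∃ q0 q', q = q0 :: q' := by
    cases q with
    | nil => exact absurd hq2 (by simp)
    | cons q0 q' => exact ⟨q0, q', rfl⟩
  have hex : ∃ e ∈ p', beg e ∈ q'.map beg := by
    obtain ⟨x, hx1, hx2⟩ := h
    obtain ⟨e, he, rfl⟩ := List.mem_map.1 hx1
    exact ⟨e, he, hx2⟩
  obtain ⟨l1, e1, l2, rfl, hj, hl1⟩ := Walk_first (fun e => beg e ∈ q'.map beg) p' hex
  obtain ⟨e, he, hej⟩ := List.mem_map.1 hj
  obtain ⟨m1, m2, rfl⟩ := List.append_of_mem he
  -- the last darts before the junction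
  obtain ⟨d, hd⟩ : ∃ d, (d0 :: l1).getLast? = some d := ⟨_, List.getLast?_eq_getLast_of_ne_nil (List.cons_ne_nil _ _)⟩
  obtain ⟨e', he'⟩ : ∃ e', (q0 :: m1).getLast? = some e' := ⟨_, List.getLast?_eq_getLast_of_ne_nil (List.cons_ne_nil _ _)⟩
  have hpc : ((d0 :: l1) ++ (e1 :: l2)).IsChain Follows := hp1
  have hqc : ((q0 :: m1) ++ (e :: m2)).IsChain Follows := hq1
  rw [List.isChain_append] at hpc hqc
  obtain ⟨c1, _, c3⟩ := hpc
  obtain ⟨c4, c5, c6⟩ := hqc
  have f1 : Follows d e1 := c3 d hd e1 rfl
  have f2 : Follows e' e := c6 e' he' e rfl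
  obtain ⟨j, hjj⟩ := f1.2.1
  have hfd : fin d = Sum.inr j := f1.1.trans hjj
  have hbe : beg e = Sum.inr j := hej.trans hjj
  have hfe' : fin e' = Sum.inr j := f2.1.trans hbe
  have hnl : (l1.map beg).Nodup := by
    have h5 : ((l1 ++ e1 :: l2).map beg).Nodup := hp4
    rw [List.map_append] at h5
    exact (List.nodup_append.1 h5).1
  have hnm : ((m1 ++ e :: m2).map beg).Nodup := hq4
  rcases Walk_ray hfd hbe with hray | hray
  · -- continue along `q`
    right
    have hf : Follows d e := ⟨hfd.trans hbe.symm, ⟨j, hbe⟩, hray⟩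
    refine ⟨(d0 :: l1) ++ (e :: m2), ?_, ?_, ?_, ?_⟩
    · rw [List.isChain_append]
      refine ⟨c1, c5, ?_⟩
      intro x hx y hy
      have h6 : x = d := Option.some_injective _ (hx.symm.trans hd)
      have h7 : y = e := Option.some_injective _ (Eq.symm hy)
      rw [h6, h7]
      exact hf
    · exact hp2
    · rw [List.getLast?_append_of_ne_nil _ (List.cons_ne_nil _ _)]
      have h8 : ((q0 :: m1) ++ (e :: m2)).getLast?.map fin = some (Sum.inl dd) := hq3
      rw [List.getLast?_append_of_ne_nil _ (List.cons_ne_nil _ _)] at h8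
      exact h8
    · change ((l1 ++ e :: m2).map beg).Nodup
      rw [List.map_append] at hnm ⊢
      rw [List.nodup_append] at hnm ⊢
      refine ⟨hnl, hnm.2.1, ?_⟩
      intro x hx y hy hxy
      subst hxy
      obtain ⟨z, hz, rfl⟩ := List.mem_map.1 hx
      refine hl1 z hz ?_
      rw [List.map_append, List.mem_append]
      exact Or.inr hy
  · -- go back along `q`
    left
    have hray2 : SameRay ℝ (vin d) (- vin e') := by
      have h5 : SameRay ℝ (- vout e) (- vin e') := by
        rw [sameRay_neg_iff]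
        exact f2.2.2.symm
      refine hray.trans h5 ?_
      intro h6
      exact absurd (neg_eq_zero.1 h6) (Walk_vout hbe).1
    have hf : Follows d (Walk_rv e') := by
      refine ⟨?_, ⟨j, ?_⟩, ?_⟩
      · rw [Walk_beg_rv, hfd, hfe']
      · rw [Walk_beg_rv, hfe']
      · rw [Walk_vout_rv]; exact hray2
    have hhead : (Walk_rev (q0 :: m1)).head? = some (Walk_rv e') := by
      unfold Walk_rev
      rw [List.head?_reverse, List.getLast?_map, he']
      rfl
    have hne : Walk_rev (q0 :: m1) ≠ [] := by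
      intro h5
      rw [h5] at hhead
      exact absurd hhead (by simp)
    refine ⟨(d0 :: l1) ++ Walk_rev (q0 :: m1), ?_, ?_, ?_, ?_⟩
    · rw [List.isChain_append]
      refine ⟨c1, Walk_rev_chain c4, ?_⟩
      intro x hx y hy
      have h6 : x = d := Option.some_injective _ (hx.symm.trans hd)
      have h7 : y = Walk_rv e' := Option.some_injective _ (Eq.trans (Eq.symm hy) hhead)
      rw [h6, h7]
      exact hf
    · exact hp2
    · rw [List.getLast?_append_of_ne_nil _ hne, Walk_rev_last]
      exact hq2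
    · change ((l1 ++ Walk_rev (q0 :: m1)).map beg).Nodup
      have hmap : (q0 :: m1).map fin = (m1 ++ [e]).map beg := by
        have h5 : ((q0 :: m1) ++ [e]).IsChain Follows := by
          rw [List.isChain_append]
          refine ⟨c4, List.isChain_singleton e, ?_⟩
          intro x hx y hy
          have h6 : x = e' := Option.some_injective _ (hx.symm.trans he')
          have h7 : y = e := Option.some_injective _ (Eq.symm hy)
          rw [h6, h7]
          exact f2
        have h6 := Walk_map_eq h5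
        rw [List.dropLast_concat] at h6
        exact h6
      rw [List.map_append, Walk_rev_map, hmap]
      have hsub : ((m1 ++ [e]).map beg).Nodup ∧ ∀ x ∈ (m1 ++ [e]).map beg, x ∈ (m1 ++ e :: m2).map beg := by
        have h5 : (m1 ++ e :: m2).map beg = (m1 ++ [e]).map beg ++ m2.map beg := by
          rw [← List.map_append]
          simp
        rw [h5] at hnm
        refine ⟨(List.nodup_append.1 hnm).1, fun x hx => ?_⟩
        rw [h5]
        exact List.mem_append.2 (Or.inl hx)
      rw [List.nodup_append]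
      refine ⟨hnl, List.nodup_reverse.2 hsub.1, ?_⟩
      intro x hx y hy hxy
      subst hxy
      rw [List.mem_reverse] at hy
      obtain ⟨z, hz, rfl⟩ := List.mem_map.1 hx
      exact hl1 z hz (hsub.2 _ hy)

/-- the continuous path traversed by a smooth path; every point of it is a point of the curve of one of the darts -/
theorem exists_path {u v : V} {p : List D.Dart} (h : IsSmoothPath u v p) :
    ∃ g : Path (D.pos (Sum.inl u)) (D.pos (Sum.inl v)),
      ∀ t, ∃ e ∈ p, ∃ x ∈ Icc (0 : ℝ) 1, g t = D.curve e.1 x :=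
  Walk_path p _ _ h.1 h.2.1 h.2.2.1

/-- if a point lies on the curves of two smooth paths without common end points, they have a common junction.
PROOF: point on the arcs e.1, e'.1. If the arcs differ, `disjoint` says that it is an end point of both, i.e. the same
element x of V + J (pos_inj); if they are the same arc take x = src. x is a node of both paths; the nodes of p are its
junctions and u, v (inl); the nodes of q are its junctions and u', v'. As {u,v}, {u',v'} are disjoint, x is a junction of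
both (a junction of a path is never inl because of `Follows`). -/
theorem common_junction {u v u' v' : V} {p q : List D.Dart} (hp : IsSmoothPath u v p)
    (hq : IsSmoothPath u' v' q) (h1 : u ≠ u') (h2 : u ≠ v') (h3 : v ≠ u') (h4 : v ≠ v')
    (h : ∃ z : ℂ, (∃ e ∈ p, ∃ x ∈ Icc (0 : ℝ) 1, z = D.curve e.1 x) ∧
      (∃ e ∈ q, ∃ x ∈ Icc (0 : ℝ) 1, z = D.curve e.1 x)) :
    ∃ x ∈ junctions p, x ∈ junctions q := by
  obtain ⟨z, ⟨e, he, x, hx, hz⟩, e', he', x', hx', hz'⟩ := h
  -- a common node
  have hnode : ∃ y, (y = beg e ∨ y = fin e) ∧ (y = beg e' ∨ y = fin e') := by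
    have hsf : ∀ f : D.Dart, (D.src f.1 = beg f ∨ D.src f.1 = fin f) ∧ (D.tgt f.1 = beg f ∨ D.tgt f.1 = fin f) := by
      rintro ⟨a, b⟩
      cases b
      · exact ⟨Or.inr rfl, Or.inl rfl⟩
      · exact ⟨Or.inl rfl, Or.inr rfl⟩
    by_cases hee : e.1 = e'.1
    · exact ⟨D.src e.1, (hsf e).1, by rw [hee]; exact (hsf e').1⟩
    · obtain ⟨h5, h6⟩ := D.disjoint e.1 e'.1 hee x hx x' hx' (hz.symm.trans hz')
      have g1 : ∃ y, z = D.pos y ∧ (y = beg e ∨ y = fin e) := by
        rcases h5 with rfl | rfl
        · exact ⟨D.src e.1, by rw [hz, D.start], (hsf e).1⟩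
        · exact ⟨D.tgt e.1, by rw [hz, D.finish], (hsf e).2⟩
      have g2 : ∃ y, z = D.pos y ∧ (y = beg e' ∨ y = fin e') := by
        rcases h6 with rfl | rfl
        · exact ⟨D.src e'.1, by rw [hz', D.start], (hsf e').1⟩
        · exact ⟨D.tgt e'.1, by rw [hz', D.finish], (hsf e').2⟩
      obtain ⟨y, hy1, hy2⟩ := g1
      obtain ⟨y', hy1', hy2'⟩ := g2
      have hyy : y = y' := D.pos_inj (hy1.symm.trans hy1')
      exact ⟨y, hy2, by rw [hyy]; exact hy2'⟩
  obtain ⟨y, hy, hy'⟩ := hnode
  have k1 : y = Sum.inl u ∨ y = Sum.inl v ∨ y ∈ junctions p := by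
    rcases hy with rfl | rfl
    · rcases Walk_beg hp he with h5 | h5
      · exact Or.inl h5
      · exact Or.inr (Or.inr h5)
    · rcases Walk_fin hp he with h5 | h5
      · exact Or.inr (Or.inl h5)
      · exact Or.inr (Or.inr h5)
  have k2 : y = Sum.inl u' ∨ y = Sum.inl v' ∨ y ∈ junctions q := by
    rcases hy' with rfl | rfl
    · rcases Walk_beg hq he' with h5 | h5
      · exact Or.inl h5
      · exact Or.inr (Or.inr h5)
    · rcases Walk_fin hq he' with h5 | h5
      · exact Or.inr (Or.inl h5)
      · exact Or.inr (Or.inr h5)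
  have j1 : ∀ w : V, Sum.inl w ∉ junctions p := by
    intro w hw
    obtain ⟨j, hj⟩ := Walk_inr hp.1 _ hw
    exact absurd hj (by simp)
  have j2 : ∀ w : V, Sum.inl w ∉ junctions q := by
    intro w hw
    obtain ⟨j, hj⟩ := Walk_inr hq.1 _ hw
    exact absurd hj (by simp)
  rcases k1 with rfl | rfl | k1
  · rcases k2 with k2 | k2 | k2
    · exact absurd (Sum.inl_injective k2) h1
    · exact absurd (Sum.inl_injective k2) h2
    · exact absurd k2 (j2 u)
  · rcases k2 with k2 | k2 | k2
    · exact absurd (Sum.inl_injective k2) h3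
    · exact absurd (Sum.inl_injective k2) h4
    · exact absurd k2 (j2 v)
  · rcases k2 with rfl | rfl | k2
    · exact absurd k1 (j1 u')
    · exact absurd k1 (j1 v')
    · exact ⟨y, k1, k2⟩

end Drawing

end Pool.Agent.SOC
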